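import Mathlib

/-!
Admissible subspaces of a (possibly degenerate) bilinear space, and the counting lemmas
behind the enumeration of triangular tuples.
-/

namespace Pool.Agent.H376.Singer

open Module

variable {K : Type*} [Field K] {X : Type*} [AddCommGroup X] [Module K X]

/-- `P` is totally isotropic for `T`, and each functional `T(·,y)`, `y ∈ P`, is `T(x,·)` for
some `x ∈ P`. -/
def Adm (T : X →ₗ[K] X →ₗ[K] K) (P : Submodule K X) : Prop :=
  (∀ x ∈ P, ∀ y ∈ P, T x y = 0) ∧ (∀ y ∈ P, ∃ x ∈ P, T x = T.flip y)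

/-- Every functional in `S` is `T(x,·)` for some `x` in a common admissible subspace. -/
def Cov (T : X →ₗ[K] X →ₗ[K] K) (S : Set (Dual K X)) : Prop :=
  ∃ P, Adm T P ∧ ∀ b ∈ S, ∃ x ∈ P, T x = b

/-- There is an admissible subspace containing a nonzero vector of the left radical. -/
def Odd (T : X →ₗ[K] X →ₗ[K] K) : Prop :=
  ∃ P, Adm T P ∧ ∃ l ∈ P, l ≠ 0 ∧ T l = 0

theorem adm_bot (T : X →ₗ[K] X →ₗ[K] K) : Adm T ⊥ := by
  refine ⟨?_, ?_⟩
  · intro x hx y hy
    rw [Submodule.mem_bot] at hx hy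
    subst hx; subst hy; simp
  · intro y hy
    rw [Submodule.mem_bot] at hy
    subst hy
    exact ⟨0, Submodule.zero_mem _, by simp⟩

theorem Cov.mono {T : X →ₗ[K] X →ₗ[K] K} {S S' : Set (Dual K X)} (h : Cov T S') (hs : S ⊆ S') :
    Cov T S := by
  obtain ⟨P, hP, h⟩ := h
  exact ⟨P, hP, fun b hb => h b (hs hb)⟩

theorem cov_empty (T : X →ₗ[K] X →ₗ[K] K) : Cov T ∅ :=
  ⟨⊥, adm_bot T, by simp⟩

/-- Adding vectors `s` whose functional `T(·,s)` is already available keeps admissibility. -/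
theorem Adm.sup {T : X →ₗ[K] X →ₗ[K] K} {P S : Submodule K X} (hP : Adm T P)
    (hS : ∀ s ∈ S, ∃ x ∈ P, T x = T.flip s) : Adm T (P ⊔ S) := by
  have key : ∀ x ∈ P, ∀ s ∈ S, T x s = 0 := by
    intro x hx s hs
    obtain ⟨z, hz, hzs⟩ := hS s hs
    have := LinearMap.congr_fun hzs x
    rw [LinearMap.flip_apply] at this
    rw [← this]
    exact hP.1 z hz x hx
  have key2 : ∀ x ∈ P, ∀ s ∈ S, T s x = 0 := by
    intro x hx s hs
    obtain ⟨z, hz, hzx⟩ := hP.2 x hx
    have := LinearMap.congr_fun hzx s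
    rw [LinearMap.flip_apply] at this
    rw [← this]
    exact key z hz s hs
  have key3 : ∀ s ∈ S, ∀ s' ∈ S, T s s' = 0 := by
    intro s hs s' hs'
    obtain ⟨z, hz, hzs⟩ := hS s' hs'
    have := LinearMap.congr_fun hzs s
    rw [LinearMap.flip_apply] at this
    rw [← this]
    exact key z hz s hs
  refine ⟨?_, ?_⟩
  · intro x hx y hy
    obtain ⟨p, hp, s, hs, rfl⟩ := Submodule.mem_sup.mp hx
    obtain ⟨p', hp', s', hs', rfl⟩ := Submodule.mem_sup.mp hy
    simp only [map_add, LinearMap.add_apply]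
    rw [hP.1 p hp p' hp', key p hp s' hs', key2 p' hp' s hs, key3 s hs s' hs']
    simp
  · intro y hy
    obtain ⟨p, hp, s, hs, rfl⟩ := Submodule.mem_sup.mp hy
    obtain ⟨z, hz, hzp⟩ := hP.2 p hp
    obtain ⟨z', hz', hzs⟩ := hS s hs
    refine ⟨z + z', Submodule.mem_sup_left (Submodule.add_mem _ hz hz'), ?_⟩
    rw [map_add, map_add, hzp, hzs]

section ext

variable {L : Type*} [AddCommGroup L] [Module K L]

/-- The extension of the bilinear form `T0` on `L` to `L × K` determined by a functional `θ`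
on `L × K`: `(x, y) ↦ T0 x.1 y.1 + θ x * y.2`. -/
def ext (T0 : L →ₗ[K] L →ₗ[K] K) (θ : Dual K (L × K)) : (L × K) →ₗ[K] (L × K) →ₗ[K] K :=
  LinearMap.mk₂ K (fun x y => T0 x.1 y.1 + θ x * y.2)
    (by intro a b c; simp [add_mul]; ring)
    (by intro a b c; simp; ring)
    (by intro a b c; simp; ring)
    (by intro a b c; simp; ring)

@[simp] theorem ext_apply (T0 : L →ₗ[K] L →ₗ[K] K) (θ : Dual K (L × K)) (x y : L × K) :
    ext T0 θ x y = T0 x.1 y.1 + θ x * y.2 := rfl

/-- the functional `(x, s) ↦ a x + t * s` -/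
def fn (a : Dual K L) (t : K) : Dual K (L × K) := a.coprod (t • LinearMap.id)

@[simp] theorem fn_apply (a : Dual K L) (t : K) (x : L × K) : fn a t x = a x.1 + t * x.2 := by
  simp [fn]

theorem shift {T0 : L →ₗ[K] L →ₗ[K] K} {θ : Dual K (L × K)} {P : Submodule K (L × K)}
    (hP : Adm (ext T0 θ) P) {z : L × K} (hz : z ∈ P) (μ : K) :
    Adm (ext T0 (θ + μ • ext T0 θ z)) P ∧
      ∀ x ∈ P, ext T0 (θ + μ • ext T0 θ z) x = ext T0 θ x := by
  have h1 : ∀ x ∈ P, ext T0 (θ + μ • ext T0 θ z) x = ext T0 θ x := by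
    intro x hx
    have h0 : ext T0 θ z x = 0 := hP.1 z hz x hx
    ext y
    · simp only [LinearMap.comp_apply, ext_apply, LinearMap.add_apply, LinearMap.smul_apply,
        LinearMap.inl_apply]
      simp
    · simp only [LinearMap.comp_apply, ext_apply, LinearMap.add_apply, LinearMap.smul_apply,
        LinearMap.inr_apply]
      rw [ext_apply] at h0
      rw [h0]; simp
  refine ⟨⟨?_, ?_⟩, h1⟩
  · intro x hx y hy
    rw [h1 x hx]
    exact hP.1 x hx y hy
  · intro y hy
    obtain ⟨x, hx, hxy⟩ := hP.2 y hy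
    refine ⟨x + (μ * y.2) • z, Submodule.add_mem _ hx (Submodule.smul_mem _ _ hz), ?_⟩
    rw [h1 _ (Submodule.add_mem _ hx (Submodule.smul_mem _ _ hz))]
    apply LinearMap.ext
    intro w
    have h2 := LinearMap.congr_fun hxy w
    rw [LinearMap.flip_apply] at h2
    rw [map_add, LinearMap.add_apply, h2, map_smul, LinearMap.smul_apply, LinearMap.flip_apply,
      ext_apply, ext_apply (θ := θ + _)]
    simp only [LinearMap.add_apply, LinearMap.smul_apply, smul_eq_mul]
    ring

/-- No multiple of the second projection is available in an admissible subspace. -/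
theorem no_snd {T0 : L →ₗ[K] L →ₗ[K] K} (h0 : ∀ x, T0 x = 0 → x = 0) {θ : Dual K (L × K)}
    {P : Submodule K (L × K)} (hP : Adm (ext T0 θ) P) {z : L × K} (hz : z ∈ P) {c : K}
    (h : ∀ y, ext T0 θ z y = c * y.2) : c = 0 := by
  have h1 : z.1 = 0 := by
    apply h0
    ext l
    have := h (l, 0)
    simpa using this
  have h2 : θ z = c := by
    have := h (0, 1)
    simpa using this
  have h3 : c * z.2 = 0 := by
    have := hP.1 z hz z hz
    rw [h z] at this
    exact this
  by_contra hc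
  have h4 : z.2 = 0 := by
    rcases mul_eq_zero.mp h3 with h | h
    · exact absurd h hc
    · exact h
  have h5 : z = 0 := Prod.ext h1 h4
  rw [h5] at h2
  simp at h2
  exact hc h2.symm

end ext

end Pool.Agent.H376.Singer
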