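import Mathlib
import Pool.Agent.H376.Singer.Adm

/-!
The number of `a` for which a given set of functionals on `L × K` is available for the
extension `(a, t)` does not depend on `t`.
-/

namespace Pool.Agent.H376.Singer

open Module

variable {K : Type*} [Field K] {L : Type*} [AddCommGroup L] [Module K L]

section sigma

variable [FiniteDimensional K L]

theorem right_nondeg {T0 : L →ₗ[K] L →ₗ[K] K} (h0 : ∀ x, T0 x = 0 → x = 0) :
    ∀ x, T0.flip x = 0 → x = 0 := by
  have hinj : Function.Injective T0 := by
    rw [← LinearMap.ker_eq_bot, LinearMap.ker_eq_bot']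
    exact h0
  have hsurj : Function.Surjective T0 := by
    have : finrank K L = finrank K (Dual K L) := (Subspace.dual_finrank_eq).symm
    exact (LinearMap.injective_iff_surjective_of_finrank_eq_finrank this).mp hinj
  intro x hx
  rw [← Module.forall_dual_apply_eq_zero_iff K x]
  intro φ
  obtain ⟨y, rfl⟩ := hsurj φ
  have := LinearMap.congr_fun hx y
  simpa using this

theorem exists_flip {T0 : L →ₗ[K] L →ₗ[K] K} (h0 : ∀ x, T0 x = 0 → x = 0) :
    ∀ φ : Dual K L, ∃ x, T0.flip x = φ := by
  have h1 := right_nondeg h0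
  have hinj : Function.Injective T0.flip := by
    rw [← LinearMap.ker_eq_bot, LinearMap.ker_eq_bot']
    exact h1
  have hsurj : Function.Surjective T0.flip := by
    have : finrank K L = finrank K (Dual K L) := (Subspace.dual_finrank_eq).symm
    exact (LinearMap.injective_iff_surjective_of_finrank_eq_finrank this).mp hinj
  exact hsurj

theorem exists_left {T0 : L →ₗ[K] L →ₗ[K] K} (h0 : ∀ x, T0 x = 0 → x = 0) :
    ∀ φ : Dual K L, ∃ x, T0 x = φ := by
  have hinj : Function.Injective T0 := by
    rw [← LinearMap.ker_eq_bot, LinearMap.ker_eq_bot']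
    exact h0
  have hsurj : Function.Surjective T0 := by
    have : finrank K L = finrank K (Dual K L) := (Subspace.dual_finrank_eq).symm
    exact (LinearMap.injective_iff_surjective_of_finrank_eq_finrank this).mp hinj
  exact hsurj

/-- The asymmetry of a nondegenerate form. -/
theorem exists_sigma {T0 : L →ₗ[K] L →ₗ[K] K} (h0 : ∀ x, T0 x = 0 → x = 0) :
    ∃ σ : L ≃ₗ[K] L, ∀ x y, T0 y (σ x) = T0 x y := by
  have h1 := right_nondeg h0
  have hinj : Function.Injective T0 := by
    rw [← LinearMap.ker_eq_bot, LinearMap.ker_eq_bot']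
    exact h0
  have hinj' : Function.Injective T0.flip := by
    rw [← LinearMap.ker_eq_bot, LinearMap.ker_eq_bot']
    exact h1
  have hf : finrank K L = finrank K (Dual K L) := (Subspace.dual_finrank_eq).symm
  let e1 : L ≃ₗ[K] Dual K L := LinearEquiv.ofInjectiveOfFinrankEq T0 hinj hf
  let e2 : L ≃ₗ[K] Dual K L := LinearEquiv.ofInjectiveOfFinrankEq T0.flip hinj' hf
  refine ⟨e1.trans e2.symm, ?_⟩
  intro x y
  have h2 : e2 (e2.symm (e1 x)) = e1 x := e2.apply_symm_apply _
  have h3 : T0.flip (e2.symm (e1 x)) = T0 x := h2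
  have h4 := LinearMap.congr_fun h3 y
  rw [LinearMap.flip_apply] at h4
  exact h4

end sigma

/-- the set of `a` such that the vectors `(p, 0)`, `p ∈ P`, lie in an admissible subspace -/
def good (T0 : L →ₗ[K] L →ₗ[K] K) (t : K) (P : Submodule K L) : Set (Dual K L) :=
  {a | ∃ Q, Adm (ext T0 (fn a t)) Q ∧ ∀ p ∈ P, ((p, 0) : L × K) ∈ Q}

theorem good_iso {T0 : L →ₗ[K] L →ₗ[K] K} {t : K} {P : Submodule K L} {a : Dual K L}
    (ha : a ∈ good T0 t P) : ∀ p ∈ P, ∀ q ∈ P, T0 p q = 0 := by
  obtain ⟨Q, hQ, hP⟩ := ha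
  intro p hp q hq
  have := hQ.1 _ (hP p hp) _ (hP q hq)
  simpa using this

theorem good_step {T0 : L →ₗ[K] L →ₗ[K] K} (h0 : ∀ x, T0 x = 0 → x = 0)
    (σ : L ≃ₗ[K] L) (hσ : ∀ x y, T0 y (σ x) = T0 x y) {t : K} {P : Submodule K L}
    {a : Dual K L} : a ∈ good T0 t (P ⊔ P.map (σ : L →ₗ[K] L)) ↔
      a ∈ good T0 t P ∧ ∀ p ∈ P, a p = 0 := by
  constructor
  · rintro ⟨Q, hQ, hP⟩
    refine ⟨⟨Q, hQ, fun p hp => hP p (Submodule.mem_sup_left hp)⟩, ?_⟩
    intro p hp
    obtain ⟨x, hx, hxp⟩ := hQ.2 (σ p, 0)
      (hP _ (Submodule.mem_sup_right (Submodule.mem_map_of_mem hp)))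
    have hz : ((p, 0) : L × K) - x ∈ Q :=
      Submodule.sub_mem _ (hP p (Submodule.mem_sup_left hp)) hx
    refine no_snd h0 hQ hz ?_
    intro y
    have h2 := LinearMap.congr_fun hxp y
    rw [LinearMap.flip_apply] at h2
    rw [map_sub, LinearMap.sub_apply, h2]
    simp [hσ]
  · rintro ⟨⟨Q, hQ, hP⟩, ha⟩
    have hS : ∀ s ∈ (P.map (σ : L →ₗ[K] L)).map (LinearMap.inl K L K),
        ∃ x ∈ Q, ext T0 (fn a t) x = (ext T0 (fn a t)).flip s := by
      intro s hs
      obtain ⟨s', hs', rfl⟩ := Submodule.mem_map.mp hs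
      obtain ⟨p, hp, rfl⟩ := Submodule.mem_map.mp hs'
      refine ⟨(p, 0), hP p hp, ?_⟩
      apply LinearMap.ext
      intro y
      simp [hσ, ha p hp]
    refine ⟨_, hQ.sup hS, ?_⟩
    intro p hp
    obtain ⟨p1, hp1, p2, hp2, rfl⟩ := Submodule.mem_sup.mp hp
    have : ((p1 + p2, 0) : L × K) = (p1, 0) + LinearMap.inl K L K p2 := by simp
    rw [this]
    exact Submodule.add_mem _ (Submodule.mem_sup_left (hP p1 hp1))
      (Submodule.mem_sup_right (Submodule.mem_map_of_mem hp2))

theorem good_base {T0 : L →ₗ[K] L →ₗ[K] K} (h0 : ∀ x, T0 x = 0 → x = 0) [FiniteDimensional K L]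
    (σ : L ≃ₗ[K] L) (hσ : ∀ x y, T0 y (σ x) = T0 x y) {t : K} {P : Submodule K L}
    (hP : P.map (σ : L →ₗ[K] L) ≤ P)
    {a : Dual K L} : a ∈ good T0 t P ↔
      (∀ p ∈ P, ∀ q ∈ P, T0 p q = 0) ∧ ∀ p ∈ P, a p = 0 := by
  have hsup : P ⊔ P.map (σ : L →ₗ[K] L) = P := sup_eq_left.mpr hP
  have hmap : P.map (σ : L →ₗ[K] L) = P := by
    apply Submodule.eq_of_le_of_finrank_le hP
    rw [LinearEquiv.finrank_map_eq]
  constructor
  · intro ha
    refine ⟨good_iso ha, ?_⟩
    rw [← hsup] at ha
    exact ((good_step h0 σ hσ).mp ha).2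
  · rintro ⟨h1, h2⟩
    refine ⟨P.map (LinearMap.inl K L K), ⟨?_, ?_⟩, ?_⟩
    · intro x hx y hy
      obtain ⟨x', hx', rfl⟩ := Submodule.mem_map.mp hx
      obtain ⟨y', hy', rfl⟩ := Submodule.mem_map.mp hy
      simp [h1 x' hx' y' hy']
    · intro y hy
      obtain ⟨y', hy', rfl⟩ := Submodule.mem_map.mp hy
      rw [← hmap] at hy'
      obtain ⟨p, hp, rfl⟩ := Submodule.mem_map.mp hy'
      refine ⟨LinearMap.inl K L K p, Submodule.mem_map_of_mem hp, ?_⟩
      apply LinearMap.ext
      intro w
      simp [hσ, h2 p hp]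
    · intro p hp
      exact Submodule.mem_map_of_mem (f := LinearMap.inl K L K) hp

open Classical in
/-- a vector of `P` on which `ν` does not vanish, if there is one -/
noncomputable def pick (P : Submodule K L) (ν : Dual K P) : P :=
  if h : ∃ p : P, ν p ≠ 0 then h.choose else 0

theorem pick_spec {P : Submodule K L} {ν : Dual K P} (h : ν ≠ 0) : ν (pick P ν) ≠ 0 := by
  have h' : ∃ p : P, ν p ≠ 0 := by
    by_contra hc
    push Not at hc
    exact h (LinearMap.ext hc)
  unfold pick
  rw [dif_pos h']
  exact h'.choose_spec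

/-- the translation map -/
noncomputable def trans (T0 : L →ₗ[K] L →ₗ[K] K) (P : Submodule K L) (t t' : K)
    (a : Dual K L) : Dual K L :=
  a + ((t' - t) / a (pick P (a.domRestrict P))) • T0 (pick P (a.domRestrict P))

theorem trans_restrict {T0 : L →ₗ[K] L →ₗ[K] K} {P : Submodule K L}
    (hiso : ∀ p ∈ P, ∀ q ∈ P, T0 p q = 0) (t t' : K) (a : Dual K L) :
    (trans T0 P t t' a).domRestrict P = a.domRestrict P := by
  ext p
  simp only [trans, LinearMap.domRestrict_apply, LinearMap.add_apply, LinearMap.smul_apply]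
  rw [hiso _ (pick P (a.domRestrict P)).2 _ p.2]
  simp

theorem trans_trans {T0 : L →ₗ[K] L →ₗ[K] K} {P : Submodule K L}
    (hiso : ∀ p ∈ P, ∀ q ∈ P, T0 p q = 0) (t t' : K) (a : Dual K L) :
    trans T0 P t' t (trans T0 P t t' a) = a := by
  have h1 := trans_restrict hiso t t' a
  have h2 : (trans T0 P t t' a) (pick P (a.domRestrict P)) = a (pick P (a.domRestrict P)) := by
    have := LinearMap.congr_fun h1 (pick P (a.domRestrict P))
    simpa using this
  rw [trans, h1, h2, trans, add_assoc, ← add_smul]
  have : (t' - t) / a (pick P (a.domRestrict P)) + (t - t') / a (pick P (a.domRestrict P)) = 0 := by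
    rw [← add_div]; ring_nf
  rw [this, zero_smul, add_zero]

theorem trans_mem {T0 : L →ₗ[K] L →ₗ[K] K} {P : Submodule K L} {t t' : K} {a : Dual K L}
    (ha : a ∈ good T0 t P) (hν : a.domRestrict P ≠ 0) :
    trans T0 P t t' a ∈ good T0 t' P := by
  obtain ⟨Q, hQ, hP⟩ := ha
  set p : P := pick P (a.domRestrict P) with hp
  have hap : a p ≠ 0 := by
    have := pick_spec hν
    simpa using this
  set μ := (t' - t) / a p with hμ
  have hz : ((p : L), (0 : K)) ∈ Q := hP _ p.2
  have hθ : fn (trans T0 P t t' a) t' = fn a t + μ • ext T0 (fn a t) ((p : L), (0 : K)) := by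
    apply LinearMap.ext
    intro y
    simp only [fn_apply, trans, LinearMap.add_apply, LinearMap.smul_apply, ext_apply,
      smul_eq_mul, mul_zero, add_zero]
    rw [← hp, ← hμ]
    have : μ * a p = t' - t := by rw [hμ]; field_simp
    linear_combination (-y.2) * this
  have hs := shift hQ hz μ
  refine ⟨Q, ?_, hP⟩
  rw [hθ]
  exact hs.1

theorem ncard_good (T0 : L →ₗ[K] L →ₗ[K] K) (h0 : ∀ x, T0 x = 0 → x = 0)
    [FiniteDimensional K L] [Finite K] (t t' : K) (P : Submodule K L) :
    (good T0 t P).ncard = (good T0 t' P).ncard := by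
  obtain ⟨σ, hσ⟩ := exists_sigma h0
  have hfin : Finite (Dual K L) := Module.finite_of_finite K
  induction hn : finrank K L - finrank K P using Nat.strong_induction_on generalizing P with
  | _ n ih =>
    by_cases hP : P.map (σ : L →ₗ[K] L) ≤ P
    · have : good T0 t P = good T0 t' P := by
        ext a
        rw [good_base h0 σ hσ hP, good_base h0 σ hσ hP]
      rw [this]
    · set P' := P ⊔ P.map (σ : L →ₗ[K] L) with hP'
      have hlt : P < P' := by
        refine lt_of_le_of_ne le_sup_left ?_
        intro h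
        exact hP ((le_sup_right : P.map (σ : L →ₗ[K] L) ≤ P').trans h.ge)
      have hfl : finrank K P < finrank K P' := Submodule.finrank_lt_finrank_of_lt hlt
      have hle : finrank K P' ≤ finrank K L := Submodule.finrank_le _
      have ih' := ih (finrank K L - finrank K P') (by omega) P' rfl
      have hsplit : ∀ s, good T0 s P = good T0 s P' ∪
          {a | a ∈ good T0 s P ∧ a.domRestrict P ≠ 0} := by
        intro s
        ext a
        rw [Set.mem_union, hP', good_step h0 σ hσ]
        have hz : (∀ p ∈ P, a p = 0) ↔ a.domRestrict P = 0 := by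
          constructor
          · intro h; ext p; simpa using h p p.2
          · intro h p hp
            have := LinearMap.congr_fun h ⟨p, hp⟩
            simpa using this
        rw [hz]
        simp only [Set.mem_ofPred_eq]
        tauto
      have hdisj : ∀ s, Disjoint (good T0 s P') {a | a ∈ good T0 s P ∧ a.domRestrict P ≠ 0} := by
        intro s
        rw [Set.disjoint_left]
        intro a ha hb
        rw [hP', good_step h0 σ hσ] at ha
        apply hb.2
        ext p
        simpa using ha.2 p p.2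
      have hle2 : ∀ s s', {a | a ∈ good T0 s P ∧ a.domRestrict P ≠ 0}.ncard ≤
          {a | a ∈ good T0 s' P ∧ a.domRestrict P ≠ 0}.ncard := by
        intro s s'
        refine Set.ncard_le_ncard_of_injOn (trans T0 P s s') ?_ ?_ (Set.toFinite _)
        · intro a ha
          exact ⟨trans_mem ha.1 ha.2, by rw [trans_restrict (good_iso ha.1)]; exact ha.2⟩
        · intro a ha b hb hab
          rw [← trans_trans (good_iso ha.1) s s' a, hab, trans_trans (good_iso ha.1) s s' b]
      rw [hsplit t, hsplit t', Set.ncard_union_eq (hdisj t) (Set.toFinite _) (Set.toFinite _),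
        Set.ncard_union_eq (hdisj t') (Set.toFinite _) (Set.toFinite _), ih',
        le_antisymm (hle2 t t') (hle2 t' t)]

/-- **Independence of `t`.** -/
theorem ncard_cov (T0 : L →ₗ[K] L →ₗ[K] K) (h0 : ∀ x, T0 x = 0 → x = 0)
    [FiniteDimensional K L] [Finite K] (t t' : K) (S : Set (Dual K (L × K))) :
    {a : Dual K L | Cov (ext T0 (fn a t)) S}.ncard =
      {a : Dual K L | Cov (ext T0 (fn a t')) S}.ncard := by
  have hfin : Finite (Dual K L) := Module.finite_of_finite K
  by_cases hS : ∃ φ ∈ S, φ ((0 : L), (1 : K)) ≠ 0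
  · obtain ⟨φ, hφ, hφe⟩ := hS
    have hle : ∀ s s' : K, {a : Dual K L | Cov (ext T0 (fn a s)) S}.ncard ≤
        {a : Dual K L | Cov (ext T0 (fn a s')) S}.ncard := by
      intro s s'
      refine Set.ncard_le_ncard_of_injOn
        (fun a => a + ((s' - s) / φ ((0 : L), (1 : K))) • φ.comp (LinearMap.inl K L K))
        ?_ ?_ (Set.toFinite _)
      · intro a ha
        obtain ⟨P, hP, hb⟩ := ha
        obtain ⟨z, hz, hzφ⟩ := hb φ hφ
        set μ := (s' - s) / φ ((0 : L), (1 : K)) with hμ
        have hθ : fn (a + μ • φ.comp (LinearMap.inl K L K)) s' =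
            fn a s + μ • ext T0 (fn a s) z := by
          apply LinearMap.ext
          intro y
          have hy : φ y = φ (y.1, 0) + y.2 * φ (0, 1) := by
            have : y = (y.1, 0) + y.2 • ((0 : L), (1 : K)) := by ext <;> simp
            conv_lhs => rw [this]
            rw [map_add, map_smul, smul_eq_mul]
          have hm : μ * φ (0, 1) = s' - s := by rw [hμ]; field_simp
          rw [hzφ]
          simp only [fn_apply, LinearMap.add_apply, LinearMap.smul_apply, smul_eq_mul,
            LinearMap.comp_apply, LinearMap.inl_apply]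
          rw [hy]
          linear_combination (-y.2) * hm
        have hs := shift hP hz μ
        refine ⟨P, ?_, ?_⟩
        · rw [hθ]; exact hs.1
        · intro b hbS
          obtain ⟨x, hx, hxb⟩ := hb b hbS
          refine ⟨x, hx, ?_⟩
          rw [hθ, hs.2 x hx, hxb]
      · intro a _ b _ hab
        simpa using hab
    exact le_antisymm (hle t t') (hle t' t)
  · push Not at hS
    set P : Submodule K L := Submodule.span K
      {p | (T0.flip p).comp (LinearMap.fst K L K) ∈ S} with hPdef
    have key : ∀ s : K, {a : Dual K L | Cov (ext T0 (fn a s)) S} = good T0 s P := by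
      intro s
      ext a
      simp only [Set.mem_ofPred_eq, good]
      have hflip : ∀ p : L, (ext T0 (fn a s)).flip (p, 0) =
          (T0.flip p).comp (LinearMap.fst K L K) := by
        intro p
        apply LinearMap.ext
        intro y
        simp
      constructor
      · rintro ⟨Q, hQ, hb⟩
        have hsub : ∀ u ∈ P.map (LinearMap.inl K L K), ∃ x ∈ Q,
            ext T0 (fn a s) x = (ext T0 (fn a s)).flip u := by
          intro u hu
          obtain ⟨p, hp, rfl⟩ := Submodule.mem_map.mp hu
          rw [hPdef] at hp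
          induction hp using Submodule.span_induction with
          | mem p hp =>
            obtain ⟨x, hx, hxp⟩ := hb _ hp
            refine ⟨x, hx, ?_⟩
            rw [hxp, LinearMap.inl_apply, hflip]
          | zero => exact ⟨0, Submodule.zero_mem _, by rw [map_zero, map_zero, map_zero]⟩
          | add p q _ _ hp hq =>
            obtain ⟨x, hx, hxp⟩ := hp (Submodule.mem_map_of_mem (by assumption))
            obtain ⟨y, hy, hyq⟩ := hq (Submodule.mem_map_of_mem (by assumption))
            exact ⟨x + y, Submodule.add_mem _ hx hy, by rw [map_add, hxp, hyq, map_add, map_add]⟩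
          | smul c p _ hp =>
            obtain ⟨x, hx, hxp⟩ := hp (Submodule.mem_map_of_mem (by assumption))
            exact ⟨c • x, Submodule.smul_mem _ _ hx, by rw [map_smul, hxp, map_smul, map_smul]⟩
        refine ⟨_, hQ.sup hsub, ?_⟩
        intro p hp
        exact Submodule.mem_sup_right (Submodule.mem_map_of_mem (f := LinearMap.inl K L K) hp)
      · rintro ⟨Q, hQ, hp⟩
        refine ⟨Q, hQ, ?_⟩
        intro b hb
        obtain ⟨p, hpb⟩ := exists_flip h0 (b.comp (LinearMap.inl K L K))
        have hb' : (T0.flip p).comp (LinearMap.fst K L K) = b := by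
          apply LinearMap.ext
          intro y
          have hy : b y = b (y.1, 0) + y.2 * b (0, 1) := by
            have : y = (y.1, 0) + y.2 • ((0 : L), (1 : K)) := by ext <;> simp
            conv_lhs => rw [this]
            rw [map_add, map_smul, smul_eq_mul]
          rw [hy, hS b hb, mul_zero, add_zero, LinearMap.comp_apply, hpb]
          simp
        have hpP : p ∈ P := by
          rw [hPdef]
          apply Submodule.subset_span
          rw [Set.mem_ofPred_eq, hb']
          exact hb
        obtain ⟨x, hx, hxp⟩ := hQ.2 _ (hp p hpP)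
        exact ⟨x, hx, by rw [hxp, hflip, hb']⟩
    rw [key t, key t']
    exact ncard_good T0 h0 t t' P

end Pool.Agent.H376.Singer
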