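import Mathlib
import Pool.Agent.H376.Singer.Count

/-!
The extension `(a, 0)` for a functional `a` which is itself available, and the odd type.
-/

namespace Pool.Agent.H376.Singer

open Module

variable {K : Type*} [Field K] {L : Type*} [AddCommGroup L] [Module K L]

theorem not_odd {T0 : L →ₗ[K] L →ₗ[K] K} (h0 : ∀ x, T0 x = 0 → x = 0) : ¬ Odd T0 := by
  rintro ⟨_, _, l, _, hl, hl0⟩
  exact hl (h0 l hl0)

theorem ext_inl {T0 : L →ₗ[K] L →ₗ[K] K} {a : Dual K L} {P : Submodule K L} (hP : Adm T0 P)
    {z : L} (hz : z ∈ P) (ha : T0 z = a) {p : L} (hp : p ∈ P) (y : L × K) :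
    ext T0 (fn a 0) (p, 0) y = T0 p y.1 := by
  have : a p = 0 := by rw [← ha]; exact hP.1 z hz p hp
  simp [this]

theorem adm_inl {T0 : L →ₗ[K] L →ₗ[K] K} {a : Dual K L} {P : Submodule K L} (hP : Adm T0 P)
    {z : L} (hz : z ∈ P) (ha : T0 z = a) :
    Adm (ext T0 (fn a 0)) (P.map (LinearMap.inl K L K)) := by
  constructor
  · intro x hx y hy
    obtain ⟨x', hx', rfl⟩ := Submodule.mem_map.mp hx
    obtain ⟨y', hy', rfl⟩ := Submodule.mem_map.mp hy
    rw [LinearMap.inl_apply, ext_inl hP hz ha hx']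
    simpa using hP.1 x' hx' y' hy'
  · intro y hy
    obtain ⟨y', hy', rfl⟩ := Submodule.mem_map.mp hy
    obtain ⟨x, hx, hxy⟩ := hP.2 y' hy'
    refine ⟨LinearMap.inl K L K x, Submodule.mem_map_of_mem hx, ?_⟩
    apply LinearMap.ext
    intro w
    rw [LinearMap.inl_apply, ext_inl hP hz ha hx, hxy]
    simp

theorem odd_ext_iff {T0 : L →ₗ[K] L →ₗ[K] K} (h0 : ∀ x, T0 x = 0 → x = 0) (a : Dual K L) :
    Odd (ext T0 (fn a 0)) ↔ Cov T0 {a} := by
  constructor
  · rintro ⟨P, hP, l, hl, hl0, hTl⟩
    have h1 : l.1 = 0 := by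
      apply h0
      ext x
      have := LinearMap.congr_fun hTl (x, 0)
      simpa using this
    have h2 : l.2 ≠ 0 := by
      intro h
      exact hl0 (Prod.ext h1 h)
    have he : ((0 : L), (1 : K)) ∈ P := by
      have : ((0 : L), (1 : K)) = (l.2)⁻¹ • l := by
        ext
        · simp [h1]
        · simp [h2]
      rw [this]
      exact Submodule.smul_mem _ _ hl
    have hTe : ext T0 (fn a 0) ((0 : L), (1 : K)) = 0 := by
      apply LinearMap.ext; intro y; simp
    have hcomp : ∀ x ∈ P, ((x.1, 0) : L × K) ∈ P ∧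
        ext T0 (fn a 0) (x.1, 0) = ext T0 (fn a 0) x := by
      intro x hx
      have : ((x.1, 0) : L × K) = x - x.2 • ((0 : L), (1 : K)) := by ext <;> simp
      rw [this]
      refine ⟨Submodule.sub_mem _ hx (Submodule.smul_mem _ _ he), ?_⟩
      rw [map_sub, map_smul, hTe, smul_zero, sub_zero]
    refine ⟨P.comap (LinearMap.inl K L K), ⟨?_, ?_⟩, ?_⟩
    · intro x hx y hy
      have := hP.1 _ hx _ hy
      simpa using this
    · intro y hy
      obtain ⟨x, hx, hxy⟩ := hP.2 _ hy
      refine ⟨x.1, (hcomp x hx).1, ?_⟩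
      ext w
      have h3 := LinearMap.congr_fun hxy (w, 0)
      rw [← (hcomp x hx).2] at h3
      simpa using h3
    · intro b hb
      rw [Set.mem_singleton_iff] at hb
      subst hb
      obtain ⟨x, hx, hxy⟩ := hP.2 _ he
      refine ⟨x.1, (hcomp x hx).1, ?_⟩
      ext w
      have h3 := LinearMap.congr_fun hxy (w, 0)
      rw [← (hcomp x hx).2] at h3
      simpa using h3
  · rintro ⟨P, hP, hb⟩
    obtain ⟨z, hz, hza⟩ := hb a rfl
    have hA := adm_inl hP hz hza
    have hS : ∀ s ∈ Submodule.span K {((0 : L), (1 : K))}, ∃ x ∈ P.map (LinearMap.inl K L K),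
        ext T0 (fn a 0) x = (ext T0 (fn a 0)).flip s := by
      intro s hs
      obtain ⟨c, rfl⟩ := Submodule.mem_span_singleton.mp hs
      refine ⟨LinearMap.inl K L K (c • z),
        Submodule.mem_map_of_mem (Submodule.smul_mem _ _ hz), ?_⟩
      apply LinearMap.ext
      intro w
      rw [LinearMap.inl_apply, ext_inl hP hz hza (Submodule.smul_mem _ _ hz), map_smul, hza]
      simp
      ring
    refine ⟨_, hA.sup hS, ((0 : L), (1 : K)),
      Submodule.mem_sup_right (Submodule.mem_span_singleton_self _), by simp, ?_⟩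
    apply LinearMap.ext; intro y; simp

theorem cov_ext_iff [FiniteDimensional K L] {T0 : L →ₗ[K] L →ₗ[K] K}
    (h0 : ∀ x, T0 x = 0 → x = 0) {a : Dual K L} (ha : Cov T0 {a}) (S : Set (Dual K (L × K))) :
    Cov (ext T0 (fn a 0)) S ↔ (∀ φ ∈ S, φ ((0 : L), (1 : K)) = 0) ∧
      Cov T0 (insert a ((fun φ : Dual K (L × K) => φ.comp (LinearMap.inl K L K)) '' S)) := by
  constructor
  · rintro ⟨P, hP, hb⟩
    obtain ⟨σ, hσ⟩ := exists_sigma h0
    obtain ⟨Q, hQ, hQa⟩ := ha
    obtain ⟨z, hz, hza⟩ := hQa a rfl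
    have hσ2 : ∀ x y, T0 (σ x) (σ y) = T0 x y := by
      intro x y; rw [hσ, hσ]
    have hσs : ∀ x y, T0 x (σ.symm y) = T0 (σ x) y := by
      intro x y
      rw [← hσ2 x (σ.symm y), σ.apply_symm_apply]
    -- Q is stable under σ
    have hQs : Q.map (σ : L →ₗ[K] L) = Q := by
      have hle : Q ≤ Q.map (σ : L →ₗ[K] L) := by
        intro y hy
        obtain ⟨x, hx, hxy⟩ := hQ.2 y hy
        refine ⟨x, hx, ?_⟩
        have : T0.flip (σ x - y) = 0 := by
          ext w
          have := LinearMap.congr_fun hxy w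
          rw [LinearMap.flip_apply] at this
          simp [hσ, this]
        have := right_nondeg h0 _ this
        exact sub_eq_zero.mp this
      symm
      apply Submodule.eq_of_le_of_finrank_le hle
      rw [LinearEquiv.finrank_map_eq]
    have hQσ : ∀ x ∈ Q, σ x ∈ Q := by
      intro x hx
      rw [← hQs]
      exact Submodule.mem_map_of_mem hx
    have hpow : ∀ k : ℕ, (σ ^ k) z ∈ Q := by
      intro k
      induction k with
      | zero => simpa using hz
      | succ k ih => rw [pow_succ', LinearEquiv.mul_apply]; exact hQσ _ ih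
    set U : Submodule K L := Submodule.span K (Set.range fun k : ℕ => (σ ^ k) z) with hU
    have hUQ : U ≤ Q := by
      rw [hU, Submodule.span_le]
      rintro _ ⟨k, rfl⟩
      exact hpow k
    have hUσ : U.map (σ : L →ₗ[K] L) = U := by
      have hle : U.map (σ : L →ₗ[K] L) ≤ U := by
        rw [hU, Submodule.map_span, Submodule.span_le]
        rintro _ ⟨_, ⟨k, rfl⟩, rfl⟩
        apply Submodule.subset_span
        refine ⟨k + 1, ?_⟩
        simp only [pow_succ', LinearEquiv.mul_apply]
        rfl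
      apply Submodule.eq_of_le_of_finrank_le hle
      rw [LinearEquiv.finrank_map_eq]
    have hzU : z ∈ U := Submodule.subset_span ⟨0, by simp⟩
    -- successors
    have succ : ∀ x ∈ P, ∃ x' ∈ P, x'.1 = σ.symm x.1 + x.2 • z ∧ a x'.1 = 0 := by
      intro x hx
      obtain ⟨x', hx', hxx⟩ := hP.2 x hx
      refine ⟨x', hx', ?_, ?_⟩
      · have : T0 (x'.1 - (σ.symm x.1 + x.2 • z)) = 0 := by
          ext w
          have h1 := LinearMap.congr_fun hxx (w, 0)
          rw [LinearMap.flip_apply] at h1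
          simp only [ext_apply, fn_apply, zero_mul, add_zero, mul_zero] at h1
          have h2 : T0 (σ.symm x.1) w = T0 w x.1 := by
            rw [← hσ, σ.apply_symm_apply]
          simp only [map_sub, map_add, map_smul, LinearMap.sub_apply, LinearMap.add_apply,
            LinearMap.smul_apply, smul_eq_mul, LinearMap.zero_apply]
          rw [h1, h2, hza]
          ring
        exact sub_eq_zero.mp (h0 _ this)
      · have h1 := LinearMap.congr_fun hxx ((0 : L), (1 : K))
        rw [LinearMap.flip_apply] at h1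
        simpa using h1
    have claim : ∀ k : ℕ, ∀ x ∈ P, T0 ((σ ^ (k + 1)) z) x.1 = 0 := by
      intro k
      induction k with
      | zero =>
        intro x hx
        obtain ⟨x', hx', h1, h2⟩ := succ x hx
        rw [← hza, h1, map_add, map_smul, hQ.1 z hz z hz, smul_zero, add_zero, hσs] at h2
        simpa using h2
      | succ k ih =>
        intro x hx
        obtain ⟨x', hx', h1, _⟩ := succ x hx
        have h3 := ih x' hx'
        rw [h1, map_add, map_smul, hQ.1 _ (hpow (k + 1)) z hz, smul_zero, add_zero, hσs] at h3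
        rw [pow_succ', LinearEquiv.mul_apply]
        exact h3
    have hUP : ∀ u ∈ U, ∀ x ∈ P, T0 u x.1 = 0 := by
      intro u hu x hx
      rw [← hUσ] at hu
      obtain ⟨v, hv, rfl⟩ := Submodule.mem_map.mp hu
      rw [hU] at hv
      change T0 (σ v) x.1 = 0
      induction hv using Submodule.span_induction with
      | mem w hw =>
        obtain ⟨k, rfl⟩ := hw
        have := claim k x hx
        rw [pow_succ', LinearEquiv.mul_apply] at this
        exact this
      | zero => simp
      | add v w _ _ hv hw =>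
        rw [map_add, map_add, LinearMap.add_apply, hv (Submodule.mem_map_of_mem (by assumption)),
          hw (Submodule.mem_map_of_mem (by assumption)), add_zero]
      | smul c v _ hv =>
        rw [map_smul, map_smul, LinearMap.smul_apply, hv (Submodule.mem_map_of_mem (by assumption)),
          smul_zero]
    have hUs : ∀ u ∈ U, σ.symm u ∈ U := by
      intro u hu
      rw [← hUσ] at hu
      obtain ⟨v, hv, rfl⟩ := Submodule.mem_map.mp hu
      simpa using hv
    have hPU : ∀ u ∈ U, ∀ x ∈ P, T0 x.1 u = 0 := by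
      intro u hu x hx
      have := hUP _ (hUs u hu) x hx
      rw [← hσ, σ.apply_symm_apply] at this
      exact this
    have haP : ∀ x ∈ P, a x.1 = 0 := by
      intro x hx
      rw [← hza]
      exact hUP z hzU x hx
    have hPP : ∀ x ∈ P, ∀ y ∈ P, T0 x.1 y.1 = 0 := by
      intro x hx y hy
      have := hP.1 x hx y hy
      rw [ext_apply, fn_apply, haP x hx] at this
      simpa using this
    refine ⟨?_, P.map (LinearMap.fst K L K) ⊔ U, ⟨?_, ?_⟩, ?_⟩
    · intro φ hφ
      obtain ⟨x, hx, rfl⟩ := hb φ hφ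
      simp [haP x hx]
    · intro x hx y hy
      obtain ⟨x1, hx1, x2, hx2, rfl⟩ := Submodule.mem_sup.mp hx
      obtain ⟨y1, hy1, y2, hy2, rfl⟩ := Submodule.mem_sup.mp hy
      obtain ⟨x3, hx3, rfl⟩ := Submodule.mem_map.mp hx1
      obtain ⟨y3, hy3, rfl⟩ := Submodule.mem_map.mp hy1
      simp only [map_add, LinearMap.add_apply, LinearMap.fst_apply]
      rw [hPP x3 hx3 y3 hy3, hPU y2 hy2 x3 hx3, hUP x2 hx2 y3 hy3,
        hQ.1 _ (hUQ hx2) _ (hUQ hy2)]
      simp
    · intro y hy
      obtain ⟨y1, hy1, y2, hy2, rfl⟩ := Submodule.mem_sup.mp hy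
      obtain ⟨y3, hy3, rfl⟩ := Submodule.mem_map.mp hy1
      refine ⟨σ.symm y3.1 + σ.symm y2, ?_, ?_⟩
      · obtain ⟨x', hx', h1, _⟩ := succ y3 hy3
        have : σ.symm y3.1 = LinearMap.fst K L K x' - y3.2 • z := by
          rw [LinearMap.fst_apply, h1]; abel
        rw [this]
        exact Submodule.add_mem _ (Submodule.sub_mem _
          (Submodule.mem_sup_left (Submodule.mem_map_of_mem hx'))
          (Submodule.mem_sup_right (Submodule.smul_mem _ _ hzU)))
          (Submodule.mem_sup_right (hUs y2 hy2))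
      · ext w
        have h2 : ∀ v, T0 (σ.symm v) w = T0 w v := by
          intro v; rw [← hσ, σ.apply_symm_apply]
        simp [h2]
    · intro b hbS
      rw [Set.mem_insert_iff] at hbS
      rcases hbS with rfl | ⟨φ, hφ, rfl⟩
      · exact ⟨z, Submodule.mem_sup_right hzU, hza⟩
      · obtain ⟨x, hx, rfl⟩ := hb φ hφ
        refine ⟨x.1, Submodule.mem_sup_left
          (Submodule.mem_map_of_mem (f := LinearMap.fst K L K) hx), ?_⟩
        ext w
        simp
  · rintro ⟨h1, P, hP, hb⟩
    obtain ⟨z, hz, hza⟩ := hb a (Set.mem_insert _ _)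
    refine ⟨_, adm_inl hP hz hza, ?_⟩
    intro φ hφ
    obtain ⟨x, hx, hxφ⟩ := hb _ (Set.mem_insert_of_mem _ ⟨φ, hφ, rfl⟩)
    refine ⟨LinearMap.inl K L K x, Submodule.mem_map_of_mem hx, ?_⟩
    apply LinearMap.ext
    intro y
    have hy : φ y = φ (y.1, 0) + y.2 * φ (0, 1) := by
      have : y = (y.1, 0) + y.2 • ((0 : L), (1 : K)) := by ext <;> simp
      conv_lhs => rw [this]
      rw [map_add, map_smul, smul_eq_mul]
    rw [LinearMap.inl_apply, ext_inl hP hz hza hx, hxφ, hy, h1 φ hφ]
    simp

end Pool.Agent.H376.Singer
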