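import Mathlib
import Pool.Agent.H376.Singer.Star

/-!
Reduction of a degenerate bilinear space, and the counting function `cnt`.
-/

namespace Pool.Agent.H376.Singer

open Module

variable {K : Type*} [Field K] {X : Type*} [AddCommGroup X] [Module K X]

/-- the number of `j`-tuples of functionals which are jointly available -/
noncomputable def cnt (j : ℕ) (T : X →ₗ[K] X →ₗ[K] K) : ℕ :=
  Nat.card {B : Fin j → Dual K X // Cov T (Set.range B)}

theorem cnt_zero (T : X →ₗ[K] X →ₗ[K] K) : cnt 0 T = 1 := by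
  unfold cnt
  rw [Nat.card_eq_one_iff_unique]
  constructor
  · constructor
    rintro ⟨a, _⟩ ⟨b, _⟩
    apply Subtype.ext
    exact Subsingleton.elim _ _
  · refine ⟨⟨Fin.elim0, ?_⟩⟩
    rw [Set.range_eq_empty]
    exact cov_empty T

/-- restriction of a bilinear form to a subspace -/
def res (T : X →ₗ[K] X →ₗ[K] K) (Y : Submodule K X) : Y →ₗ[K] Y →ₗ[K] K :=
  T.domRestrict₁₂ Y Y

@[simp] theorem res_apply (T : X →ₗ[K] X →ₗ[K] K) (Y : Submodule K X) (x y : Y) :
    res T Y x y = T x y := rfl

section case1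

variable {T : X →ₗ[K] X →ₗ[K] K} {r f : X}

/-- the reduced subspace -/
def redY (T : X →ₗ[K] X →ₗ[K] K) (r f : X) : Submodule K X :=
  LinearMap.ker (T r) ⊓ LinearMap.ker (T.flip f)

theorem mem_redY {x : X} : x ∈ redY T r f ↔ T r x = 0 ∧ T x f = 0 := by
  simp [redY]

variable (hr : ∀ x, T x r = 0) (hf : T r f = 1)

include hr hf in
theorem proj_mem (x : X) : x - (T x f - T r x * T f f) • r - (T r x) • f ∈ redY T r f := by
  rw [mem_redY]
  simp only [map_sub, map_smul, LinearMap.sub_apply, LinearMap.smul_apply, smul_eq_mul, hr r, hf]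
  constructor <;> ring

/-- the projection to the reduced subspace -/
def proj (hr : ∀ x, T x r = 0) (hf : T r f = 1) : X →ₗ[K] redY T r f :=
  LinearMap.codRestrict _
    (LinearMap.id - ((T.flip f - (T f f) • T r).smulRight r) - ((T r).smulRight f))
    (by
      intro x
      have := proj_mem hr hf x
      simpa [mul_comm] using this)

theorem proj_apply (x : X) :
    (proj hr hf x : X) = x - (T x f - T r x * T f f) • r - (T r x) • f := by
  simp [proj, mul_comm]

theorem proj_of_mem (x : redY T r f) : proj hr hf (x : X) = x := by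
  apply Subtype.ext
  rw [proj_apply]
  have := mem_redY.mp x.2
  rw [this.1, this.2]
  simp

include hr in
theorem adm_sup_r {P : Submodule K X} (hP : Adm T P) : Adm T (P ⊔ Submodule.span K {r}) := by
  apply hP.sup
  intro s hs
  obtain ⟨c, rfl⟩ := Submodule.mem_span_singleton.mp hs
  refine ⟨0, Submodule.zero_mem _, ?_⟩
  ext x
  simp [hr]

/-- descent of admissible subspaces -/
theorem adm_down {P : Submodule K X} (hP : Adm T P) (hrP : r ∈ P) (hr : ∀ x, T x r = 0)
    (hf : T r f = 1) : Adm (res T (redY T r f)) (P.comap (redY T r f).subtype) ∧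
      ∀ x ∈ P, x - (T x f) • r ∈ P ∧ x - (T x f) • r ∈ redY T r f := by
  have h1 : ∀ x ∈ P, x - (T x f) • r ∈ P ∧ x - (T x f) • r ∈ redY T r f := by
    intro x hx
    refine ⟨Submodule.sub_mem _ hx (Submodule.smul_mem _ _ hrP), ?_⟩
    rw [mem_redY]
    simp only [map_sub, map_smul, LinearMap.sub_apply, LinearMap.smul_apply, smul_eq_mul, hr r, hf,
      hP.1 r hrP x hx]
    constructor <;> ring
  refine ⟨⟨?_, ?_⟩, h1⟩
  · intro x hx y hy
    exact hP.1 _ hx _ hy
  · intro y hy
    obtain ⟨x, hx, hxy⟩ := hP.2 _ hy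
    refine ⟨⟨x - (T x f) • r, (h1 x hx).2⟩, (h1 x hx).1, ?_⟩
    ext w
    have h2 := LinearMap.congr_fun hxy (w : X)
    rw [LinearMap.flip_apply] at h2
    have h3 := mem_redY.mp w.2
    simp only [res_apply, LinearMap.flip_apply, map_sub, map_smul, LinearMap.sub_apply,
      LinearMap.smul_apply, h3.1, smul_zero, sub_zero]
    exact h2

include hr hf in
/-- ascent of admissible subspaces -/
theorem adm_up {Q : Submodule K (redY T r f)} (hQ : Adm (res T (redY T r f)) Q) :
    Adm T (Q.map (redY T r f).subtype ⊔ Submodule.span K {r}) := by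
  constructor
  · intro x hx y hy
    obtain ⟨x1, hx1, x2, hx2, rfl⟩ := Submodule.mem_sup.mp hx
    obtain ⟨y1, hy1, y2, hy2, rfl⟩ := Submodule.mem_sup.mp hy
    obtain ⟨x3, hx3, rfl⟩ := Submodule.mem_map.mp hx1
    obtain ⟨y3, hy3, rfl⟩ := Submodule.mem_map.mp hy1
    obtain ⟨c, rfl⟩ := Submodule.mem_span_singleton.mp hx2
    obtain ⟨d, rfl⟩ := Submodule.mem_span_singleton.mp hy2
    have h1 : T x3 y3 = 0 := hQ.1 x3 hx3 y3 hy3
    have h2 := (mem_redY.mp y3.2).1
    simp [h1, hr, h2]
  · intro y hy
    obtain ⟨y1, hy1, y2, hy2, rfl⟩ := Submodule.mem_sup.mp hy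
    obtain ⟨y3, hy3, rfl⟩ := Submodule.mem_map.mp hy1
    obtain ⟨d, rfl⟩ := Submodule.mem_span_singleton.mp hy2
    obtain ⟨x, hx, hxy⟩ := hQ.2 y3 hy3
    refine ⟨(x : X) + (T f y3) • r, Submodule.add_mem _
      (Submodule.mem_sup_left (Submodule.mem_map_of_mem (f := (redY T r f).subtype) hx))
      (Submodule.mem_sup_right (Submodule.mem_span_singleton.mpr ⟨_, rfl⟩)), ?_⟩
    ext w
    have h2 := LinearMap.congr_fun hxy (proj hr hf w)
    rw [LinearMap.flip_apply, res_apply, res_apply, proj_apply] at h2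
    have h3 := (mem_redY.mp x.2)
    have h4 := (mem_redY.mp y3.2)
    simp only [map_sub, map_smul, LinearMap.sub_apply, LinearMap.smul_apply, smul_eq_mul, hr,
      h3.2, h4.1, mul_zero, sub_zero] at h2
    simp only [map_add, map_smul, LinearMap.add_apply, LinearMap.smul_apply, smul_eq_mul,
      LinearMap.flip_apply, hr, mul_zero, add_zero, Submodule.coe_subtype]
    rw [h2]
    ring

include hr hf in
theorem cov_red1 (S : Set (Dual K X)) : Cov T S ↔ (∀ φ ∈ S, φ r = 0) ∧
    Cov (res T (redY T r f)) ((fun φ : Dual K X => φ.domRestrict (redY T r f)) '' S) := by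
  constructor
  · rintro ⟨P, hP, hb⟩
    have hP' := adm_sup_r hr hP
    have hrP' : r ∈ P ⊔ Submodule.span K {r} :=
      Submodule.mem_sup_right (Submodule.mem_span_singleton_self _)
    have hd := adm_down hP' hrP' hr hf
    refine ⟨?_, _, hd.1, ?_⟩
    · intro φ hφ
      obtain ⟨x, _, rfl⟩ := hb φ hφ
      exact hr x
    · rintro _ ⟨φ, hφ, rfl⟩
      obtain ⟨x, hx, rfl⟩ := hb φ hφ
      have h1 := hd.2 x (Submodule.mem_sup_left hx)
      refine ⟨⟨x - (T x f) • r, h1.2⟩, h1.1, ?_⟩
      ext w
      have h3 := mem_redY.mp w.2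
      simp [h3.1]
  · rintro ⟨h1, Q, hQ, hb⟩
    refine ⟨_, adm_up hr hf hQ, ?_⟩
    intro φ hφ
    obtain ⟨x, hx, hxφ⟩ := hb _ ⟨φ, hφ, rfl⟩
    refine ⟨(x : X) + (φ f) • r, Submodule.add_mem _
      (Submodule.mem_sup_left (Submodule.mem_map_of_mem (f := (redY T r f).subtype) hx))
      (Submodule.mem_sup_right (Submodule.mem_span_singleton.mpr ⟨_, rfl⟩)), ?_⟩
    ext w
    have h2 := LinearMap.congr_fun hxφ (proj hr hf w)
    rw [res_apply, LinearMap.domRestrict_apply, proj_apply] at h2
    have h3 := (mem_redY.mp x.2)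
    simp only [map_sub, map_smul, smul_eq_mul, hr, h3.2, mul_zero, sub_zero, h1 φ hφ] at h2
    simp only [map_add, map_smul, LinearMap.add_apply, LinearMap.smul_apply, smul_eq_mul]
    rw [h2]
    ring

include hr hf in
theorem odd_red1 : Odd T ↔ Odd (res T (redY T r f)) := by
  constructor
  · rintro ⟨P, hP, l, hl, hl0, hTl⟩
    have hP' := adm_sup_r hr hP
    have hrP' : r ∈ P ⊔ Submodule.span K {r} :=
      Submodule.mem_sup_right (Submodule.mem_span_singleton_self _)
    have hd := adm_down hP' hrP' hr hf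
    have h1 := hd.2 l (Submodule.mem_sup_left hl)
    have h2 : l - (T l f) • r = l := by rw [hTl]; simp
    rw [h2] at h1
    refine ⟨_, hd.1, ⟨l, h1.2⟩, h1.1, ?_, ?_⟩
    · intro h
      exact hl0 (congrArg Subtype.val h)
    · ext w
      simp [hTl]
  · rintro ⟨Q, hQ, l, hl, hl0, hTl⟩
    refine ⟨_, adm_up hr hf hQ, (l : X),
      Submodule.mem_sup_left (Submodule.mem_map_of_mem (f := (redY T r f).subtype) hl), ?_, ?_⟩
    · intro h
      exact hl0 (Subtype.ext h)
    · ext w
      have h2 := LinearMap.congr_fun hTl (proj hr hf w)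
      rw [res_apply, proj_apply] at h2
      have h3 := (mem_redY.mp l.2)
      simp only [map_sub, map_smul, smul_eq_mul, hr, h3.2, mul_zero, sub_zero,
        LinearMap.zero_apply] at h2
      simpa using h2

/-- the right radical is at most one-dimensional -/
def Cork (T : X →ₗ[K] X →ₗ[K] K) : Prop := ∃ r, ∀ x, T.flip x = 0 → ∃ c : K, x = c • r

include hr hf in
theorem cork_red1 (h : Cork T) : Cork (res T (redY T r f)) := by
  obtain ⟨r', hr'⟩ := h
  -- an element of the reduced space killed by everything vanishes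
  have key : ∀ x : redY T r f, (res T (redY T r f)).flip x = 0 → T f x = 0 → x = 0 := by
    intro x hx hfx
    have h1 : T.flip (x : X) = 0 := by
      ext w
      have h2 := LinearMap.congr_fun hx (proj hr hf w)
      rw [LinearMap.flip_apply, res_apply, proj_apply] at h2
      have h3 := (mem_redY.mp x.2)
      simp only [map_sub, map_smul, LinearMap.sub_apply, LinearMap.smul_apply, smul_eq_mul,
        h3.1, hfx, mul_zero, sub_zero, LinearMap.zero_apply] at h2
      simpa using h2
    obtain ⟨c, hc⟩ := hr' _ h1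
    have h4 : T.flip r = 0 := by ext w; simp [hr]
    obtain ⟨d, hd⟩ := hr' _ h4
    have hr0 : r ≠ 0 := by
      intro h; rw [h] at hf; simp at hf
    have hd0 : d ≠ 0 := by
      intro h; rw [h, zero_smul] at hd; exact hr0 hd
    have h5 : (x : X) = (c / d) • r := by
      rw [hc, hd, smul_smul]; congr 1; field_simp
    have h6 : T (x : X) f = 0 := (mem_redY.mp x.2).2
    rw [h5, map_smul, LinearMap.smul_apply, hf, smul_eq_mul, mul_one] at h6
    apply Subtype.ext
    rw [h5, h6]; simp
  by_cases hall : ∀ x : redY T r f, (res T (redY T r f)).flip x = 0 → T f x = 0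
  · exact ⟨0, fun x hx => ⟨0, by rw [key x hx (hall x hx)]; simp⟩⟩
  · push Not at hall
    obtain ⟨x0, hx0, hfx0⟩ := hall
    refine ⟨x0, fun x hx => ⟨T f x / T f x0, ?_⟩⟩
    have h1 : (res T (redY T r f)).flip (x - (T f x / T f x0) • x0) = 0 := by
      rw [map_sub, map_smul, hx, hx0]; simp
    have h2 : T f (x - (T f x / T f x0) • x0 : redY T r f) = 0 := by
      simp only [Submodule.coe_sub, Submodule.coe_smul, map_sub, map_smul, smul_eq_mul]
      field_simp
      ring
    exact sub_eq_zero.mp (key _ h1 h2)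

/-- the equivalence behind the count -/
noncomputable def cntEquiv1 (hr : ∀ x, T x r = 0) (hf : T r f = 1) (j : ℕ) :
    {B : Fin j → Dual K X // Cov T (Set.range B)} ≃
      {B : Fin j → Dual K (redY T r f) // Cov (res T (redY T r f)) (Set.range B)} ×
        (Fin j → K) where
  toFun B := (⟨fun i => (B.1 i).domRestrict (redY T r f), by
      have := ((cov_red1 hr hf _).mp B.2).2
      rw [← Set.range_comp] at this
      exact this⟩, fun i => B.1 i f)
  invFun C := ⟨fun i => (C.1.1 i).comp (proj hr hf) + C.2 i • T r, by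
      rw [cov_red1 hr hf]
      constructor
      · rintro _ ⟨i, rfl⟩
        have : proj hr hf r = 0 := by
          apply Subtype.ext
          rw [proj_apply, hf, hr]; simp
        simp [this, hr]
      · have := C.1.2
        rw [← Set.range_comp]
        convert this using 2
        ext i w
        have h3 := mem_redY.mp w.2
        simp [proj_of_mem, h3.1]⟩
  left_inv B := by
    apply Subtype.ext
    ext i w
    have h1 := ((cov_red1 hr hf _).mp B.2).1 (B.1 i) ⟨i, rfl⟩
    simp only [LinearMap.add_apply, LinearMap.comp_apply, LinearMap.domRestrict_apply,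
      LinearMap.smul_apply, smul_eq_mul, proj_apply, map_sub, map_smul, h1]
    ring
  right_inv C := by
    have hpf : proj hr hf f = 0 := by
      apply Subtype.ext
      rw [proj_apply, hf]; simp
    apply Prod.ext
    · apply Subtype.ext
      ext i w
      have h3 := mem_redY.mp w.2
      simp [proj_of_mem, h3.1]
    · ext i
      simp [hpf, hf]

theorem cnt_red1 [Finite K] [FiniteDimensional K X] (hr : ∀ x, T x r = 0) (hf : T r f = 1)
    (j : ℕ) : cnt j T = cnt j (res T (redY T r f)) * Nat.card K ^ j := by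
  unfold cnt
  rw [Nat.card_congr (cntEquiv1 hr hf j), Nat.card_prod, Nat.card_fun, Nat.card_fin]

end case1

section case2

variable {T : X →ₗ[K] X →ₗ[K] K} {r : X} {g : Dual K X}

variable (hr : ∀ x, T x r = 0) (hl : T r = 0) (hg : g r = 1)

/-- projection along `r` to the kernel of `g` -/
def proj2 (hg : g r = 1) : X →ₗ[K] LinearMap.ker g :=
  LinearMap.codRestrict _ (LinearMap.id - g.smulRight r) (by intro x; simp [hg])

theorem proj2_apply (x : X) : (proj2 hg x : X) = x - g x • r := by
  change (LinearMap.id - g.smulRight r : X →ₗ[K] X) x = _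
  simp

theorem proj2_of_mem (x : LinearMap.ker g) : proj2 hg (x : X) = x := by
  apply Subtype.ext
  rw [proj2_apply, LinearMap.mem_ker.mp x.2]; simp

include hr hl in
theorem odd_case2 (hr0 : r ≠ 0) : Odd T := by
  refine ⟨Submodule.span K {r}, ⟨?_, ?_⟩, r, Submodule.mem_span_singleton_self _, hr0, hl⟩
  · intro x hx y hy
    obtain ⟨d, rfl⟩ := Submodule.mem_span_singleton.mp hy
    simp [hr]
  · intro y hy
    obtain ⟨d, rfl⟩ := Submodule.mem_span_singleton.mp hy
    refine ⟨0, Submodule.zero_mem _, ?_⟩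
    ext w; simp [hr]

include hr hl hg in
theorem cov_red2 (S : Set (Dual K X)) : Cov T S ↔ (∀ φ ∈ S, φ r = 0) ∧
    Cov (res T (LinearMap.ker g)) ((fun φ : Dual K X => φ.domRestrict (LinearMap.ker g)) '' S) := by
  constructor
  · rintro ⟨P, hP, hb⟩
    have hP' := adm_sup_r hr hP
    set P' := P ⊔ Submodule.span K {r} with hP'def
    have hrP' : r ∈ P' :=
      Submodule.mem_sup_right (Submodule.mem_span_singleton_self _)
    have hsub : ∀ x ∈ P', x - g x • r ∈ P' ∧ x - g x • r ∈ LinearMap.ker g := by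
      intro x hx
      refine ⟨Submodule.sub_mem _ hx (Submodule.smul_mem _ _ hrP'), ?_⟩
      rw [LinearMap.mem_ker]; simp [hg]
    refine ⟨?_, P'.comap (LinearMap.ker g).subtype, ⟨?_, ?_⟩, ?_⟩
    · intro φ hφ
      obtain ⟨x, _, rfl⟩ := hb φ hφ
      exact hr x
    · intro x hx y hy
      exact hP'.1 _ hx _ hy
    · intro y hy
      obtain ⟨x, hx, hxy⟩ := hP'.2 _ hy
      refine ⟨⟨x - g x • r, (hsub x hx).2⟩, (hsub x hx).1, ?_⟩
      ext w
      have h2 := LinearMap.congr_fun hxy (w : X)
      rw [LinearMap.flip_apply] at h2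
      simp only [res_apply, LinearMap.flip_apply, map_sub, map_smul, hl, smul_zero, sub_zero]
      exact h2
    · rintro _ ⟨φ, hφ, rfl⟩
      obtain ⟨x, hx, rfl⟩ := hb φ hφ
      have h1 := hsub x (Submodule.mem_sup_left hx)
      refine ⟨⟨x - g x • r, h1.2⟩, h1.1, ?_⟩
      ext w
      simp [hl]
  · rintro ⟨h1, Q, hQ, hb⟩
    refine ⟨Q.map (LinearMap.ker g).subtype, ⟨?_, ?_⟩, ?_⟩
    · intro x hx y hy
      obtain ⟨x3, hx3, rfl⟩ := Submodule.mem_map.mp hx
      obtain ⟨y3, hy3, rfl⟩ := Submodule.mem_map.mp hy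
      exact hQ.1 x3 hx3 y3 hy3
    · intro y hy
      obtain ⟨y3, hy3, rfl⟩ := Submodule.mem_map.mp hy
      obtain ⟨x, hx, hxy⟩ := hQ.2 y3 hy3
      refine ⟨x, Submodule.mem_map_of_mem (f := (LinearMap.ker g).subtype) hx, ?_⟩
      ext w
      have h2 := LinearMap.congr_fun hxy (proj2 hg w)
      rw [LinearMap.flip_apply, res_apply, res_apply, proj2_apply] at h2
      simpa [hr, hl] using h2
    · intro φ hφ
      obtain ⟨x, hx, hxφ⟩ := hb _ ⟨φ, hφ, rfl⟩
      refine ⟨x, Submodule.mem_map_of_mem (f := (LinearMap.ker g).subtype) hx, ?_⟩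
      ext w
      have h2 := LinearMap.congr_fun hxφ (proj2 hg w)
      rw [res_apply, LinearMap.domRestrict_apply, proj2_apply] at h2
      simpa [hr, hl, h1 φ hφ] using h2

/-- the equivalence behind the count -/
noncomputable def cntEquiv2 (hr : ∀ x, T x r = 0) (hl : T r = 0) (hg : g r = 1) (j : ℕ) :
    {B : Fin j → Dual K X // Cov T (Set.range B)} ≃
      {B : Fin j → Dual K (LinearMap.ker g) // Cov (res T (LinearMap.ker g)) (Set.range B)} where
  toFun B := ⟨fun i => (B.1 i).domRestrict (LinearMap.ker g), by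
      have := ((cov_red2 hr hl hg _).mp B.2).2
      rw [← Set.range_comp] at this
      exact this⟩
  invFun C := ⟨fun i => (C.1 i).comp (proj2 hg), by
      rw [cov_red2 hr hl hg]
      constructor
      · rintro _ ⟨i, rfl⟩
        have : proj2 hg r = 0 := by
          apply Subtype.ext
          rw [proj2_apply, hg]; simp
        simp [this]
      · have := C.2
        rw [← Set.range_comp]
        convert this using 2
        ext i w
        simp [proj2_of_mem]⟩
  left_inv B := by
    apply Subtype.ext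
    ext i w
    have h1 := ((cov_red2 hr hl hg _).mp B.2).1 (B.1 i) ⟨i, rfl⟩
    simp only [LinearMap.comp_apply, LinearMap.domRestrict_apply, proj2_apply, map_sub, map_smul,
      h1]
    simp
  right_inv C := by
    apply Subtype.ext
    ext i w
    simp [proj2_of_mem]

theorem cnt_red2 (hr : ∀ x, T x r = 0) (hl : T r = 0) (hg : g r = 1) (j : ℕ) :
    cnt j T = cnt j (res T (LinearMap.ker g)) := by
  unfold cnt
  rw [Nat.card_congr (cntEquiv2 hr hl hg j)]

end case2

end Pool.Agent.H376.Singer
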