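import Mathlib
import Pool.Agent.H376.Singer.Red

/-!
The two summation identities for the counting function.
-/

namespace Pool.Agent.H376.Singer

open Module Finset

variable {K : Type*} [Field K] {L : Type*} [AddCommGroup L] [Module K L]

theorem sum_cnt_ext (T0 : L →ₗ[K] L →ₗ[K] K) (h0 : ∀ x, T0 x = 0 → x = 0)
    [FiniteDimensional K L] [Finite K] [Fintype (Dual K L)] (j : ℕ) (t t' : K) :
    ∑ a : Dual K L, cnt j (ext T0 (fn a t)) = ∑ a : Dual K L, cnt j (ext T0 (fn a t')) := by
  classical
  have hfin : Finite (Dual K (L × K)) := Module.finite_of_finite K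
  haveI : Fintype (Dual K (L × K)) := Fintype.ofFinite _
  have key : ∀ s : K, ∑ a : Dual K L, cnt j (ext T0 (fn a s)) =
      ∑ B : Fin j → Dual K (L × K),
        {a : Dual K L | Cov (ext T0 (fn a s)) (Set.range B)}.ncard := by
    intro s
    have h1 : ∀ a : Dual K L, cnt j (ext T0 (fn a s)) =
        ∑ B : Fin j → Dual K (L × K), if Cov (ext T0 (fn a s)) (Set.range B) then 1 else 0 := by
      intro a
      unfold cnt
      rw [Nat.card_eq_fintype_card, Fintype.card_subtype, card_filter]
    have h2 : ∀ B : Fin j → Dual K (L × K),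
        {a : Dual K L | Cov (ext T0 (fn a s)) (Set.range B)}.ncard =
        ∑ a : Dual K L, if Cov (ext T0 (fn a s)) (Set.range B) then 1 else 0 := by
      intro B
      rw [Set.ncard_eq_toFinset_card', Set.toFinset_setOf, card_filter]
    simp only [h1, h2]
    rw [sum_comm]
  rw [key t, key t']
  apply sum_congr rfl
  intro B _
  exact ncard_cov T0 h0 t t' _

/-- tuples on `L × K` versus tuples on `L` -/
noncomputable def extEquiv [FiniteDimensional K L] {T0 : L →ₗ[K] L →ₗ[K] K}
    (h0 : ∀ x, T0 x = 0 → x = 0) {a : Dual K L} (ha : Cov T0 {a}) (j : ℕ) :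
    {B : Fin j → Dual K (L × K) // Cov (ext T0 (fn a 0)) (Set.range B)} ≃
      {B : Fin j → Dual K L // Cov T0 (insert a (Set.range B))} where
  toFun B := ⟨fun i => (B.1 i).comp (LinearMap.inl K L K), by
    have := ((cov_ext_iff h0 ha _).mp B.2).2
    rw [← Set.range_comp] at this
    exact this⟩
  invFun C := ⟨fun i => (C.1 i).comp (LinearMap.fst K L K), by
    rw [cov_ext_iff h0 ha]
    constructor
    · rintro _ ⟨i, rfl⟩
      simp
    · have := C.2
      rw [← Set.range_comp]
      exact this⟩
  left_inv B := by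
    apply Subtype.ext
    funext i
    apply LinearMap.ext
    intro y
    have h1 := ((cov_ext_iff h0 ha _).mp B.2).1 (B.1 i) ⟨i, rfl⟩
    have hy : (B.1 i) y = (B.1 i) (y.1, 0) + y.2 * (B.1 i) (0, 1) := by
      have : y = (y.1, 0) + y.2 • ((0 : L), (1 : K)) := by ext <;> simp
      conv_lhs => rw [this]
      rw [map_add, map_smul, smul_eq_mul]
    rw [hy, h1]
    simp
  right_inv C := by
    apply Subtype.ext
    ext i w
    simp

open Classical in
theorem sum_cnt_succ (T0 : L →ₗ[K] L →ₗ[K] K) (h0 : ∀ x, T0 x = 0 → x = 0)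
    [FiniteDimensional K L] [Finite K] [Fintype (Dual K L)] (j : ℕ) :
    ∑ a : Dual K L, (if Cov T0 {a} then cnt j (ext T0 (fn a 0)) else 0) = cnt (j + 1) T0 := by
  have e : {B : Fin (j + 1) → Dual K L // Cov T0 (Set.range B)} ≃
      Σ a : Dual K L, {B : Fin j → Dual K L // Cov T0 (insert a (Set.range B))} :=
    { toFun := fun B => ⟨B.1 0, fun i => B.1 i.succ, by
        have h := B.2
        have : Set.range B.1 = insert (B.1 0) (Set.range fun i : Fin j => B.1 i.succ) := by
          rw [← Fin.range_cons]
          congr 1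
          exact (Fin.cons_self_tail B.1).symm
        rw [this] at h
        exact h⟩
      invFun := fun C => ⟨Fin.cons C.1 C.2.1, by
        rw [Fin.range_cons]; exact C.2.2⟩
      left_inv := by
        intro B
        apply Subtype.ext
        exact Fin.cons_self_tail B.1
      right_inv := by
        intro C
        rfl }
  unfold cnt
  rw [Nat.card_congr e, Nat.card_sigma]
  apply sum_congr rfl
  intro a _
  by_cases ha : Cov T0 {a}
  · rw [if_pos ha, Nat.card_congr (extEquiv h0 ha j)]
  · rw [if_neg ha]
    symm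
    rw [Nat.card_eq_zero]
    left
    constructor
    rintro ⟨B, hB⟩
    exact ha (hB.mono (by simp))

end Pool.Agent.H376.Singer
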