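import Mathlib
import Pool.Agent.H376.Singer.Sums

/-!
Gauss sums attached to a pair of bilinear forms.
-/

namespace Pool.Agent.H376.Singer

set_option linter.all false

open Module Finset
open scoped Classical

variable {K : Type*} [Field K] [Fintype K] {V : Type*} [AddCommGroup V] [Module K V] [Fintype V]

/-- the cardinality of a subspace, as a complex number -/
noncomputable def nrm (U : Submodule K V) : ℂ := (Fintype.card K : ℂ) ^ finrank K U

theorem card_ne : (Fintype.card K : ℂ) ≠ 0 := by
  have : Fintype.card K ≠ 0 := Fintype.card_ne_zero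
  exact_mod_cast this

omit [Fintype V] in
theorem nrm_ne (U : Submodule K V) : nrm U ≠ 0 := pow_ne_zero _ card_ne

theorem sum_mem_one (U : Submodule K V) : ∑ v : V, (if v ∈ U then (1 : ℂ) else 0) = nrm U := by
  rw [← sum_filter, sum_const, nsmul_eq_mul, mul_one, nrm]
  have h : Fintype.card U = Fintype.card K ^ finrank K U := Module.card_eq_pow_finrank
  rw [Fintype.card_subtype] at h
  rw [h]
  push_cast
  rfl

theorem exists_ne_one {ψ : AddChar K ℂ} (hψ : ψ ≠ 1) {c : K} (hc : c ≠ 0) :
    ∃ d : K, ψ (d * c) ≠ 1 := by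
  by_contra h
  push Not at h
  apply hψ
  ext x
  have := h (x / c)
  rw [div_mul_cancel₀ _ hc] at this
  rw [this]; simp

theorem sum_psi_lin {ψ : AddChar K ℂ} (hψ : ψ ≠ 1) (U : Submodule K V) (φ : V →ₗ[K] K) :
    ∑ v : V, (if v ∈ U then ψ (φ v) else 0) = if (∀ v ∈ U, φ v = 0) then nrm U else 0 := by
  split_ifs with h
  · rw [← sum_mem_one]
    apply sum_congr rfl
    intro v _
    split_ifs with hv
    · rw [h v hv, AddChar.map_zero_eq_one]
    · rfl
  · push Not at h
    obtain ⟨u, hu, hφ⟩ := h
    obtain ⟨d, hd⟩ := exists_ne_one hψ hφ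
    set S := ∑ v : V, (if v ∈ U then ψ (φ v) else 0) with hS
    have hdu : d • u ∈ U := U.smul_mem _ hu
    have h1 : S = ψ (d * φ u) * S := by
      conv_lhs => rw [hS, ← Equiv.sum_comp (Equiv.addRight (d • u))]
      rw [hS, mul_sum]
      apply sum_congr rfl
      intro v _
      simp only [Equiv.coe_addRight]
      have : v + d • u ∈ U ↔ v ∈ U := by
        constructor
        · intro hh
          have := U.sub_mem hh hdu
          simpa using this
        · intro hh; exact U.add_mem hh hdu
      simp only [this]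
      split_ifs
      · rw [map_add, map_smul, smul_eq_mul, AddChar.map_add_eq_mul]; ring
      · simp
    have h2 : (1 - ψ (d * φ u)) * S = 0 := by rw [sub_mul, one_mul, ← h1, sub_self]
    rcases mul_eq_zero.mp h2 with h | h
    · exact absurd (sub_eq_zero.mp h).symm hd
    · exact h

theorem sum_psi {ψ : AddChar K ℂ} (hψ : ψ ≠ 1) (c : K) :
    ∑ t : K, ψ (t * c) = if c = 0 then (Fintype.card K : ℂ) else 0 := by
  have := AddChar.sum_mulShift (R := K) c (AddChar.IsPrimitive.of_ne_one hψ)
  rw [this]
  split_ifs <;> simp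

section Theta

variable {X : Type*} [AddCommGroup X] [Module K X]
variable {ι κ : Type*} [Fintype ι] [Fintype κ]

/-- the value of the quadratic form `T ⊗ χ` at `∑ b i ⊗ v i` -/
def Theta (b : ι → X) (T : X →ₗ[K] X →ₗ[K] K) (χ : V →ₗ[K] V →ₗ[K] K) (v : ι → V) : K :=
  ∑ i, ∑ j, T (b i) (b j) * χ (v i) (v j)

omit [Fintype K] [Fintype V] in
theorem Theta_change (b : ι → X) (c : κ → X) (p : κ → ι → K) (hp : ∀ k, c k = ∑ i, p k i • b i)
    (T : X →ₗ[K] X →ₗ[K] K) (χ : V →ₗ[K] V →ₗ[K] K) (v : κ → V) :
    Theta b T χ (fun i => ∑ k, p k i • v k) = Theta c T χ v := by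
  unfold Theta
  have h1 : ∀ k l, T (c k) (c l) = ∑ i, ∑ j, p k i * p l j * T (b i) (b j) := by
    intro k l
    rw [hp k, hp l]
    simp only [map_sum, map_smul, LinearMap.sum_apply, LinearMap.smul_apply, smul_eq_mul,
      Finset.mul_sum]
    rw [sum_comm]
    apply sum_congr rfl; intro i _
    apply sum_congr rfl; intro j _
    ring
  have h2 : ∀ i j, χ (∑ k, p k i • v k) (∑ k, p k j • v k) =
      ∑ k, ∑ l, p k i * p l j * χ (v k) (v l) := by
    intro i j
    simp only [map_sum, map_smul, LinearMap.sum_apply, LinearMap.smul_apply, smul_eq_mul,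
      Finset.mul_sum]
    rw [sum_comm]
    apply sum_congr rfl; intro k _
    apply sum_congr rfl; intro l _
    ring
  simp only [h1, h2, sum_mul, mul_sum]
  -- reorder sums
  have e1 : ∀ f : ι → ι → κ → κ → K, (∑ i, ∑ j, ∑ k, ∑ l, f i j k l) =
      ∑ k, ∑ l, ∑ i, ∑ j, f i j k l := by
    intro f
    calc (∑ i, ∑ j, ∑ k, ∑ l, f i j k l) = ∑ i, ∑ k, ∑ j, ∑ l, f i j k l := by
          apply sum_congr rfl; intro i _; rw [sum_comm]
      _ = ∑ k, ∑ i, ∑ j, ∑ l, f i j k l := by rw [sum_comm]
      _ = ∑ k, ∑ i, ∑ l, ∑ j, f i j k l := by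
          apply sum_congr rfl; intro k _; apply sum_congr rfl; intro i _; rw [sum_comm]
      _ = ∑ k, ∑ l, ∑ i, ∑ j, f i j k l := by
          apply sum_congr rfl; intro k _; rw [sum_comm]
  rw [e1]
  apply sum_congr rfl; intro k _
  apply sum_congr rfl; intro l _
  apply sum_congr rfl; intro i _
  apply sum_congr rfl; intro j _
  ring

omit [Field K] [Fintype K] [AddCommGroup V] [Module K V] in
/-- sum over all tuples -/
noncomputable def tsm (F : (ι → V) → ℂ) : ℂ := ∑ v : ι → V, F v

/-- all entries lie in `U` -/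
def tin (U : Submodule K V) (v : ι → V) : Prop := ∀ i, v i ∈ U

variable (ψ : AddChar K ℂ)

/-- the Gauss sum of `T ⊗ χ` over tuples in `U` -/
noncomputable def Gam (b : ι → X) (T : X →ₗ[K] X →ₗ[K] K) (χ : V →ₗ[K] V →ₗ[K] K)
    (U : Submodule K V) : ℂ :=
  tsm fun v : ι → V => if tin U v then ψ (Theta b T χ v) else 0

omit [Fintype K] in
theorem Gam_basis (b : Basis ι K X) (c : Basis κ K X) (T : X →ₗ[K] X →ₗ[K] K)
    (χ : V →ₗ[K] V →ₗ[K] K) (U : Submodule K V) : Gam ψ b T χ U = Gam ψ c T χ U := by
  unfold Gam tsm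
  have hcomp : ∀ (v : κ → V), (fun k => ∑ i, c.repr (b i) k • ∑ l, b.repr (c l) i • v l) = v := by
    intro v
    funext k
    have : ∀ l, ∑ i, c.repr (b i) k * b.repr (c l) i = if l = k then 1 else 0 := by
      intro l
      have h1 : c l = ∑ i, b.repr (c l) i • b i := (b.sum_repr (c l)).symm
      have h2 : c.repr (c l) k = ∑ i, b.repr (c l) i * c.repr (b i) k := by
        conv_lhs => rw [h1]
        simp only [map_sum, map_smul, Finsupp.coe_finsetSum, Finset.sum_apply,
          Finsupp.smul_apply, smul_eq_mul]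
      rw [Basis.repr_self] at h2
      rw [show (∑ i, c.repr (b i) k * b.repr (c l) i) = ∑ i, b.repr (c l) i * c.repr (b i) k from
        sum_congr rfl (fun i _ => mul_comm _ _), ← h2, Finsupp.single_apply]
    calc (∑ i, c.repr (b i) k • ∑ l, b.repr (c l) i • v l)
        = ∑ l, (∑ i, c.repr (b i) k * b.repr (c l) i) • v l := by
          simp only [smul_sum, smul_smul, sum_smul]
          rw [sum_comm]
      _ = v k := by simp [this]
  have hcomp' : ∀ (v : ι → V), (fun i => ∑ k, b.repr (c k) i • ∑ j, c.repr (b j) k • v j) = v := by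
    intro v
    funext k
    have : ∀ l, ∑ i, b.repr (c i) k * c.repr (b l) i = if l = k then 1 else 0 := by
      intro l
      have h1 : b l = ∑ i, c.repr (b l) i • c i := (c.sum_repr (b l)).symm
      have h2 : b.repr (b l) k = ∑ i, c.repr (b l) i * b.repr (c i) k := by
        conv_lhs => rw [h1]
        simp only [map_sum, map_smul, Finsupp.coe_finsetSum, Finset.sum_apply,
          Finsupp.smul_apply, smul_eq_mul]
      rw [Basis.repr_self] at h2
      rw [show (∑ i, b.repr (c i) k * c.repr (b l) i) = ∑ i, c.repr (b l) i * b.repr (c i) k from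
        sum_congr rfl (fun i _ => mul_comm _ _), ← h2, Finsupp.single_apply]
    calc (∑ i, b.repr (c i) k • ∑ l, c.repr (b l) i • v l)
        = ∑ l, (∑ i, b.repr (c i) k * c.repr (b l) i) • v l := by
          simp only [smul_sum, smul_smul, sum_smul]
          rw [sum_comm]
      _ = v k := by simp [this]
  let e : (κ → V) ≃ (ι → V) :=
    { toFun := fun v i => ∑ k, b.repr (c k) i • v k
      invFun := fun v k => ∑ i, c.repr (b i) k • v i
      left_inv := fun v => hcomp v
      right_inv := fun v => hcomp' v }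
  rw [← Equiv.sum_comp e]
  apply sum_congr rfl
  intro v _
  have hmem : tin U (e v) ↔ tin U v := by
    constructor
    · intro h k
      have : v k = ∑ i, c.repr (b i) k • (e v) i := (congrFun (hcomp v) k).symm
      rw [this]
      exact U.sum_mem fun i _ => U.smul_mem _ (h i)
    · intro h i
      exact U.sum_mem fun k _ => U.smul_mem _ (h k)
  have hTh : Theta b T χ (e v) = Theta c T χ v :=
    Theta_change b c (fun k i => b.repr (c k) i) (fun k => (b.sum_repr (c k)).symm) T χ v
  simp only [hmem, hTh]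

end Theta

end Pool.Agent.H376.Singer
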