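import Mathlib
import Pool.Agent.H376.Singer.Gauss

/-!
Evaluation of the normalised Gauss sums on extensions and reductions.
-/

namespace Pool.Agent.H376.Singer

set_option linter.all false

open Module Finset
open scoped Classical

variable {K : Type*} [Field K] [Fintype K] {V : Type*} [AddCommGroup V] [Module K V] [Fintype V]
variable {X : Type*} [AddCommGroup X] [Module K X]
variable {ι κ : Type*} [Fintype ι] [Fintype κ]

theorem sum_univ_congr {α β : Type*} [AddCommMonoid β] (i1 i2 : Fintype α) (F G : α → β)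
    (h : ∀ v, F v = G v) : (@Finset.univ α i1).sum F = (@Finset.univ α i2).sum G := by
  obtain rfl := Subsingleton.elim i1 i2
  exact sum_congr rfl fun v _ => h v

theorem tsm_sumUnit {V : Type*} [Fintype V] (F : (ι ⊕ Unit → V) → ℂ) :
    tsm F = tsm fun v : ι → V => ∑ w : V, F (Sum.elim v (fun _ => w)) := by
  unfold tsm
  rw [← Fintype.sum_prod_type' (fun (v : ι → V) (w : V) => F (Sum.elim v (fun _ => w)))]
  symm
  refine Eq.trans (Fintype.sum_equiv
    ((Equiv.prodCongr (Equiv.refl (ι → V)) (Equiv.funUnique Unit V).symm).trans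
      (Equiv.sumArrowEquivProdArrow ι Unit V).symm)
    (fun p : (ι → V) × V => F (Sum.elim p.1 (fun _ => p.2))) F (by rintro ⟨v, w⟩; rfl))
    (sum_univ_congr _ _ _ _ fun _ => rfl)

theorem tsm_congr {V : Type*} [Fintype V] {F G : (ι → V) → ℂ} (h : ∀ v, F v = G v) :
    tsm F = tsm G := by
  unfold tsm
  exact sum_congr rfl fun v _ => h v

theorem tsm_mul {V : Type*} [Fintype V] (c : ℂ) (F : (ι → V) → ℂ) :
    tsm (fun v => c * F v) = c * tsm F := by
  unfold tsm
  rw [mul_sum]

/-- the normalised Gauss sum -/
noncomputable def gm (ψ : AddChar K ℂ) [FiniteDimensional K X] (T : X →ₗ[K] X →ₗ[K] K)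
    (χ : V →ₗ[K] V →ₗ[K] K) (U : Submodule K V) : ℂ :=
  (nrm U)⁻¹ ^ finrank K X * Gam ψ (finBasis K X) T χ U

theorem gm_eq (ψ : AddChar K ℂ) [FiniteDimensional K X] (b : Basis ι K X)
    (T : X →ₗ[K] X →ₗ[K] K) (χ : V →ₗ[K] V →ₗ[K] K) (U : Submodule K V) :
    gm ψ T χ U = (nrm U)⁻¹ ^ finrank K X * Gam ψ b T χ U := by
  rw [gm, Gam_basis ψ (finBasis K X) b]

theorem gm_of_finrank_zero (ψ : AddChar K ℂ) [FiniteDimensional K X] (T : X →ₗ[K] X →ₗ[K] K)
    (χ : V →ₗ[K] V →ₗ[K] K) (U : Submodule K V) (h : finrank K X = 0) : gm ψ T χ U = 1 := by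
  have hs : Subsingleton X := finrank_zero_iff.mp h
  rw [gm_eq ψ (Basis.empty X : Basis Empty K X), h]
  simp [Gam, Theta, tsm, tin]

section ext

omit [Fintype K] [Fintype V] in
theorem Theta_ext (b : ι → X) (T : X →ₗ[K] X →ₗ[K] K) (a : Dual K X) (t : K)
    (χ : V →ₗ[K] V →ₗ[K] K) (v : ι → V) (w : V) :
    Theta (Sum.elim (fun i => (b i, (0 : K))) (fun _ : Unit => ((0 : X), (1 : K))))
      (ext T (fn a t)) χ (Sum.elim v (fun _ => w)) =
      Theta b T χ v + ∑ i, a (b i) * χ (v i) w + t * χ w w := by
  simp only [Theta, Fintype.sum_sum_type, Sum.elim_inl, Sum.elim_inr, ext_apply, fn_apply,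
    univ_unique, sum_singleton, mul_zero, add_zero, mul_one, map_zero, LinearMap.zero_apply,
    zero_add, zero_mul, sum_const_zero, sum_add_distrib]
  ring

theorem basis_prod_coe (b : Basis ι K X) :
    ((b.prod (Basis.singleton Unit K) : Basis (ι ⊕ Unit) K (X × K)) : ι ⊕ Unit → X × K) =
      Sum.elim (fun i => (b i, (0 : K))) (fun _ : Unit => ((0 : X), (1 : K))) := by
  funext i
  rcases i with i | i <;> simp

theorem gm_ext (ψ : AddChar K ℂ) [FiniteDimensional K X] (b : Basis ι K X)
    (T : X →ₗ[K] X →ₗ[K] K) (a : Dual K X) (t : K) (χ : V →ₗ[K] V →ₗ[K] K)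
    (U : Submodule K V) :
    gm ψ (ext T (fn a t)) χ U = (nrm U)⁻¹ ^ (finrank K X + 1) *
      tsm fun v : ι → V => ∑ w : V, if tin U v ∧ w ∈ U then
        ψ (Theta b T χ v + ∑ i, a (b i) * χ (v i) w + t * χ w w) else 0 := by
  rw [gm_eq ψ (b.prod (Basis.singleton Unit K)), finrank_prod, finrank_self, basis_prod_coe]
  congr 1
  unfold Gam
  rw [tsm_sumUnit]
  apply tsm_congr; intro v
  apply sum_congr rfl; intro w _
  rw [Theta_ext]
  have : tin U (Sum.elim v (fun _ => w) : ι ⊕ Unit → V) ↔ (tin U v ∧ w ∈ U) := by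
    constructor
    · intro h
      exact ⟨fun i => h (Sum.inl i), h (Sum.inr ())⟩
    · rintro ⟨h1, h2⟩ i
      rcases i with i | i
      · exact h1 i
      · exact h2
  simp only [this]

end ext

section red

variable {T : X →ₗ[K] X →ₗ[K] K} {r f : X}

/-- nondegeneracy (on the right) of the restriction to `U` -/
def Good (χ : V →ₗ[K] V →ₗ[K] K) (U : Submodule K V) : Prop :=
  ∀ u ∈ U, (∀ x ∈ U, χ x u = 0) → u = 0

/-- the decomposition `X = Y ⊕ K r ⊕ K f` -/
noncomputable def decomp1 (hr : ∀ x, T x r = 0) (hf : T r f = 1) :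
    ((redY T r f × K) × K) ≃ₗ[K] X where
  toFun := fun p => p.1.1 + p.1.2 • r + p.2 • f
  map_add' := by
    intro p p'
    simp only [Prod.fst_add, Prod.snd_add, Submodule.coe_add, add_smul]
    abel
  map_smul' := by
    intro c p
    simp only [Prod.smul_fst, Prod.smul_snd, Submodule.coe_smul, smul_eq_mul, mul_smul,
      RingHom.id_apply, smul_add]
  invFun := fun x => ((proj hr hf x, T x f - T r x * T f f), T r x)
  left_inv := by
    rintro ⟨⟨y, s⟩, u⟩
    have h := mem_redY.mp y.2
    ext
    · rw [proj_apply]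
      simp only [map_add, map_smul, LinearMap.add_apply, LinearMap.smul_apply, smul_eq_mul, h.1,
        h.2, hr, hf]
      simp
      abel
    · simp only [map_add, map_smul, LinearMap.add_apply, LinearMap.smul_apply, smul_eq_mul, h.1,
        h.2, hr, hf]
      ring
    · simp only [map_add, map_smul, LinearMap.add_apply, LinearMap.smul_apply, smul_eq_mul, h.1,
        h.2, hr, hf]
      ring
  right_inv := by
    intro x
    simp only [proj_apply]
    abel

theorem decomp1_apply (hr : ∀ x, T x r = 0) (hf : T r f = 1) (p : (redY T r f × K) × K) :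
    decomp1 hr hf p = p.1.1 + p.1.2 • r + p.2 • f := rfl

theorem finrank_red1 [FiniteDimensional K X] (hr : ∀ x, T x r = 0) (hf : T r f = 1) :
    finrank K X = finrank K (redY T r f) + 2 := by
  rw [← (decomp1 hr hf).finrank_eq, finrank_prod, finrank_prod, finrank_self]

theorem gm_red1 {ψ : AddChar K ℂ} (hψ : ψ ≠ 1) [FiniteDimensional K X] (hr : ∀ x, T x r = 0)
    (hf : T r f = 1) (χ : V →ₗ[K] V →ₗ[K] K) {U : Submodule K V} (hU : Good χ U) :
    gm ψ T χ U = (nrm U)⁻¹ * gm ψ (res T (redY T r f)) χ U := by
  set c := finBasis K (redY T r f) with hc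
  set B := ((c.prod (Basis.singleton Unit K)).prod (Basis.singleton Unit K)).map (decomp1 hr hf)
    with hB
  have hBc : (B : (Fin (finrank K (redY T r f)) ⊕ Unit) ⊕ Unit → X) =
      Sum.elim (Sum.elim (fun i => (c i : X)) (fun _ => r)) (fun _ => f) := by
    funext i
    rcases i with (i | i) | i <;>
      simp [hB, decomp1_apply]
  have hTh : ∀ (v : Fin (finrank K (redY T r f)) → V) (w z : V),
      Theta B T χ (Sum.elim (Sum.elim v (fun _ => w)) (fun _ => z)) =
        χ w z + (Theta c (res T (redY T r f)) χ v + ∑ i, T f (c i) * χ z (v i)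
          + T f f * χ z z) := by
    intro v w z
    rw [hBc]
    have h1 : ∀ i, T r (c i) = 0 := fun i => (mem_redY.mp (c i).2).1
    have h2 : ∀ i, T (c i) f = 0 := fun i => (mem_redY.mp (c i).2).2
    simp only [Theta, Fintype.sum_sum_type, Sum.elim_inl, Sum.elim_inr, res_apply,
      univ_unique, sum_singleton, h1, h2, hr, hf, zero_mul, add_zero, one_mul,
      zero_add, sum_const_zero]
    ring
  rw [gm_eq ψ B, gm, finrank_red1 hr hf, ← hc]
  unfold Gam
  rw [tsm_sumUnit, tsm_sumUnit]
  have hinner : ∀ z ∈ U, ∑ w : V, (if w ∈ U then ψ (χ w z) else 0) =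
      if z = 0 then nrm U else 0 := by
    intro z hz
    have h1 := sum_psi_lin hψ U (χ.flip z)
    by_cases hz0 : z = 0
    · subst hz0
      rw [if_pos rfl, ← sum_mem_one]
      apply sum_congr rfl
      intro w _
      simp
    · rw [if_neg hz0]
      have hn : ¬ (∀ v ∈ U, (χ.flip z) v = 0) := fun h => hz0 (hU z hz h)
      rw [if_neg hn] at h1
      exact h1
  have hmain : (tsm fun v : Fin (finrank K (redY T r f)) → V => ∑ w : V, ∑ z : V,
      if tin U (Sum.elim (Sum.elim v (fun _ => w)) (fun _ => z) :
        (Fin (finrank K (redY T r f)) ⊕ Unit) ⊕ Unit → V) then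
        ψ (Theta B T χ (Sum.elim (Sum.elim v (fun _ => w)) (fun _ => z))) else 0) =
      nrm U * tsm fun v : Fin (finrank K (redY T r f)) → V =>
        if tin U v then ψ (Theta c (res T (redY T r f)) χ v) else 0 := by
    rw [← tsm_mul]
    apply tsm_congr
    intro v
    rw [sum_comm]
    have hz : ∀ z : V, (∑ w : V, if tin U (Sum.elim (Sum.elim v (fun _ => w)) (fun _ => z) :
        (Fin (finrank K (redY T r f)) ⊕ Unit) ⊕ Unit → V) then
        ψ (Theta B T χ (Sum.elim (Sum.elim v (fun _ => w)) (fun _ => z))) else 0) =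
        if z = 0 then nrm U * (if tin U v then
          ψ (Theta c (res T (redY T r f)) χ v) else 0) else 0 := by
      intro z
      by_cases hzU : z ∈ U
      · by_cases hv : tin U v
        · have : ∀ w : V, (if tin U (Sum.elim (Sum.elim v (fun _ => w)) (fun _ => z) :
              (Fin (finrank K (redY T r f)) ⊕ Unit) ⊕ Unit → V) then
              ψ (Theta B T χ (Sum.elim (Sum.elim v (fun _ => w)) (fun _ => z))) else 0) =
              (if w ∈ U then ψ (χ w z) else 0) *
                ψ (Theta c (res T (redY T r f)) χ v + ∑ i, T f (c i) * χ z (v i)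
                  + T f f * χ z z) := by
            intro w
            rw [hTh, AddChar.map_add_eq_mul]
            have : tin U (Sum.elim (Sum.elim v (fun _ => w)) (fun _ => z) :
              (Fin (finrank K (redY T r f)) ⊕ Unit) ⊕ Unit → V) ↔ w ∈ U := by
              constructor
              · intro h; exact h (Sum.inl (Sum.inr ()))
              · intro h i
                rcases i with (i | i) | i
                · exact hv i
                · exact h
                · exact hzU
            simp only [this]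
            split_ifs <;> simp
          simp only [this]
          rw [← sum_mul, hinner z hzU]
          by_cases hz0 : z = 0
          · subst hz0
            simp [hv]
          · simp [hz0]
        · rw [if_neg hv, mul_zero]
          have : ∀ w : V, ¬ tin U (Sum.elim (Sum.elim v (fun _ => w)) (fun _ => z) :
              (Fin (finrank K (redY T r f)) ⊕ Unit) ⊕ Unit → V) := by
            intro w h
            exact hv fun i => h (Sum.inl (Sum.inl i))
          simp only [this, if_false, sum_const_zero]
          simp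
      · have hz0 : z ≠ 0 := by
          rintro rfl; exact hzU U.zero_mem
        rw [if_neg hz0]
        have : ∀ w : V, ¬ tin U (Sum.elim (Sum.elim v (fun _ => w)) (fun _ => z) :
              (Fin (finrank K (redY T r f)) ⊕ Unit) ⊕ Unit → V) := by
          intro w h
          exact hzU (h (Sum.inr ()))
        simp only [this, if_false, sum_const_zero]
    simp only [hz]
    rw [sum_ite_eq' univ (0 : V)]
    simp
  rw [hmain]
  have hn := inv_mul_cancel₀ (nrm_ne U)
  rw [pow_succ, pow_succ]
  linear_combination ((nrm U)⁻¹ ^ finrank K (redY T r f) * (nrm U)⁻¹ *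
    tsm fun v : Fin (finrank K (redY T r f)) → V =>
      if tin U v then ψ (Theta c (res T (redY T r f)) χ v) else 0) * hn

end red

section red2

variable {T : X →ₗ[K] X →ₗ[K] K} {r : X} {g : Dual K X}

/-- the decomposition `X = ker g ⊕ K r` -/
noncomputable def decomp2 (hg : g r = 1) : (LinearMap.ker g × K) ≃ₗ[K] X where
  toFun := fun p => p.1 + p.2 • r
  map_add' := by
    intro p p'
    simp only [Prod.fst_add, Prod.snd_add, Submodule.coe_add, add_smul]
    abel
  map_smul' := by
    intro c p
    simp only [Prod.smul_fst, Prod.smul_snd, Submodule.coe_smul, smul_eq_mul, mul_smul,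
      RingHom.id_apply, smul_add]
  invFun := fun x => (proj2 hg x, g x)
  left_inv := by
    rintro ⟨y, s⟩
    have h : g y = 0 := LinearMap.mem_ker.mp y.2
    ext
    · simp [proj2_apply, h, hg]
    · simp [h, hg]
  right_inv := by
    intro x
    simp only [proj2_apply]
    abel

theorem decomp2_apply (hg : g r = 1) (p : LinearMap.ker g × K) :
    decomp2 hg p = p.1 + p.2 • r := rfl

theorem finrank_red2 [FiniteDimensional K X] (hg : g r = 1) :
    finrank K X = finrank K (LinearMap.ker g) + 1 := by
  rw [← (decomp2 hg).finrank_eq, finrank_prod, finrank_self]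

theorem gm_red2 (ψ : AddChar K ℂ) [FiniteDimensional K X] (hr : ∀ x, T x r = 0) (hl : T r = 0)
    (hg : g r = 1) (χ : V →ₗ[K] V →ₗ[K] K) (U : Submodule K V) :
    gm ψ T χ U = gm ψ (res T (LinearMap.ker g)) χ U := by
  set c := finBasis K (LinearMap.ker g) with hc
  set B := (c.prod (Basis.singleton Unit K)).map (decomp2 hg) with hB
  have hBc : (B : Fin (finrank K (LinearMap.ker g)) ⊕ Unit → X) =
      Sum.elim (fun i => (c i : X)) (fun _ => r) := by
    funext i
    rcases i with i | i <;> simp [hB, decomp2_apply]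
  have hTh : ∀ (v : Fin (finrank K (LinearMap.ker g)) → V) (w : V),
      Theta B T χ (Sum.elim v (fun _ => w)) = Theta c (res T (LinearMap.ker g)) χ v := by
    intro v w
    rw [hBc]
    simp only [Theta, Fintype.sum_sum_type, Sum.elim_inl, Sum.elim_inr, res_apply,
      univ_unique, sum_singleton, hr, hl, zero_mul, add_zero, LinearMap.zero_apply,
      sum_const_zero]
  rw [gm_eq ψ B, gm, finrank_red2 hg, ← hc]
  unfold Gam
  rw [tsm_sumUnit]
  have hmain : (tsm fun v : Fin (finrank K (LinearMap.ker g)) → V => ∑ w : V,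
      if tin U (Sum.elim v (fun _ => w) :
        Fin (finrank K (LinearMap.ker g)) ⊕ Unit → V) then
        ψ (Theta B T χ (Sum.elim v (fun _ => w))) else 0) =
      nrm U * tsm fun v : Fin (finrank K (LinearMap.ker g)) → V =>
        if tin U v then ψ (Theta c (res T (LinearMap.ker g)) χ v) else 0 := by
    rw [← tsm_mul]
    apply tsm_congr
    intro v
    have : ∀ w : V, (if tin U (Sum.elim v (fun _ => w) :
        Fin (finrank K (LinearMap.ker g)) ⊕ Unit → V) then
        ψ (Theta B T χ (Sum.elim v (fun _ => w))) else 0) =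
        (if w ∈ U then (1 : ℂ) else 0) *
          (if tin U v then ψ (Theta c (res T (LinearMap.ker g)) χ v) else 0) := by
      intro w
      rw [hTh]
      have : tin U (Sum.elim v (fun _ => w) :
        Fin (finrank K (LinearMap.ker g)) ⊕ Unit → V) ↔ (w ∈ U ∧ tin U v) := by
        constructor
        · intro h
          exact ⟨h (Sum.inr ()), fun i => h (Sum.inl i)⟩
        · rintro ⟨h1, h2⟩ i
          rcases i with i | i
          · exact h2 i
          · exact h1
      rw [ite_mul, one_mul, zero_mul]
      simp only [this, ite_and]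
    simp only [this]
    rw [← sum_mul, sum_mem_one]
  rw [hmain]
  have hn := inv_mul_cancel₀ (nrm_ne U)
  rw [pow_succ]
  linear_combination ((nrm U)⁻¹ ^ finrank K (LinearMap.ker g) *
    tsm fun v : Fin (finrank K (LinearMap.ker g)) → V =>
      if tin U v then ψ (Theta c (res T (LinearMap.ker g)) χ v) else 0) * hn

end red2

end Pool.Agent.H376.Singer
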