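import Mathlib
import Pool.Agent.H376.Singer.Gauss2

/-!
The chain operator and its action on Gauss sums.
-/

namespace Pool.Agent.H376.Singer

set_option linter.all false

open Module Finset
open scoped Classical

variable {K : Type*} [Field K] [Fintype K] {V : Type*} [AddCommGroup V] [Module K V] [Fintype V]
variable {X : Type*} [AddCommGroup X] [Module K X]

/-- the left perp of `w` inside `U` -/
def lp (χ : V →ₗ[K] V →ₗ[K] K) (U : Submodule K V) (w : V) : Submodule K V :=
  U ⊓ LinearMap.ker (χ.flip w)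

theorem mem_lp {χ : V →ₗ[K] V →ₗ[K] K} {U : Submodule K V} {w u : V} :
    u ∈ lp χ U w ↔ u ∈ U ∧ χ u w = 0 := by
  simp [lp]

/-- the chain operator -/
noncomputable def DD (χ : V →ₗ[K] V →ₗ[K] K) :
    (Submodule K V → ℂ) →ₗ[ℂ] (Submodule K V → ℂ) where
  toFun F U := ∑ w : V, if w ∈ U ∧ χ w w ≠ 0 then F (lp χ U w) else 0
  map_add' F G := by
    funext U
    simp only [Pi.add_apply]
    rw [← sum_add_distrib]
    apply sum_congr rfl
    intro w _
    split_ifs <;> simp
  map_smul' c F := by
    funext U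
    simp only [Pi.smul_apply, smul_eq_mul, RingHom.id_apply]
    rw [mul_sum]
    apply sum_congr rfl
    intro w _
    split_ifs <;> simp

theorem DD_apply (χ : V →ₗ[K] V →ₗ[K] K) (F : Submodule K V → ℂ) (U : Submodule K V) :
    DD χ F U = ∑ w : V, if w ∈ U ∧ χ w w ≠ 0 then F (lp χ U w) else 0 := rfl

theorem good_lp {χ : V →ₗ[K] V →ₗ[K] K} {U : Submodule K V} (hU : Good χ U) {w : V}
    (hw : w ∈ U) (hww : χ w w ≠ 0) : Good χ (lp χ U w) := by
  intro u hu hux
  rw [mem_lp] at hu
  set d := χ w u / χ w w with hd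
  have h1 : u - d • w = 0 := by
    apply hU _ (U.sub_mem hu.1 (U.smul_mem _ hw))
    intro x hx
    -- decompose x
    set c := χ x w / χ w w with hc
    have hx' : x - c • w ∈ lp χ U w := by
      rw [mem_lp]
      refine ⟨U.sub_mem hx (U.smul_mem _ hw), ?_⟩
      rw [map_sub, map_smul, LinearMap.sub_apply, LinearMap.smul_apply, smul_eq_mul, hc]
      field_simp
      ring
    have h2 := hux _ hx'
    rw [map_sub, map_smul, LinearMap.sub_apply, LinearMap.smul_apply, smul_eq_mul] at h2
    have h3 : χ x u = c * χ w u := by linear_combination h2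
    rw [map_sub, map_smul, smul_eq_mul, h3, hc, hd]
    field_simp
    ring
  have h2 : u = d • w := sub_eq_zero.mp h1
  have h3 : d = 0 := by
    have := hu.2
    rw [h2, map_smul, LinearMap.smul_apply, smul_eq_mul] at this
    rcases mul_eq_zero.mp this with h | h
    · exact h
    · exact absurd h hww
  rw [h2, h3, zero_smul]

theorem finrank_lp {χ : V →ₗ[K] V →ₗ[K] K} {U : Submodule K V} {w : V}
    (hw : w ∈ U) (hww : χ w w ≠ 0) : finrank K (lp χ U w) + 1 = finrank K U := by
  have h1 : lp χ U w = (LinearMap.ker ((χ.flip w).domRestrict U)).map U.subtype := by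
    ext u
    rw [mem_lp, Submodule.mem_map]
    constructor
    · rintro ⟨h1, h2⟩
      exact ⟨⟨u, h1⟩, by simpa using h2, rfl⟩
    · rintro ⟨y, hy, rfl⟩
      exact ⟨y.2, by simpa using hy⟩
  rw [h1, Submodule.finrank_map_subtype_eq]
  apply Module.Dual.finrank_ker_add_one_of_ne_zero
  intro h
  have := LinearMap.congr_fun h ⟨w, hw⟩
  simp at this
  exact hww this

theorem DD_congr (χ : V →ₗ[K] V →ₗ[K] K) (j : ℕ) : ∀ (U : Submodule K V), Good χ U →
    ∀ F G : Submodule K V → ℂ, (∀ W, Good χ W → finrank K W + j = finrank K U → F W = G W) →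
      ((DD χ) ^ j) F U = ((DD χ) ^ j) G U := by
  induction j with
  | zero =>
    intro U hU F G h
    simpa using h U hU (by simp)
  | succ j ih =>
    intro U hU F G h
    rw [pow_succ', Module.End.mul_apply, Module.End.mul_apply, DD_apply, DD_apply]
    apply sum_congr rfl
    intro w _
    split_ifs with hw
    · apply ih _ (good_lp hU hw.1 hw.2)
      intro W hW hf
      apply h W hW
      have := finrank_lp hw.1 hw.2
      omega
    · rfl

theorem nrm_lp {χ : V →ₗ[K] V →ₗ[K] K} {U : Submodule K V} {w : V}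
    (hw : w ∈ U) (hww : χ w w ≠ 0) : nrm U = nrm (lp χ U w) * (Fintype.card K : ℂ) := by
  unfold nrm
  rw [← finrank_lp hw hww, pow_succ]

theorem sum_dual {ψ : AddChar K ℂ} (hψ : ψ ≠ 1) [FiniteDimensional K X] [Fintype (Dual K X)]
    {ι : Type*} [Fintype ι] (b : Basis ι K X) (c : ι → K) :
    ∑ a : Dual K X, ψ (∑ i, a (b i) * c i) =
      if (∀ i, c i = 0) then (Fintype.card K : ℂ) ^ finrank K X else 0 := by
  let φ : Dual K X →ₗ[K] K :=
    { toFun := fun a => ∑ i, a (b i) * c i
      map_add' := by intro a a'; simp [add_mul, sum_add_distrib]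
      map_smul' := by intro s a; simp [mul_sum, mul_assoc] }
  have h := sum_psi_lin hψ (⊤ : Submodule K (Dual K X)) φ
  have h1 : (∀ v ∈ (⊤ : Submodule K (Dual K X)), φ v = 0) ↔ ∀ i, c i = 0 := by
    constructor
    · intro hh i
      have := hh (b.coord i) Submodule.mem_top
      simpa [φ, Finsupp.single_apply] using this
    · intro hh v _
      simp [φ, hh]
  have h2 : nrm (⊤ : Submodule K (Dual K X)) = (Fintype.card K : ℂ) ^ finrank K X := by
    unfold nrm
    rw [finrank_top, Subspace.dual_finrank_eq]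
  rw [h2] at h
  simp only [Submodule.mem_top, if_true] at h
  rw [show (∑ a : Dual K X, ψ (∑ i, a (b i) * c i)) = ∑ a : Dual K X, ψ (φ a) from rfl, h]
  by_cases hc : ∀ i, c i = 0
  · rw [if_pos hc, if_pos]
    intro v hv
    exact h1.mpr hc v hv
  · rw [if_neg hc, if_neg]
    intro hh
    exact hc (h1.mp hh)

theorem ind_ne {ψ : AddChar K ℂ} (hψ : ψ ≠ 1) (c : K) :
    (1 : ℂ) - (Fintype.card K : ℂ)⁻¹ * ∑ t : K, ψ (t * c) = if c ≠ 0 then 1 else 0 := by
  rw [sum_psi hψ]
  by_cases hc : c = 0
  · rw [if_pos hc, inv_mul_cancel₀ card_ne]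
    simp [hc]
  · simp [hc]

theorem DD_gm {ψ : AddChar K ℂ} (hψ : ψ ≠ 1) [FiniteDimensional K X] [Fintype (Dual K X)]
    (T : X →ₗ[K] X →ₗ[K] K) (χ : V →ₗ[K] V →ₗ[K] K) (U : Submodule K V) :
    DD χ (fun W => gm ψ T χ W) U = nrm U * ∑ a : Dual K X,
      (gm ψ (ext T (fn a 0)) χ U - (Fintype.card K : ℂ)⁻¹ *
        ∑ t : K, gm ψ (ext T (fn a t)) χ U) := by
  set b := finBasis K X with hb
  set q : ℂ := (Fintype.card K : ℂ) with hq
  set A : Dual K X → K → ℂ := fun a t =>
    tsm fun v : Fin (finrank K X) → V => ∑ w : V, if tin U v ∧ w ∈ U then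
        ψ (Theta b T χ v + ∑ i, a (b i) * χ (v i) w + t * χ w w) else 0 with hA
  have hext : ∀ a t, gm ψ (ext T (fn a t)) χ U = (nrm U)⁻¹ ^ (finrank K X + 1) * A a t :=
    fun a t => gm_ext ψ b T a t χ U
  have hterm : ∀ w : V, (if w ∈ U ∧ χ w w ≠ 0 then gm ψ T χ (lp χ U w) else 0) =
      (nrm U)⁻¹ ^ finrank K X * ∑ a : Dual K X, tsm fun v : Fin (finrank K X) → V =>
        (if tin U v ∧ w ∈ U then ψ (Theta b T χ v + ∑ i, a (b i) * χ (v i) w) else 0) *
          (1 - q⁻¹ * ∑ t : K, ψ (t * χ w w)) := by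
    intro w
    by_cases hw : w ∈ U
    · by_cases hww : χ w w = 0
      · rw [if_neg (by tauto)]
        rw [ind_ne hψ, if_neg (by tauto)]
        simp [tsm]
      · rw [if_pos ⟨hw, hww⟩, ind_ne hψ, if_pos hww, gm_eq ψ b]
        have h1 : (nrm (lp χ U w))⁻¹ = (nrm U)⁻¹ * q := by
          rw [nrm_lp hw hww]
          have := nrm_ne (lp χ U w)
          have := card_ne (K := K)
          rw [← hq] at this ⊢
          field_simp
        have h2 : Gam ψ b T χ (lp χ U w) = (q⁻¹) ^ finrank K X *
            ∑ a : Dual K X, tsm fun v : Fin (finrank K X) → V =>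
              (if tin U v ∧ w ∈ U then ψ (Theta b T χ v + ∑ i, a (b i) * χ (v i) w) else 0)
                * 1 := by
          unfold Gam tsm
          rw [sum_comm, mul_sum]
          apply sum_congr rfl
          intro v _
          have h3 : tin (lp χ U w) v ↔ tin U v ∧ ∀ i, χ (v i) w = 0 := by
            unfold tin
            simp only [mem_lp]
            exact forall_and
          by_cases hv : tin U v
          · simp only [hv, hw, and_self, if_true, mul_one, AddChar.map_add_eq_mul]
            rw [← mul_sum, sum_dual hψ b]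
            by_cases hc : ∀ i, χ (v i) w = 0
            · rw [if_pos (h3.mpr ⟨hv, hc⟩), if_pos hc, ← hq]
              have := card_ne (K := K)
              rw [← hq] at this
              have h4 : q⁻¹ ^ finrank K X * q ^ finrank K X = 1 := by
                rw [← mul_pow, inv_mul_cancel₀ this, one_pow]
              linear_combination (- ψ (Theta b T χ v)) * h4
            · rw [if_neg (fun h => hc (h3.mp h).2), if_neg hc]
              simp
          · simp only [hv, false_and, if_false, zero_mul, sum_const_zero, mul_zero]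
            rw [if_neg (fun h => hv (h3.mp h).1)]
        rw [h1, h2, mul_pow]
        have := card_ne (K := K)
        rw [← hq] at this
        have h4 : q⁻¹ ^ finrank K X * q ^ finrank K X = 1 := by
          rw [← mul_pow, inv_mul_cancel₀ this, one_pow]
        linear_combination ((nrm U)⁻¹ ^ finrank K X * ∑ a : Dual K X,
          tsm fun v : Fin (finrank K X) → V =>
            (if tin U v ∧ w ∈ U then ψ (Theta b T χ v + ∑ i, a (b i) * χ (v i) w) else 0)
              * 1) * h4
    · rw [if_neg (by tauto)]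
      simp [hw, tsm]
  rw [DD_apply]
  simp only [hterm, hext]
  rw [← mul_sum, sum_comm]
  have hn := nrm_ne U
  have hkey : ∀ a : Dual K X, (∑ w : V, tsm fun v : Fin (finrank K X) → V =>
        (if tin U v ∧ w ∈ U then ψ (Theta b T χ v + ∑ i, a (b i) * χ (v i) w) else 0) *
          (1 - q⁻¹ * ∑ t : K, ψ (t * χ w w))) = A a 0 - q⁻¹ * ∑ t : K, A a t := by
    intro a
    simp only [hA, tsm]
    rw [sum_comm, sum_comm (s := (univ : Finset K)), mul_sum, ← sum_sub_distrib]
    apply sum_congr rfl
    intro v _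
    rw [sum_comm (s := (univ : Finset K)), mul_sum, ← sum_sub_distrib]
    apply sum_congr rfl
    intro w _
    by_cases h : tin U v ∧ w ∈ U
    · simp only [h, and_self, if_true, zero_mul, add_zero, AddChar.map_add_eq_mul]
      rw [← mul_sum]
      ring
    · simp [h]
  simp only [hkey]
  rw [mul_sum, mul_sum]
  apply sum_congr rfl
  intro a _
  rw [← mul_sum]
  have h5 := inv_mul_cancel₀ hn
  rw [pow_succ]
  linear_combination (-(nrm U)⁻¹ ^ finrank K X * (A a 0 - q⁻¹ * ∑ t : K, A a t)) * h5

end Pool.Agent.H376.Singer
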