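import Mathlib
import Pool.Agent.H376.Singer.Chain

/-!
The evaluation of the iterated chain operator.
-/

namespace Pool.Agent.H376.Singer

set_option linter.all false

open Module Finset
open scoped Classical

universe u v

variable {K : Type u} [Field K] [Fintype K] {V : Type v} [AddCommGroup V] [Module K V] [Fintype V]

/-- the evaluation hypothesis for nondegenerate forms of small rank -/
def HH (ψ : AddChar K ℂ) (χ : V →ₗ[K] V →ₗ[K] K) (N : ℕ) (y : ℂ) : Prop :=
  ∀ (X : Type u) [AddCommGroup X] [Module K X] [FiniteDimensional K X]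
    (T : X →ₗ[K] X →ₗ[K] K), (∀ x, T x = 0 → x = 0) → finrank K X < N →
      gm ψ T χ ⊤ = y ^ finrank K X

section nondeg

variable {X : Type u} [AddCommGroup X] [Module K X] [FiniteDimensional K X]

omit [Fintype K] in
theorem left_nondeg {T : X →ₗ[K] X →ₗ[K] K} (h : ∀ x, T.flip x = 0 → x = 0) :
    ∀ x, T x = 0 → x = 0 := by
  intro x hx
  have := right_nondeg (T0 := T.flip) h x
  rw [LinearMap.flip_flip] at this
  exact this hx

omit [Fintype K] in
theorem exists_right {T : X →ₗ[K] X →ₗ[K] K} (h : ¬ ∀ x, T x = 0 → x = 0) :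
    ∃ r, r ≠ 0 ∧ ∀ x, T x r = 0 := by
  by_contra hc
  push Not at hc
  apply h
  apply left_nondeg
  intro x hx
  by_contra hx0
  obtain ⟨z, hz⟩ := hc x hx0
  exact hz (by simpa using LinearMap.congr_fun hx z)

omit [Fintype K] [FiniteDimensional K X] in
theorem exists_dual_one {r : X} (hr : r ≠ 0) : ∃ g : Dual K X, g r = 1 := by
  have h : ¬ ∀ φ : Dual K X, φ r = 0 := by
    intro h
    exact hr ((Module.forall_dual_apply_eq_zero_iff K r).mp h)
  push Not at h
  obtain ⟨φ, hφ⟩ := h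
  exact ⟨(φ r)⁻¹ • φ, by simp [hφ]⟩

omit [Fintype K] [FiniteDimensional K X] in
theorem exists_f_one {T : X →ₗ[K] X →ₗ[K] K} {r : X} (hr : T r ≠ 0) : ∃ f, T r f = 1 := by
  have h : ¬ ∀ f, T r f = 0 := by
    intro h
    exact hr (LinearMap.ext h)
  push Not at h
  obtain ⟨f, hf⟩ := h
  exact ⟨(T r f)⁻¹ • f, by simp [hf]⟩

omit [Fintype K] in
theorem ext_nondeg {T : X →ₗ[K] X →ₗ[K] K} (h0 : ∀ x, T x = 0 → x = 0) (a : Dual K X) {t : K}
    (ht : t ≠ 0) : ∀ x, ext T (fn a t) x = 0 → x = 0 := by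
  intro x hx
  have h1 : x.1 = 0 := by
    apply h0
    ext w
    have := LinearMap.congr_fun hx (w, 0)
    simpa using this
  have h2 : x.2 = 0 := by
    have := LinearMap.congr_fun hx (0, 1)
    simp [h1] at this
    rcases this with h | h
    · exact absurd h ht
    · exact h
  exact Prod.ext h1 h2

omit [Fintype K] in
theorem cork_of_nondeg {T : X →ₗ[K] X →ₗ[K] K} (h0 : ∀ x, T x = 0 → x = 0) : Cork T :=
  ⟨0, fun x hx => ⟨0, by rw [right_nondeg h0 x hx]; simp⟩⟩

omit [Fintype K] in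
theorem cork_ext {T : X →ₗ[K] X →ₗ[K] K} (h0 : ∀ x, T x = 0 → x = 0) (a : Dual K X) :
    Cork (ext T (fn a 0)) := by
  obtain ⟨α, hα⟩ := exists_flip h0 a
  refine ⟨(-α, 1), ?_⟩
  intro x hx
  refine ⟨x.2, ?_⟩
  have h1 : T.flip (x.1 + x.2 • α) = 0 := by
    rw [map_add, map_smul, hα]
    ext w
    have := LinearMap.congr_fun hx (w, 0)
    simp at this
    simp
    linear_combination this
  have h2 := right_nondeg h0 _ h1
  ext
  · simp
    exact eq_neg_of_add_eq_zero_left h2
  · simp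

end nondeg

section eval

variable {ψ : AddChar K ℂ} {χ : V →ₗ[K] V →ₗ[K] K} {N : ℕ} {y : ℂ}

theorem good_top (hχ : ∀ u, (∀ x, χ x u = 0) → u = 0) : Good χ ⊤ := by
  intro u _ h
  exact hχ u fun x => h x Submodule.mem_top

theorem gm_eval (hψ : ψ ≠ 1) (hχ : ∀ u, (∀ x, χ x u = 0) → u = 0)
    (hH : HH ψ χ N y) (hy : y ^ 2 = (nrm (⊤ : Submodule K V))⁻¹) : ∀ (k : ℕ) (X : Type u)
      [AddCommGroup X] [Module K X] [FiniteDimensional K X] (T : X →ₗ[K] X →ₗ[K] K),
      finrank K X = k → k < N → Cork T →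
      gm ψ T χ ⊤ = if Odd T then y ^ (k - 1) else y ^ k := by
  intro k
  induction k using Nat.strong_induction_on with
  | _ k ih =>
  intro X _ _ _ T hk hkN hC
  by_cases h0 : ∀ x, T x = 0 → x = 0
  · rw [if_neg (not_odd h0), hH X T h0 (by omega), hk]
  · obtain ⟨r, hr0, hr⟩ := exists_right h0
    by_cases hTr : T r = 0
    · rw [if_pos (odd_case2 hr hTr hr0)]
      obtain ⟨g, hg⟩ := exists_dual_one (K := K) hr0
      rw [gm_red2 ψ hr hTr hg]
      have hfr := finrank_red2 (X := X) hg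
      rw [hH _ (res T (LinearMap.ker g)) ?_ (by omega)]
      · congr 1
        omega
      · apply left_nondeg
        intro x hx
        obtain ⟨r0, hr0'⟩ := hC
        have h1 : T.flip (x : X) = 0 := by
          ext w
          have h2 := LinearMap.congr_fun hx (proj2 hg w)
          rw [LinearMap.flip_apply, res_apply, proj2_apply] at h2
          simpa [hTr] using h2
        obtain ⟨c, hc⟩ := hr0' _ h1
        obtain ⟨d, hd⟩ := hr0' r (by ext w; simp [hr])
        have hd0 : d ≠ 0 := by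
          rintro rfl
          rw [zero_smul] at hd
          exact hr0 hd
        have h5 : (x : X) = (c / d) • r := by
          rw [hc, hd, smul_smul]; congr 1; field_simp
        have h6 : g (x : X) = 0 := LinearMap.mem_ker.mp x.2
        rw [h5, map_smul, hg, smul_eq_mul, mul_one] at h6
        apply Subtype.ext
        rw [h5, h6]; simp
    · obtain ⟨f, hf⟩ := exists_f_one hTr
      have hfr := finrank_red1 hr hf
      rw [gm_red1 hψ hr hf χ (good_top hχ), ← hy,
        ih (finrank K (redY T r f)) (by omega) _ _ rfl (by omega) (cork_red1 hr hf hC)]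
      have hodd := odd_red1 hr hf
      by_cases ho : Odd T
      · have ho' := hodd.mp ho
        rw [if_pos ho, if_pos ho']
        have hpos : 0 < finrank K (redY T r f) := by
          obtain ⟨_, _, l, _, hl, _⟩ := ho'
          exact Module.finrank_pos_iff_exists_ne_zero.mpr ⟨l, hl⟩
        rw [← pow_add]
        congr 1
        omega
      · have ho' : ¬ Odd (res T (redY T r f)) := fun h => ho (hodd.mpr h)
        rw [if_neg ho, if_neg ho', ← pow_add]
        congr 1
        omega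

/-- the iterated sum -/
noncomputable def Sj (ψ : AddChar K ℂ) (χ : V →ₗ[K] V →ₗ[K] K) (j : ℕ) {X : Type u}
    [AddCommGroup X] [Module K X] [FiniteDimensional K X] (T : X →ₗ[K] X →ₗ[K] K) : ℂ :=
  ((DD χ) ^ j) (fun W => gm ψ T χ W) ⊤

/-- the number of chains -/
noncomputable def Aj (χ : V →ₗ[K] V →ₗ[K] K) (j : ℕ) : ℂ := ((DD χ) ^ j) (fun _ => 1) ⊤

/-- the claim at level `j` -/
def Claim (ψ : AddChar K ℂ) (χ : V →ₗ[K] V →ₗ[K] K) (N j : ℕ) : Prop :=
  ∀ (X : Type u) [AddCommGroup X] [Module K X] [FiniteDimensional K X]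
    (T : X →ₗ[K] X →ₗ[K] K), finrank K X + j < N →
      Sj ψ χ j T = Aj χ j * gm ψ T χ ⊤ * cnt j T

theorem nrm_of (hN : finrank K V = N) {j : ℕ} {W : Submodule K V}
    (h : finrank K W + j = finrank K (⊤ : Submodule K V)) :
    nrm W = (Fintype.card K : ℂ) ^ (N - j) := by
  rw [finrank_top] at h
  unfold nrm
  congr 1
  omega

theorem step_nondeg (hψ : ψ ≠ 1) (hχ : ∀ u, (∀ x, χ x u = 0) → u = 0) (hN : finrank K V = N)
    (hH : HH ψ χ N y) (hy : y ^ 2 = (nrm (⊤ : Submodule K V))⁻¹) (j : ℕ)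
    (hcl : Claim ψ χ N j) (X : Type u) [AddCommGroup X] [Module K X] [FiniteDimensional K X]
    (T : X →ₗ[K] X →ₗ[K] K) (h0 : ∀ x, T x = 0 → x = 0) (hlt : finrank K X + (j + 1) < N) :
    Sj ψ χ (j + 1) T = (Fintype.card K : ℂ) ^ (N - j) * (1 - (Fintype.card K : ℂ)⁻¹) * (1 - y) *
      Aj χ j * y ^ finrank K X * cnt (j + 1) T := by
  haveI : Finite (Dual K X) := Module.finite_of_finite K
  haveI : Fintype (Dual K X) := Fintype.ofFinite _
  set q : ℂ := (Fintype.card K : ℂ) with hq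
  set k := finrank K X with hk
  have hq0 : q ≠ 0 := card_ne (K := K)
  -- first step
  have h1 : Sj ψ χ (j + 1) T = q ^ (N - j) * ∑ a : Dual K X,
      (Sj ψ χ j (ext T (fn a 0)) - q⁻¹ * ∑ t : K, Sj ψ χ j (ext T (fn a t))) := by
    unfold Sj
    rw [pow_succ, Module.End.mul_apply]
    rw [DD_congr χ j ⊤ (good_top hχ) (DD χ (fun W => gm ψ T χ W))
      (q ^ (N - j) • ∑ a : Dual K X, ((fun W => gm ψ (ext T (fn a 0)) χ W) -
        q⁻¹ • ∑ t : K, (fun W => gm ψ (ext T (fn a t)) χ W)))]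
    · simp only [map_smul, map_sum, map_sub, Pi.smul_apply, Finset.sum_apply, Pi.sub_apply,
        smul_eq_mul]
    · intro W hW hWj
      rw [DD_gm hψ, nrm_of hN hWj]
      simp only [Pi.smul_apply, Finset.sum_apply, Pi.sub_apply, smul_eq_mul, hq]
  -- values
  have hfr : finrank K (X × K) = k + 1 := by
    rw [finrank_prod, finrank_self]
  have hval : ∀ a t, t ≠ 0 → Sj ψ χ j (ext T (fn a t)) =
      Aj χ j * y ^ (k + 1) * cnt j (ext T (fn a t)) := by
    intro a t ht
    rw [hcl _ _ (by rw [hfr]; omega), hH _ _ (ext_nondeg h0 a ht) (by rw [hfr]; omega), hfr]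
  have hval0 : ∀ a, Sj ψ χ j (ext T (fn a 0)) =
      Aj χ j * (if Cov T {a} then y ^ k else y ^ (k + 1)) * cnt j (ext T (fn a 0)) := by
    intro a
    rw [hcl _ _ (by rw [hfr]; omega), gm_eval hψ hχ hH hy (k + 1) _ _ hfr (by omega)
      (cork_ext h0 a)]
    simp only [odd_ext_iff h0 a, Nat.add_sub_cancel]
  -- the sums
  set C : ℂ := ∑ a : Dual K X, (cnt j (ext T (fn a 0)) : ℂ) with hC
  have hCt : ∀ t, ∑ a : Dual K X, (cnt j (ext T (fn a t)) : ℂ) = C := by
    intro t
    rw [hC]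
    exact_mod_cast sum_cnt_ext T h0 j t 0
  set D : ℂ := (cnt (j + 1) T : ℂ) with hD
  have hDs : ∑ a : Dual K X, (if Cov T {a} then (cnt j (ext T (fn a 0)) : ℂ) else 0) = D := by
    have := sum_cnt_succ T h0 j
    rw [hD, ← this]
    push_cast
    rfl
  have hS0 : ∑ a : Dual K X, Sj ψ χ j (ext T (fn a 0)) =
      Aj χ j * (y ^ (k + 1) * C + (y ^ k - y ^ (k + 1)) * D) := by
    rw [hC, ← hDs, mul_sum, mul_sum, ← sum_add_distrib, mul_sum]
    apply sum_congr rfl
    intro a _
    rw [hval0 a]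
    split_ifs <;> ring
  have hSt : ∀ t, t ≠ 0 → ∑ a : Dual K X, Sj ψ χ j (ext T (fn a t)) =
      Aj χ j * (y ^ (k + 1) * C) := by
    intro t ht
    rw [← hCt t, mul_sum, mul_sum]
    apply sum_congr rfl
    intro a _
    rw [hval a t ht]
    ring
  have hStt : ∑ t : K, ∑ a : Dual K X, Sj ψ χ j (ext T (fn a t)) =
      q * (Aj χ j * (y ^ (k + 1) * C)) + Aj χ j * ((y ^ k - y ^ (k + 1)) * D) := by
    have h2 : ∀ t : K, ∑ a : Dual K X, Sj ψ χ j (ext T (fn a t)) =
        Aj χ j * (y ^ (k + 1) * C) +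
          if t = 0 then Aj χ j * ((y ^ k - y ^ (k + 1)) * D) else 0 := by
      intro t
      split_ifs with ht
      · rw [ht, hS0]; ring
      · rw [hSt t ht]; ring
    simp only [h2]
    rw [sum_add_distrib, sum_const, sum_ite_eq' univ (0 : K)]
    simp [hq, Finset.card_univ]
  rw [h1, sum_sub_distrib, ← mul_sum, sum_comm, hS0, hStt]
  have h3 : q⁻¹ * q = 1 := inv_mul_cancel₀ hq0
  linear_combination (- q ^ (N - j) * (Aj χ j * (y ^ (k + 1) * C))) * h3

theorem cnt_of_subsingleton (j : ℕ) {X : Type u} [AddCommGroup X] [Module K X]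
    [Subsingleton X] (T : X →ₗ[K] X →ₗ[K] K) : cnt j T = 1 := by
  unfold cnt
  rw [Nat.card_eq_one_iff_unique]
  have hs : Subsingleton (Dual K X) := by
    constructor
    intro a b
    ext x
    rw [Subsingleton.elim x 0]; simp
  constructor
  · constructor
    rintro ⟨a, _⟩ ⟨b, _⟩
    apply Subtype.ext
    exact Subsingleton.elim _ _
  · refine ⟨⟨fun _ => 0, ⊥, adm_bot T, ?_⟩⟩
    intro b _
    exact ⟨0, Submodule.zero_mem _, Subsingleton.elim _ _⟩

theorem Aj_succ (hψ : ψ ≠ 1) (hχ : ∀ u, (∀ x, χ x u = 0) → u = 0) (hN : finrank K V = N)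
    (hH : HH ψ χ N y) (hy : y ^ 2 = (nrm (⊤ : Submodule K V))⁻¹) (j : ℕ)
    (hcl : Claim ψ χ N j) (hlt : j + 1 < N) :
    Aj χ (j + 1) = (Fintype.card K : ℂ) ^ (N - j) * (1 - (Fintype.card K : ℂ)⁻¹) * (1 - y) *
      Aj χ j := by
  have hf0 : finrank K (PUnit.{u + 1}) = 0 := finrank_zero_of_subsingleton
  have h := step_nondeg hψ hχ hN hH hy j hcl PUnit.{u + 1} 0
    (fun x _ => Subsingleton.elim _ _) (by rw [hf0]; omega)
  rw [cnt_of_subsingleton, hf0] at h
  have h2 : Sj ψ χ (j + 1) (0 : PUnit.{u + 1} →ₗ[K] PUnit.{u + 1} →ₗ[K] K) = Aj χ (j + 1) := by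
    unfold Sj Aj
    have h3 : (fun W : Submodule K V =>
        gm ψ (0 : PUnit.{u + 1} →ₗ[K] PUnit.{u + 1} →ₗ[K] K) χ W) = fun _ => 1 := by
      funext W
      exact gm_of_finrank_zero ψ _ χ W hf0
    rw [h3]
  rw [h2] at h
  rw [h]
  simp

theorem claim_succ (hψ : ψ ≠ 1) (hχ : ∀ u, (∀ x, χ x u = 0) → u = 0) (hN : finrank K V = N)
    (hH : HH ψ χ N y) (hy : y ^ 2 = (nrm (⊤ : Submodule K V))⁻¹) (j : ℕ)
    (hcl : Claim ψ χ N j) : Claim ψ χ N (j + 1) := by
  suffices h : ∀ (k : ℕ) (X : Type u) [AddCommGroup X] [Module K X] [FiniteDimensional K X]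
      (T : X →ₗ[K] X →ₗ[K] K), finrank K X = k → finrank K X + (j + 1) < N →
      Sj ψ χ (j + 1) T = Aj χ (j + 1) * gm ψ T χ ⊤ * cnt (j + 1) T by
    intro X _ _ _ T hlt
    exact h _ X T rfl hlt
  intro k
  induction k using Nat.strong_induction_on with
  | _ k ih =>
  intro X _ _ _ T hk hlt
  by_cases h0 : ∀ x, T x = 0 → x = 0
  · rw [step_nondeg hψ hχ hN hH hy j hcl X T h0 hlt,
      Aj_succ hψ hχ hN hH hy j hcl (by omega), hH X T h0 (by omega)]
  · obtain ⟨r, hr0, hr⟩ := exists_right h0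
    by_cases hTr : T r = 0
    · obtain ⟨g, hg⟩ := exists_dual_one (K := K) hr0
      have hfr := finrank_red2 (X := X) hg
      have h1 : Sj ψ χ (j + 1) T = Sj ψ χ (j + 1) (res T (LinearMap.ker g)) := by
        unfold Sj
        have h3 : (fun W : Submodule K V => gm ψ T χ W) =
            fun W => gm ψ (res T (LinearMap.ker g)) χ W := by
          funext W
          exact gm_red2 ψ hr hTr hg χ W
        rw [h3]
      rw [h1, gm_red2 ψ hr hTr hg, cnt_red2 hr hTr hg]
      exact ih _ (by omega) _ _ rfl (by omega)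
    · obtain ⟨f, hf⟩ := exists_f_one hTr
      have hfr := finrank_red1 hr hf
      have h1 : Sj ψ χ (j + 1) T = ((Fintype.card K : ℂ) ^ (N - (j + 1)))⁻¹ *
          Sj ψ χ (j + 1) (res T (redY T r f)) := by
        unfold Sj
        rw [DD_congr χ (j + 1) ⊤ (good_top hχ) (fun W => gm ψ T χ W)
          (((Fintype.card K : ℂ) ^ (N - (j + 1)))⁻¹ • fun W => gm ψ (res T (redY T r f)) χ W)]
        · rw [map_smul]
          rfl
        · intro W hW hWj
          rw [gm_red1 hψ hr hf χ hW, nrm_of hN hWj]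
          rfl
      rw [h1, gm_red1 hψ hr hf χ (good_top hχ), cnt_red1 hr hf,
        ih _ (by omega) _ _ rfl (by omega), Nat.card_eq_fintype_card,
        nrm_of hN (W := (⊤ : Submodule K V)) (j := 0) rfl]
      have hq0 : (Fintype.card K : ℂ) ≠ 0 := card_ne (K := K)
      have h3 : ((Fintype.card K : ℂ) ^ (N - (j + 1)))⁻¹ =
          ((Fintype.card K : ℂ) ^ (N - 0))⁻¹ * (Fintype.card K : ℂ) ^ (j + 1) := by
        have h4 : N - 0 = N - (j + 1) + (j + 1) := by omega
        rw [h4, pow_add]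
        have := pow_ne_zero (N - (j + 1)) hq0
        have := pow_ne_zero (j + 1) hq0
        field_simp
      rw [h3]
      push_cast
      ring

theorem claim_zero : Claim ψ χ N 0 := by
  intro X _ _ _ T _
  unfold Sj Aj
  rw [cnt_zero]
  simp

theorem claim_all (hψ : ψ ≠ 1) (hχ : ∀ u, (∀ x, χ x u = 0) → u = 0) (hN : finrank K V = N)
    (hH : HH ψ χ N y) (hy : y ^ 2 = (nrm (⊤ : Submodule K V))⁻¹) (j : ℕ) : Claim ψ χ N j := by
  induction j with
  | zero => exact claim_zero
  | succ j ih => exact claim_succ hψ hχ hN hH hy j ih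

end eval

end Pool.Agent.H376.Singer
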