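import Mathlib
import Pool.Agent.H376.Singer.Main

/-!
The number of triangular tuples.
-/

namespace Pool.Agent.H376.Singer

set_option linter.all false

open Module Finset
open scoped Classical

universe u v

variable {K : Type u} [Field K] [Fintype K] {V : Type v} [AddCommGroup V] [Module K V] [Fintype V]

/-- triangular tuples of nonisotropic vectors in `U` -/
def Tri (χ : V →ₗ[K] V →ₗ[K] K) (U : Submodule K V) {j : ℕ} (v : Fin j → V) : Prop :=
  (∀ i, v i ∈ U ∧ χ (v i) (v i) ≠ 0) ∧ ∀ i k, i < k → χ (v k) (v i) = 0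

theorem tri_cons (χ : V →ₗ[K] V →ₗ[K] K) (U : Submodule K V) {j : ℕ} (w : V) (v : Fin j → V) :
    Tri χ U (Fin.cons w v : Fin (j + 1) → V) ↔ (w ∈ U ∧ χ w w ≠ 0) ∧ Tri χ (lp χ U w) v := by
  constructor
  · rintro ⟨h1, h2⟩
    refine ⟨by simpa using h1 0, ?_, ?_⟩
    · intro i
      have h3 := h1 i.succ
      have h4 := h2 0 i.succ (Fin.succ_pos i)
      simp only [Fin.cons_succ, Fin.cons_zero] at h3 h4
      exact ⟨mem_lp.mpr ⟨h3.1, h4⟩, h3.2⟩
    · intro i k hik
      have := h2 i.succ k.succ (Fin.succ_lt_succ_iff.mpr hik)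
      simpa using this
  · rintro ⟨h0, h1, h2⟩
    refine ⟨?_, ?_⟩
    · intro i
      refine Fin.cases ?_ ?_ i
      · simpa using h0
      · intro i
        have := h1 i
        simp only [Fin.cons_succ]
        exact ⟨(mem_lp.mp this.1).1, this.2⟩
    · intro i k hik
      induction k using Fin.cases with
      | zero => exact absurd hik (Fin.not_lt_zero i)
      | succ k =>
        induction i using Fin.cases with
        | zero =>
          simp only [Fin.cons_succ, Fin.cons_zero]
          exact (mem_lp.mp (h1 k).1).2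
        | succ i =>
          simp only [Fin.cons_succ]
          exact h2 i k (Fin.succ_lt_succ_iff.mp hik)

theorem DD_pow_one (χ : V →ₗ[K] V →ₗ[K] K) (j : ℕ) : ∀ U : Submodule K V,
    ((DD χ) ^ j) (fun _ => 1) U = (Nat.card {v : Fin j → V // Tri χ U v} : ℂ) := by
  induction j with
  | zero =>
    intro U
    have : Nat.card {v : Fin 0 → V // Tri χ U v} = 1 := by
      rw [Nat.card_eq_one_iff_unique]
      constructor
      · constructor
        rintro ⟨a, _⟩ ⟨b, _⟩
        apply Subtype.ext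
        exact Subsingleton.elim _ _
      · exact ⟨⟨Fin.elim0, fun i => i.elim0, fun i => i.elim0⟩⟩
    rw [this]
    simp
  | succ j ih =>
    intro U
    rw [pow_succ', Module.End.mul_apply, DD_apply]
    have e : {v : Fin (j + 1) → V // Tri χ U v} ≃
        Σ w : V, {v : Fin j → V // (w ∈ U ∧ χ w w ≠ 0) ∧ Tri χ (lp χ U w) v} :=
      { toFun := fun B => ⟨B.1 0, fun i => B.1 i.succ, by
          rw [← tri_cons]
          have h := B.2
          rw [← Fin.cons_self_tail B.1] at h
          exact h⟩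
        invFun := fun C => ⟨Fin.cons C.1 C.2.1, (tri_cons χ U _ _).mpr C.2.2⟩
        left_inv := by
          intro B
          apply Subtype.ext
          exact Fin.cons_self_tail B.1
        right_inv := by
          intro C
          rfl }
    rw [Nat.card_congr e, Nat.card_sigma]
    push_cast
    apply sum_congr rfl
    intro w _
    by_cases hw : w ∈ U ∧ χ w w ≠ 0
    · rw [if_pos hw, ih]
      congr 1
      apply Nat.card_congr
      exact Equiv.subtypeEquivRight fun v => by simp [hw]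
    · rw [if_neg hw]
      symm
      rw [Nat.cast_eq_zero, Nat.card_eq_zero]
      left
      constructor
      rintro ⟨B, hB⟩
      exact hw hB.1

/-- a good line has `q - 1` nonisotropic vectors -/
theorem DD_one_line (χ : V →ₗ[K] V →ₗ[K] K) {W : Submodule K V} (hW : Good χ W)
    (h1 : finrank K W = 1) : DD χ (fun _ => 1) W = (Fintype.card K : ℂ) - 1 := by
  rw [DD_apply]
  obtain ⟨w, hw0, hw⟩ := finrank_eq_one_iff'.mp h1
  have hww : χ (w : V) (w : V) ≠ 0 := by
    intro h
    apply hw0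
    apply Subtype.ext
    apply hW _ w.2
    intro x hx
    obtain ⟨c, hc⟩ := hw ⟨x, hx⟩
    have : x = c • (w : V) := by
      have := congrArg Subtype.val hc
      simpa using this.symm
    rw [this]
    simp [h]
  have hiff : ∀ v : V, (v ∈ W ∧ χ v v ≠ 0) ↔ (v ∈ W ∧ v ≠ 0) := by
    intro v
    constructor
    · rintro ⟨hv, h⟩
      refine ⟨hv, ?_⟩
      rintro rfl
      simp at h
    · rintro ⟨hv, h⟩
      refine ⟨hv, ?_⟩
      obtain ⟨c, hc⟩ := hw ⟨v, hv⟩
      have h3 : v = c • (w : V) := by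
        have := congrArg Subtype.val hc
        simpa using this.symm
      have hc0 : c ≠ 0 := by
        rintro rfl
        rw [zero_smul] at h3
        exact h h3
      rw [h3]
      simp [hc0, hww]
  have h4 : ∀ v : V, (if v ∈ W ∧ χ v v ≠ 0 then (1 : ℂ) else 0) =
      (if v ∈ W then (1 : ℂ) else 0) - (if v = 0 then 1 else 0) := by
    intro v
    simp only [hiff v]
    by_cases hv : v ∈ W
    · by_cases hv0 : v = 0
      · simp [hv0]
      · simp [hv, hv0]
    · have hv0 : v ≠ 0 := by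
        rintro rfl
        exact hv W.zero_mem
      simp [hv, hv0]
  simp only [h4]
  rw [sum_sub_distrib, sum_mem_one, nrm, h1, sum_ite_eq' univ (0 : V)]
  simp

section final

variable {ψ : AddChar K ℂ} {χ : V →ₗ[K] V →ₗ[K] K} {N : ℕ} {y : ℂ}

theorem Aj_formula (hψ : ψ ≠ 1) (hχ : ∀ u, (∀ x, χ x u = 0) → u = 0) (hN : finrank K V = N)
    (hH : HH ψ χ N y) (hy : y ^ 2 = (nrm (⊤ : Submodule K V))⁻¹) (j : ℕ) (hj : j < N) :
    Aj χ j = ((Fintype.card K : ℂ) - 1) ^ j * (1 - y) ^ j *
      (Fintype.card K : ℂ) ^ (∑ i ∈ range j, (N - 1 - i)) := by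
  induction j with
  | zero => simp [Aj]
  | succ j ih =>
    rw [Aj_succ hψ hχ hN hH hy j (claim_all hψ hχ hN hH hy j) hj, ih (by omega),
      sum_range_succ, pow_add]
    have hq0 : (Fintype.card K : ℂ) ≠ 0 := card_ne (K := K)
    have h1 : N - j = (N - 1 - j) + 1 := by omega
    rw [h1, pow_succ]
    field_simp
    ring

theorem sum_formula (N : ℕ) (j : ℕ) (hj : j < N) :
    2 * ∑ i ∈ range j, (N - 1 - i) = j * (2 * N - 1 - j) := by
  induction j with
  | zero => simp
  | succ j ih =>
    rw [sum_range_succ, mul_add, ih (by omega)]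
    obtain ⟨m, rfl⟩ : ∃ m, N = j + m + 2 := ⟨N - j - 2, by omega⟩
    have e1 : 2 * (j + m + 2) - 1 - j = j + 2 * m + 3 := by omega
    have e2 : j + m + 2 - 1 - j = m + 1 := by omega
    have e3 : 2 * (j + m + 2) - 1 - (j + 1) = j + 2 * m + 2 := by omega
    rw [e1, e2, e3]
    ring

theorem card_tri (hψ : ψ ≠ 1) (hχ : ∀ u, (∀ x, χ x u = 0) → u = 0) {n : ℕ} (hn : 0 < n)
    (hN : finrank K V = 2 * n)
    (hH : HH ψ χ (2 * n) (-((Fintype.card K : ℂ) ^ n)⁻¹)) :
    (Nat.card {v : Fin (2 * n) → V // Tri χ ⊤ v} : ℂ) =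
      ((Fintype.card K : ℂ) - 1) ^ (2 * n) * ((Fintype.card K : ℂ) ^ n + 1) ^ (2 * n - 1) := by
  have hy : (-((Fintype.card K : ℂ) ^ n)⁻¹) ^ 2 = (nrm (⊤ : Submodule K V))⁻¹ := by
    rw [nrm, finrank_top, hN, neg_sq, inv_pow, ← pow_mul, mul_comm]
  rw [← DD_pow_one]
  obtain ⟨m, hm⟩ : ∃ m, 2 * n = m + 1 := ⟨2 * n - 1, by omega⟩
  rw [hm, pow_succ, Module.End.mul_apply]
  rw [DD_congr χ m ⊤ (good_top hχ) (DD χ (fun _ => 1))
    (((Fintype.card K : ℂ) - 1) • fun _ => 1)]
  · rw [map_smul, Pi.smul_apply, smul_eq_mul]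
    have h1 := Aj_formula hψ hχ hN hH hy m (by omega)
    unfold Aj at h1
    rw [h1]
    have h2 := sum_formula (2 * n) m (by omega)
    have h3 : ∑ i ∈ range m, (2 * n - 1 - i) = n * m := by
      have e : 2 * (2 * n) - 1 - m = 2 * n := by omega
      rw [e] at h2
      have : 2 * ∑ i ∈ range m, (2 * n - 1 - i) = 2 * (n * m) := by rw [h2]; ring
      exact Nat.eq_of_mul_eq_mul_left (by norm_num) this
    rw [h3, pow_mul, Nat.add_sub_cancel]
    have hq0 : (Fintype.card K : ℂ) ^ n ≠ 0 := pow_ne_zero _ (card_ne (K := K))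
    have h4 : (1 - -((Fintype.card K : ℂ) ^ n)⁻¹) ^ m * ((Fintype.card K : ℂ) ^ n) ^ m =
        ((Fintype.card K : ℂ) ^ n + 1) ^ m := by
      rw [← mul_pow]
      congr 1
      field_simp
      ring
    rw [← h4, pow_succ]
    ring
  · intro W hW hWm
    rw [finrank_top] at hWm
    rw [DD_one_line χ hW (by omega)]
    simp

end final

end Pool.Agent.H376.Singer
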