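import Mathlib
import Pool.Agent.H376.Singer.Tuple

/-!
The algebra generated by an irreducible endomorphism.
-/

namespace Pool.Agent.H376.Singer

set_option linter.all false

open Module Finset Polynomial
open scoped Classical

universe u v

variable {K : Type u} [Field K] {V : Type v} [AddCommGroup V] [Module K V]

/-- irreducibility of an endomorphism -/
def Irr (c : V →ₗ[K] V) : Prop := ∀ W : Submodule K V, (∀ x ∈ W, c x ∈ W) → W = ⊥ ∨ W = ⊤

theorem aeval_comm (c : V →ₗ[K] V) (f : K[X]) (x : V) : aeval c f (c x) = c (aeval c f x) := by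
  have h : aeval c f * c = c * aeval c f := by
    have h1 : aeval c f * aeval c (X : K[X]) = aeval c (X : K[X]) * aeval c f := by
      rw [← map_mul, ← map_mul, mul_comm]
    rwa [aeval_X] at h1
  exact LinearMap.congr_fun h x

theorem dichotomy {c : V →ₗ[K] V} (hc : Irr c) (f : K[X]) :
    aeval c f = 0 ∨ ∀ x, aeval c f x = 0 → x = 0 := by
  rcases hc (LinearMap.ker (aeval c f)) (by
    intro x hx
    rw [LinearMap.mem_ker] at hx ⊢
    rw [aeval_comm, hx, map_zero]) with h | h
  · right
    intro x hx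
    have : x ∈ LinearMap.ker (aeval c f) := hx
    rw [h] at this
    exact (Submodule.mem_bot K).mp this
  · left
    exact LinearMap.ker_eq_top.mp h

theorem cyclic {c : V →ₗ[K] V} (hc : Irr c) {v : V} (hv : v ≠ 0) (w : V) :
    ∃ f : K[X], aeval c f v = w := by
  let φ : K[X] →ₗ[K] V := (LinearMap.applyₗ v).comp (aeval c).toLinearMap
  have hφ : ∀ f, φ f = aeval c f v := fun f => rfl
  rcases hc (LinearMap.range φ) (by
    rintro _ ⟨f, rfl⟩
    refine ⟨X * f, ?_⟩
    rw [hφ, hφ, map_mul, aeval_X]
    rfl) with h | h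
  · exfalso
    have : v ∈ LinearMap.range φ := ⟨1, by rw [hφ]; simp⟩
    rw [h] at this
    exact hv ((Submodule.mem_bot K).mp this)
  · have : w ∈ LinearMap.range φ := by rw [h]; exact Submodule.mem_top
    obtain ⟨f, hf⟩ := this
    exact ⟨f, hf⟩

/-- the kernel of evaluation -/
noncomputable def mm (c : V →ₗ[K] V) : Ideal K[X] := RingHom.ker (aeval (R := K) c)

theorem mem_mm {c : V →ₗ[K] V} {f : K[X]} : f ∈ mm c ↔ aeval c f = 0 := by
  unfold mm
  exact RingHom.mem_ker

theorem card_quot {c : V →ₗ[K] V} (hc : Irr c) {v : V} (hv : v ≠ 0) :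
    Nat.card (K[X] ⧸ mm c) = Nat.card V := by
  symm
  apply Nat.card_eq_of_bijective
    (fun w => Ideal.Quotient.mk (mm c) (Classical.choose (cyclic hc hv w)))
  have hch : ∀ w, aeval c (Classical.choose (cyclic hc hv w)) v = w :=
    fun w => Classical.choose_spec (cyclic hc hv w)
  have hker : ∀ f g : K[X], Ideal.Quotient.mk (mm c) f = Ideal.Quotient.mk (mm c) g ↔
      aeval c f v = aeval c g v := by
    intro f g
    rw [Ideal.Quotient.mk_eq_mk_iff_sub_mem, mem_mm, map_sub]
    constructor
    · intro h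
      have := LinearMap.congr_fun h v
      simpa [sub_eq_zero] using this
    · intro h
      rcases dichotomy hc (f - g) with h1 | h1
      · simpa using h1
      · exfalso
        apply hv
        apply h1
        rw [map_sub, LinearMap.sub_apply, h, sub_self]
  constructor
  · intro w w' h
    have := (hker _ _).mp h
    rwa [hch, hch] at this
  · intro x
    obtain ⟨g, rfl⟩ := Ideal.Quotient.mk_surjective x
    refine ⟨aeval c g v, ?_⟩
    rw [hker, hch]

theorem mm_maximal {c : V →ₗ[K] V} (hc : Irr c) {v : V} (hv : v ≠ 0) [Finite V] :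
    (mm c).IsMaximal := by
  have hprime : (mm c).IsPrime := by
    constructor
    · rw [Ideal.ne_top_iff_one, mem_mm]
      intro h
      have := LinearMap.congr_fun h v
      simp at this
      exact hv this
    · intro f g h
      rw [mem_mm, map_mul] at h
      rcases dichotomy hc f with h1 | h1
      · left; exact mem_mm.mpr h1
      · right
        rw [mem_mm]
        ext x
        exact h1 _ (LinearMap.congr_fun h x)
  have hfin : Finite (K[X] ⧸ mm c) := by
    haveI : Nonempty V := ⟨v⟩
    have : 0 < Nat.card (K[X] ⧸ mm c) := by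
      rw [card_quot hc hv]; exact Nat.card_pos
    exact (Nat.card_pos_iff.mp this).2
  haveI : IsDomain (K[X] ⧸ mm c) := Ideal.Quotient.isDomain (mm c)
  exact Ideal.Quotient.maximal_of_isField _ (Finite.isField_of_domain _)

/-- powers in finite cyclic groups -/
theorem exists_pow_eq {F : Type*} [Field F] [Finite F] {Q : ℕ} (hQ : Nat.card F = Q ^ 2)
    (hQ2 : 2 ≤ Q) {a : F} (ha0 : a ≠ 0) (ha : a ^ Q = a) : ∃ e : F, e ^ (Q + 1) = a := by
  haveI := Fintype.ofFinite F
  obtain ⟨g, hg⟩ := IsCyclic.exists_generator (α := Fˣ)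
  obtain ⟨k, hk⟩ := (Subgroup.mem_zpowers_iff).mp (hg (Units.mk0 a ha0))
  have hord : orderOf g = Q ^ 2 - 1 := by
    rw [orderOf_eq_card_of_forall_mem_zpowers hg, Nat.card_eq_fintype_card,
      Fintype.card_units, ← Nat.card_eq_fintype_card, hQ]
  have h1 : (Units.mk0 a ha0) ^ ((Q : ℤ) - 1) = 1 := by
    have h2 : (Units.mk0 a ha0) ^ Q = Units.mk0 a ha0 := by
      ext; simpa using ha
    rw [zpow_sub, zpow_natCast, h2, zpow_one, mul_inv_cancel]
  rw [← hk, ← zpow_mul, ← orderOf_dvd_iff_zpow_eq_one, hord] at h1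
  have h3 : ((Q ^ 2 - 1 : ℕ) : ℤ) = (Q + 1) * (Q - 1) := by
    have : 1 ≤ Q ^ 2 := Nat.one_le_pow _ _ (by omega)
    push_cast [Nat.cast_sub this]
    ring
  rw [h3] at h1
  have h4 : ((Q : ℤ) - 1) ≠ 0 := by
    have : (2 : ℤ) ≤ Q := by exact_mod_cast hQ2
    omega
  have h5 : ((Q : ℤ) + 1) ∣ k := Int.dvd_of_mul_dvd_mul_right h4 h1
  obtain ⟨l, hl⟩ := h5
  refine ⟨((g ^ l : Fˣ) : F), ?_⟩
  have : (g ^ l) ^ (Q + 1) = Units.mk0 a ha0 := by
    rw [← hk, hl, mul_comm, zpow_mul, ← zpow_natCast]
    push_cast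
    rfl
  have := congrArg Units.val this
  simpa using this

section fin

variable [Fintype K] [Finite V]

theorem aeval_frob (c : V →ₗ[K] V) (f : K[X]) (n : ℕ) :
    aeval (c ^ (Fintype.card K ^ n)) f = (aeval c f) ^ (Fintype.card K ^ n) := by
  induction n with
  | zero => simp
  | succ n ih =>
    rw [pow_succ, pow_mul, ← expand_aeval, FiniteField.expand_card, map_pow, ih, ← pow_mul]

theorem exists_scaling {c : V →ₗ[K] V} (hc : Irr c) {n : ℕ} (hn : 0 < n)
    (hV : finrank K V = 2 * n) {s : K} (hs : s ≠ 0) :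
    ∃ f : K[X], (aeval c f) ^ (Fintype.card K ^ n + 1) = s • (1 : V →ₗ[K] V) := by
  haveI := Fintype.ofFinite V
  have hpos : 0 < finrank K V := by omega
  obtain ⟨v, hv⟩ := Module.finrank_pos_iff_exists_ne_zero.mp hpos
  haveI hmax := mm_maximal hc hv
  letI : Field (K[X] ⧸ mm c) := Ideal.Quotient.field _
  have hcard : Nat.card (K[X] ⧸ mm c) = (Fintype.card K ^ n) ^ 2 := by
    rw [card_quot hc hv, Nat.card_eq_fintype_card, Module.card_eq_pow_finrank (K := K), hV,
      ← pow_mul, mul_comm]
  have hK : 2 ≤ Fintype.card K := Fintype.one_lt_card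
  haveI : Finite (K[X] ⧸ mm c) := by
    have : 0 < Nat.card (K[X] ⧸ mm c) := by
      rw [hcard]; positivity
    exact (Nat.card_pos_iff.mp this).2
  have hQ2 : 2 ≤ Fintype.card K ^ n := le_trans hK (Nat.le_self_pow (by omega) _)
  have ha0 : Ideal.Quotient.mk (mm c) (C s) ≠ 0 := by
    rw [Ne, Ideal.Quotient.eq_zero_iff_mem, mem_mm, aeval_C]
    intro h
    have := LinearMap.congr_fun h v
    simp at this
    rcases this with h | h
    · exact hs h
    · exact hv h
  have ha : (Ideal.Quotient.mk (mm c) (C s)) ^ (Fintype.card K ^ n) =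
      Ideal.Quotient.mk (mm c) (C s) := by
    rw [← map_pow, ← map_pow, FiniteField.pow_card_pow]
  obtain ⟨e, he⟩ := exists_pow_eq hcard hQ2 ha0 ha
  obtain ⟨f, rfl⟩ := Ideal.Quotient.mk_surjective e
  refine ⟨f, ?_⟩
  rw [← map_pow, Ideal.Quotient.mk_eq_mk_iff_sub_mem, mem_mm, map_sub, sub_eq_zero, map_pow,
    aeval_C] at he
  rw [he, Algebra.algebraMap_eq_smul_one]

theorem natDegree_lt_inj {c : V →ₗ[K] V} (hc : Irr c) {f : K[X]} (hf : f ≠ 0)
    (hdeg : f.natDegree < finrank K V) : ∀ x, aeval c f x = 0 → x = 0 := by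
  haveI := Fintype.ofFinite V
  rcases dichotomy hc f with h | h
  · exfalso
    have hpos : 0 < finrank K V := by omega
    obtain ⟨v, hv⟩ := Module.finrank_pos_iff_exists_ne_zero.mp hpos
    -- V is spanned by the first `natDegree f` powers
    have hspan : (⊤ : Submodule K V) ≤
        Submodule.span K (Set.range fun i : Fin f.natDegree => aeval c (X ^ (i : ℕ) : K[X]) v) := by
      intro w _
      obtain ⟨g, rfl⟩ := cyclic hc hv w
      have h1 : aeval c g v = aeval c (g % f) v := by
        have : g = f * (g / f) + g % f := (EuclideanDomain.div_add_mod g f).symm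
        conv_lhs => rw [this]
        rw [map_add, map_mul, h]
        simp
      rw [h1]
      have h2 : (g % f).degree < f.degree := EuclideanDomain.mod_lt g hf
      have h3 : g % f ∈ degreeLT K f.natDegree := by
        rw [mem_degreeLT]
        rwa [degree_eq_natDegree hf] at h2
      rw [degreeLT_eq_span_X_pow] at h3
      have h4 : aeval c (g % f) v ∈ Submodule.map
          ((LinearMap.applyₗ v).comp (aeval (R := K) c).toLinearMap)
          (Submodule.span K (((Finset.range f.natDegree).image fun n => (X ^ n : K[X])) :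
            Set K[X])) := ⟨_, h3, rfl⟩
      rw [Submodule.map_span] at h4
      refine Submodule.span_mono ?_ h4
      rintro _ ⟨_, hp, rfl⟩
      rw [Finset.coe_image] at hp
      obtain ⟨i, hi, rfl⟩ := hp
      exact ⟨⟨i, by simpa using hi⟩, rfl⟩
    have h5 := finrank_range_le_card (R := K)
      (fun i : Fin f.natDegree => aeval c (X ^ (i : ℕ) : K[X]) v)
    unfold Set.finrank at h5
    rw [top_le_iff.mp hspan, finrank_top, Fintype.card_fin] at h5
    omega
  · exact h

end fin

end Pool.Agent.H376.Singer
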