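import Mathlib
import Pool.Agent.H376.Singer.Alg

/-!
Evaluation of the Gauss sums of hermitian type.
-/

namespace Pool.Agent.H376.Singer

set_option linter.all false

open Module Finset Polynomial
open scoped Classical

universe u v

/-- a permutation all of whose cycles have length `h` -/
theorem free_dvd {α : Type*} [Fintype α] (σ : Equiv.Perm α) (h : ℕ)
    (H : ∀ a (k : ℕ), (σ ^ k) a = a ↔ h ∣ k) : h ∣ Fintype.card α := by
  rcases isEmpty_or_nonempty α with he | hne
  · rw [Fintype.card_eq_zero]; exact dvd_zero _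
  · obtain ⟨a0⟩ := hne
    have hord : ∀ k : ℕ, orderOf σ ∣ k ↔ h ∣ k := by
      intro k
      rw [orderOf_dvd_iff_pow_eq_one]
      constructor
      · intro hk
        rw [← H a0 k, hk]; rfl
      · intro hk
        ext a
        exact (H a k).mpr hk
    have hh : orderOf σ = h := Nat.dvd_antisymm ((hord h).mpr dvd_rfl) ((hord _).mp dvd_rfl)
    have hst : ∀ b : α, MulAction.stabilizer (Subgroup.zpowers σ) b = ⊥ := by
      intro b
      rw [eq_bot_iff]
      rintro ⟨g, hg⟩ hgb
      rw [MulAction.mem_stabilizer_iff] at hgb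
      obtain ⟨k, rfl⟩ := (mem_zpowers_iff_mem_range_orderOf (x := σ)).mp hg |> Finset.mem_image.mp
        |> fun ⟨k, _, hk⟩ => (⟨k, hk⟩ : ∃ k : ℕ, σ ^ k = g)
      have h1 : (σ ^ k) b = b := hgb
      rw [H] at h1
      rw [Subgroup.mem_bot]
      apply Subtype.ext
      change σ ^ k = 1
      rw [← orderOf_dvd_iff_pow_eq_one, hh]
      exact h1
    have hc := Nat.card_congr (MulAction.selfEquivOrbitsQuotientProd hst)
    rw [Nat.card_prod, Nat.card_zpowers, hh, Nat.card_eq_fintype_card] at hc
    rw [hc]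
    exact dvd_mul_left _ _

variable {K : Type u} [Field K] [Fintype K] {V : Type v} [AddCommGroup V] [Module K V] [Fintype V]

/-- the data of hermitian type -/
structure Herm (c : V →ₗ[K] V) (χ : V →ₗ[K] V →ₗ[K] K) (δ : K) (n : ℕ) : Prop where
  irr : Irr c
  pos : 0 < n
  rank : finrank K V = 2 * n
  ord : ∀ k : ℕ, c ^ k = 1 ↔ (Fintype.card K ^ n + 1) ∣ k
  dd : δ * δ = 1
  adj : ∀ u v, χ (c u) v = δ * χ v u
  nd : ∀ u, (∀ x, χ x u = 0) → u = 0

namespace Herm

variable {c : V →ₗ[K] V} {χ : V →ₗ[K] V →ₗ[K] K} {δ : K} {n : ℕ} (hc : Herm c χ δ n)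

include hc

theorem inv (u v : V) : χ (c u) (c v) = χ u v := by
  rw [hc.adj, hc.adj, ← mul_assoc, hc.dd, one_mul]

theorem cQ : c * c ^ (Fintype.card K ^ n) = 1 := by
  rw [← pow_succ']
  exact (hc.ord _).mpr dvd_rfl

theorem cQ' (v : V) : c ((c ^ (Fintype.card K ^ n)) v) = v :=
  LinearMap.congr_fun hc.cQ v

theorem cQ'' (v : V) : (c ^ (Fintype.card K ^ n)) (c v) = v := by
  have h : c ^ (Fintype.card K ^ n) * c = 1 := by
    rw [← pow_succ]
    exact (hc.ord _).mpr dvd_rfl
  exact LinearMap.congr_fun h v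

theorem adj1 (u v : V) : χ (c u) v = χ u ((c ^ (Fintype.card K ^ n)) v) := by
  rw [← hc.inv u, hc.cQ']

theorem adjk (k : ℕ) : ∀ u v : V, χ ((c ^ k) u) v = χ u (((c ^ (Fintype.card K ^ n)) ^ k) v) := by
  induction k with
  | zero => intro u v; simp
  | succ k ih =>
    intro u v
    rw [pow_succ, pow_succ', Module.End.mul_apply, Module.End.mul_apply, ih, hc.adj1]

theorem adj_aeval (f : K[X]) (u v : V) :
    χ (aeval c f u) v = χ u (aeval (c ^ (Fintype.card K ^ n)) f v) := by
  induction f using Polynomial.induction_on' with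
  | add f g hf hg => simp [hf, hg]
  | monomial k a =>
    rw [aeval_monomial, aeval_monomial]
    simp only [← Algebra.smul_def, LinearMap.smul_apply, map_smul]
    rw [hc.adjk]

theorem herm (f : K[X]) (u v : V) : χ (aeval c f u) (aeval c f v) =
    χ u (((aeval c f) ^ (Fintype.card K ^ n + 1)) v) := by
  rw [hc.adj_aeval, aeval_frob, pow_succ, Module.End.mul_apply]

theorem lnd (z : V) (h : ∀ u, χ z u = 0) : z = 0 := by
  apply hc.nd
  intro x
  rw [← hc.cQ' x, hc.adj, h, mul_zero]

end Herm

section theta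

variable {Y : Type u} [AddCommGroup Y] [Module K Y] {ι : Type*} [Fintype ι]
variable {c : V →ₗ[K] V} {χ : V →ₗ[K] V →ₗ[K] K} {δ : K} {n : ℕ}

theorem Herm.Theta_smul (hc : Herm c χ δ n) {f : K[X]} {s : K}
    (hf : (aeval c f) ^ (Fintype.card K ^ n + 1) = s • (1 : V →ₗ[K] V)) (b : ι → Y)
    (T : Y →ₗ[K] Y →ₗ[K] K) (v : ι → V) :
    Theta b T χ (fun i => aeval c f (v i)) = s * Theta b T χ v := by
  unfold Theta
  rw [mul_sum]
  apply sum_congr rfl; intro i _
  rw [mul_sum]
  apply sum_congr rfl; intro j _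
  rw [hc.herm, hf]
  simp only [LinearMap.smul_apply, Module.End.one_apply, map_smul, smul_eq_mul]
  ring

theorem Herm.Theta_inv (hc : Herm c χ δ n) (b : ι → Y)
    (T : Y →ₗ[K] Y →ₗ[K] K) (v : ι → V) :
    Theta b T χ (fun i => c (v i)) = Theta b T χ v := by
  unfold Theta
  apply sum_congr rfl; intro i _
  apply sum_congr rfl; intro j _
  rw [hc.inv]

/-- the polar form -/
def polarL (b : ι → Y) (T : Y →ₗ[K] Y →ₗ[K] K) (χ : V →ₗ[K] V →ₗ[K] K) (v : ι → V) :
    (ι → V) →ₗ[K] K where
  toFun := fun w => ∑ i, ∑ j, T (b i) (b j) * (χ (v i) (w j) + χ (w i) (v j))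
  map_add' := by
    intro w w'
    rw [← sum_add_distrib]
    apply sum_congr rfl; intro i _
    rw [← sum_add_distrib]
    apply sum_congr rfl; intro j _
    simp only [Pi.add_apply, map_add, LinearMap.add_apply]
    ring
  map_smul' := by
    intro s w
    simp only [RingHom.id_apply, smul_eq_mul]
    rw [mul_sum]
    apply sum_congr rfl; intro i _
    rw [mul_sum]
    apply sum_congr rfl; intro j _
    simp only [Pi.smul_apply, map_smul, LinearMap.smul_apply, smul_eq_mul]
    ring

theorem polarL_apply (b : ι → Y) (T : Y →ₗ[K] Y →ₗ[K] K) (χ : V →ₗ[K] V →ₗ[K] K) (v w : ι → V) :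
    polarL b T χ v w = ∑ i, ∑ j, T (b i) (b j) * (χ (v i) (w j) + χ (w i) (v j)) := rfl

theorem Theta_add (b : ι → Y) (T : Y →ₗ[K] Y →ₗ[K] K) (χ : V →ₗ[K] V →ₗ[K] K) (v w : ι → V) :
    Theta b T χ (v + w) = Theta b T χ v + Theta b T χ w + polarL b T χ v w := by
  rw [polarL_apply]
  unfold Theta
  rw [← sum_add_distrib, ← sum_add_distrib]
  apply sum_congr rfl; intro i _
  rw [← sum_add_distrib, ← sum_add_distrib]
  apply sum_congr rfl; intro j _
  simp only [Pi.add_apply, map_add, LinearMap.add_apply]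
  ring

theorem det_ne_zero {b : Basis ι K Y} {T : Y →ₗ[K] Y →ₗ[K] K} (h0 : ∀ x, T x = 0 → x = 0) :
    (Matrix.of fun j i => T (b i) (b j)).det ≠ 0 := by
  intro h
  obtain ⟨v, hv, hv0⟩ := Matrix.exists_mulVec_eq_zero_iff.mpr h
  apply hv
  have h1 : T (∑ i, v i • b i) = 0 := by
    apply b.ext
    intro j
    have := congrFun hv0 j
    simp only [Matrix.mulVec, dotProduct, Matrix.of_apply, Pi.zero_apply] at this
    simp only [map_sum, map_smul, LinearMap.sum_apply, LinearMap.smul_apply, smul_eq_mul,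
      LinearMap.zero_apply]
    rw [← this]
    apply sum_congr rfl; intro i _
    ring
  have h2 := h0 _ h1
  funext i
  have h3 := (Fintype.linearIndependent_iff.mp b.linearIndependent) v h2 i
  exact h3

theorem Herm.polar_inj (hc : Herm c χ δ n) {b : Basis ι K Y} {T : Y →ₗ[K] Y →ₗ[K] K}
    (h0 : ∀ x, T x = 0 → x = 0) (hι : Fintype.card ι < finrank K V) (v : ι → V)
    (hv : ∀ w, polarL b T χ v w = 0) : v = 0 := by
  -- the linear relations
  have hrel : ∀ j, ∑ i, (T (b i) (b j) • v i + (δ * T (b j) (b i)) • c (v i)) = 0 := by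
    intro j
    apply hc.lnd
    intro u
    have h1 := hv (Pi.single j u)
    rw [polarL_apply] at h1
    have h2 : ∀ i k, T (b i) (b k) * (χ (v i) ((Pi.single j u : ι → V) k) +
        χ ((Pi.single j u : ι → V) i) (v k)) =
        (if k = j then T (b i) (b j) * χ (v i) u else 0) +
        (if i = j then T (b j) (b k) * χ u (v k) else 0) := by
      intro i k
      by_cases hk : k = j
      · subst hk
        by_cases hi : i = k
        · subst hi; simp; ring
        · simp [hi]
      · by_cases hi : i = j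
        · subst hi; simp [hk]
        · simp [hi, hk]
    simp only [h2, sum_add_distrib] at h1
    simp only [sum_ite_eq', mem_univ, if_true] at h1
    rw [sum_comm] at h1
    simp only [sum_ite_eq', mem_univ, if_true] at h1
    simp only [map_sum, map_add, map_smul, LinearMap.sum_apply, LinearMap.add_apply,
      LinearMap.smul_apply, smul_eq_mul]
    rw [sum_add_distrib]
    have h3 : ∀ i, δ * T (b j) (b i) * χ (c (v i)) u = T (b j) (b i) * χ u (v i) := by
      intro i
      rw [hc.adj]
      linear_combination (T (b j) (b i) * χ u (v i)) * hc.dd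
    simp only [h3]
    linear_combination h1
  set A0 : Matrix ι ι K := Matrix.of fun j i => T (b i) (b j) with hA0
  set A1 : Matrix ι ι K := Matrix.of fun j i => δ * T (b j) (b i) with hA1
  set A : Matrix ι ι K[X] := (X : K[X]) • A1.map C + A0.map C with hA
  have hdeg : A.det.natDegree < finrank K V :=
    lt_of_le_of_lt (Polynomial.natDegree_det_X_add_C_le A1 A0) hι
  have hne : A.det ≠ 0 := by
    intro h
    have h4 := Polynomial.coeff_det_X_add_C_zero A1 A0
    rw [← hA, h, coeff_zero] at h4
    exact det_ne_zero h0 h4.symm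
  have hAev : ∀ j i, aeval c (A j i) (v i) =
      T (b i) (b j) • v i + (δ * T (b j) (b i)) • c (v i) := by
    intro j i
    rw [hA]
    simp only [Matrix.add_apply, Matrix.smul_apply, Matrix.map_apply, hA0, hA1, Matrix.of_apply,
      smul_eq_mul, map_add, map_mul, aeval_X, aeval_C, LinearMap.add_apply,
      Module.End.mul_apply, Module.algebraMap_end_apply, map_smul]
    rw [add_comm, mul_comm δ, mul_smul]
  funext k
  apply natDegree_lt_inj hc.irr hne hdeg
  have h5 : ∑ i, aeval c ((A.adjugate * A) k i) (v i) = 0 := by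
    have h6 : ∀ i, aeval c ((A.adjugate * A) k i) (v i) =
        ∑ j, aeval c (A.adjugate k j) (aeval c (A j i) (v i)) := by
      intro i
      rw [Matrix.mul_apply, map_sum, LinearMap.sum_apply]
      apply sum_congr rfl; intro j _
      rw [map_mul, Module.End.mul_apply]
    simp only [h6]
    rw [sum_comm]
    apply sum_eq_zero
    intro j _
    rw [← map_sum]
    simp only [hAev]
    rw [hrel j, map_zero]
  rw [Matrix.adjugate_mul] at h5
  rw [← h5, sum_eq_single k]
  · simp
  · intro i _ hik
    rw [Matrix.smul_apply, Matrix.one_apply_ne (Ne.symm hik)]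
    simp
  · intro h; exact absurd (mem_univ k) h

end theta

end Pool.Agent.H376.Singer
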