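import Mathlib
import Pool.Agent.H376.Singer.Herm

/-!
Evaluation of the Gauss sums of hermitian type, second part.
-/

namespace Pool.Agent.H376.Singer

set_option linter.all false

open Module Finset Polynomial
open scoped Classical

universe u v

variable {K : Type u} [Field K] [Fintype K] {V : Type v} [AddCommGroup V] [Module K V] [Fintype V]

/-- fibre sizes -/
noncomputable def nn {W : Type*} [Fintype W] (Θ : W → K) (s : K) : ℕ :=
  (univ.filter fun v => Θ v = s).card

theorem sum_psi_fiber {W : Type*} [Fintype W] {ψ : AddChar K ℂ} (hψ : ψ ≠ 1) (Θ : W → K)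
    (hn : ∀ s, s ≠ 0 → nn Θ s = nn Θ 1) :
    ∑ v : W, ψ (Θ v) = (nn Θ 0 : ℂ) - (nn Θ 1 : ℂ) := by
  rw [← sum_fiberwise univ Θ]
  have h1 : ∀ s : K, ∑ v ∈ univ.filter (fun v => Θ v = s), ψ (Θ v) =
      (nn Θ 1 : ℂ) * ψ (s * 1) + if s = 0 then ((nn Θ 0 : ℂ) - (nn Θ 1 : ℂ)) else 0 := by
    intro s
    have h2 : ∑ v ∈ univ.filter (fun v => Θ v = s), ψ (Θ v) =
        ∑ v ∈ univ.filter (fun v => Θ v = s), ψ s := by
      apply sum_congr rfl
      intro v hv
      rw [(mem_filter.mp hv).2]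
    rw [h2, sum_const, nsmul_eq_mul, mul_one]
    change (nn Θ s : ℂ) * ψ s = _
    by_cases hs : s = 0
    · subst hs; simp
    · rw [hn s hs, if_neg hs, add_zero]
  simp only [h1]
  rw [sum_add_distrib, ← mul_sum, sum_psi hψ, if_neg one_ne_zero, mul_zero, zero_add,
    sum_ite_eq' univ (0 : K)]
  simp

theorem gauss_sq {W : Type*} [AddCommGroup W] [Module K W] [Fintype W] {ψ : AddChar K ℂ}
    (hψ : ψ ≠ 1) (Θ : W → K) (B : W → (W →ₗ[K] K)) (h00 : Θ 0 = 0)
    (hadd : ∀ v w, Θ (v + w) = Θ v + Θ w + B v w) (hB : ∀ v, (∀ w, B v w = 0) → v = 0) :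
    (∑ v : W, ψ (Θ v)) * (∑ v : W, ψ (- Θ v)) = nrm (⊤ : Submodule K W) := by
  rw [sum_mul_sum, sum_comm]
  have h1 : ∀ w : W, ∑ v : W, ψ (Θ v) * ψ (- Θ w) = ∑ u : W, ψ (Θ u) * ψ (B u w) := by
    intro w
    rw [← Equiv.sum_comp (Equiv.addRight w)]
    apply sum_congr rfl
    intro u _
    rw [Equiv.coe_addRight, hadd, ← AddChar.map_add_eq_mul, ← AddChar.map_add_eq_mul]
    congr 1
    ring
  simp only [h1]
  rw [sum_comm]
  have h2 : ∀ u : W, ∑ w : W, ψ (Θ u) * ψ (B u w) =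
      if u = 0 then nrm (⊤ : Submodule K W) else 0 := by
    intro u
    rw [← mul_sum]
    have h3 := sum_psi_lin hψ (⊤ : Submodule K W) (B u)
    simp only [Submodule.mem_top, if_true, forall_true_left] at h3
    rw [h3]
    by_cases hu : u = 0
    · subst hu
      have h4 : ∀ w, B 0 w = 0 := by
        intro w
        have := hadd 0 w
        rw [zero_add, h00, zero_add] at this
        exact left_eq_add.mp this
      rw [if_pos h4, if_pos rfl, h00]
      simp
    · rw [if_neg (fun h => hu (hB u h)), if_neg hu, mul_zero]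
  simp only [h2]
  rw [sum_ite_eq' univ (0 : W)]
  simp

section

variable {Y : Type u} [AddCommGroup Y] [Module K Y] {ι : Type} [Fintype ι]
variable {c : V →ₗ[K] V} {χ : V →ₗ[K] V →ₗ[K] K} {δ : K} {n : ℕ}

theorem Theta_zero (b : ι → Y) (T : Y →ₗ[K] Y →ₗ[K] K) : Theta b T χ 0 = 0 := by
  simp [Theta]

theorem Herm.nn_eq (hc : Herm c χ δ n) (b : ι → Y) (T : Y →ₗ[K] Y →ₗ[K] K) (s : K)
    (hs : s ≠ 0) : nn (Theta b T χ) s = nn (Theta b T χ) 1 := by
  obtain ⟨f, hf⟩ := exists_scaling hc.irr hc.pos hc.rank hs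
  have hinj : Function.Injective (aeval c f) := by
    rcases dichotomy hc.irr f with h | h
    · exfalso
      have hpos : 0 < finrank K V := by rw [hc.rank]; have := hc.pos; omega
      obtain ⟨v, hv⟩ := Module.finrank_pos_iff_exists_ne_zero.mp hpos
      rw [h, zero_pow (by omega)] at hf
      have h5 : s • v = 0 := (LinearMap.congr_fun hf v).symm
      rcases smul_eq_zero.mp h5 with h | h
      · exact hs h
      · exact hv h
    · rw [← LinearMap.ker_eq_bot, LinearMap.ker_eq_bot']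
      exact h
  have hbij : Function.Bijective (fun (v : ι → V) i => aeval c f (v i)) := by
    rw [Fintype.bijective_iff_injective_and_card]
    refine ⟨?_, rfl⟩
    intro v w h
    funext i
    exact hinj (congrFun h i)
  symm
  apply card_bij (fun v _ => fun i => aeval c f (v i))
  · intro v hv
    rw [mem_filter] at hv ⊢
    refine ⟨mem_univ _, ?_⟩
    rw [hc.Theta_smul hf, hv.2, mul_one]
  · intro v _ w _ h
    exact hbij.1 h
  · intro w hw
    obtain ⟨v, hv⟩ := hbij.2 w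
    refine ⟨v, ?_, hv⟩
    rw [mem_filter] at hw ⊢
    refine ⟨mem_univ _, ?_⟩
    have h1 := hc.Theta_smul hf b T v
    have h2 : (fun i => aeval c f (v i)) = w := hv
    rw [h2, hw.2] at h1
    have h3 : s * (Theta b T χ v - 1) = 0 := by rw [mul_sub, ← h1]; ring
    rcases mul_eq_zero.mp h3 with h | h
    · exact absurd h hs
    · exact sub_eq_zero.mp h

/-- the permutation of the nonzero part of a fibre -/
noncomputable def permS (hc : Herm c χ δ n) (b : ι → Y) (T : Y →ₗ[K] Y →ₗ[K] K) (s : K) :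
    Equiv.Perm {v : ι → V // v ≠ 0 ∧ Theta b T χ v = s} where
  toFun v := ⟨fun i => c (v.1 i), by
    intro h
    apply v.2.1
    funext i
    have := congrFun h i
    rw [← hc.cQ'' (v.1 i), this]
    simp, by rw [hc.Theta_inv]; exact v.2.2⟩
  invFun v := ⟨fun i => (c ^ (Fintype.card K ^ n)) (v.1 i), by
    intro h
    apply v.2.1
    funext i
    have := congrFun h i
    rw [← hc.cQ' (v.1 i), this]
    simp, by
    rw [← hc.Theta_inv]
    have : (fun i => c ((c ^ (Fintype.card K ^ n)) (v.1 i))) = v.1 := by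
      funext i; exact hc.cQ' _
    rw [this]
    exact v.2.2⟩
  left_inv v := by
    apply Subtype.ext
    funext i
    exact hc.cQ'' _
  right_inv v := by
    apply Subtype.ext
    funext i
    exact hc.cQ' _

theorem permS_pow (hc : Herm c χ δ n) (b : ι → Y) (T : Y →ₗ[K] Y →ₗ[K] K) (s : K) (k : ℕ) :
    ∀ v i, (((permS hc b T s) ^ k) v).1 i = (c ^ k) (v.1 i) := by
  induction k with
  | zero => intro v i; simp
  | succ k ih =>
    intro v i
    rw [pow_succ', pow_succ', Equiv.Perm.mul_apply, Module.End.mul_apply, ← ih]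
    rfl

theorem Herm.dvd_nonzero (hc : Herm c χ δ n) (b : ι → Y) (T : Y →ₗ[K] Y →ₗ[K] K) (s : K) :
    (Fintype.card K ^ n + 1) ∣ Fintype.card {v : ι → V // v ≠ 0 ∧ Theta b T χ v = s} := by
  apply free_dvd (permS hc b T s)
  intro v k
  constructor
  · intro h
    rw [← hc.ord]
    obtain ⟨i, hi⟩ := Function.ne_iff.mp v.2.1
    have h1 : (c ^ k) (v.1 i) = v.1 i := by
      rw [← permS_pow hc b T s k v i, h]
    have h2 : aeval c (X ^ k - 1 : K[X]) (v.1 i) = 0 := by
      simp [h1]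
    rcases dichotomy hc.irr (X ^ k - 1 : K[X]) with h3 | h3
    · simpa [sub_eq_zero] using h3
    · exact absurd (h3 _ h2) hi
  · intro h
    rw [← hc.ord] at h
    apply Subtype.ext
    funext i
    rw [permS_pow, h]
    rfl

theorem Herm.gauss (hc : Herm c χ δ n) {ψ : AddChar K ℂ} (hψ : ψ ≠ 1) {b : Basis ι K Y}
    {T : Y →ₗ[K] Y →ₗ[K] K} (h0 : ∀ x, T x = 0 → x = 0) (hι : Fintype.card ι < 2 * n) :
    ∑ v : ι → V, ψ (Theta b T χ v) = (-((Fintype.card K : ℂ) ^ n)) ^ Fintype.card ι := by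
  set Θ := Theta b T χ with hΘ
  set Q : ℕ := Fintype.card K ^ n with hQ
  set M := Fintype.card ι with hM
  have hK : 2 ≤ Fintype.card K := Fintype.one_lt_card
  have hQ2 : 2 ≤ Q := le_trans hK (Nat.le_self_pow (by have := hc.pos; omega) _)
  have hnn := hc.nn_eq b T
  have hG := sum_psi_fiber hψ Θ hnn
  -- the inverse character
  have hψ' : ψ⁻¹ ≠ 1 := by
    intro h
    apply hψ
    rwa [inv_eq_one] at h
  have hG' := sum_psi_fiber hψ' Θ hnn
  have hG'' : ∑ v : ι → V, ψ (- Θ v) = (nn Θ 0 : ℂ) - (nn Θ 1 : ℂ) := by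
    rw [← hG']
    apply sum_congr rfl
    intro v _
    rw [AddChar.inv_apply]
  have hsq := gauss_sq hψ Θ (polarL b T χ) (Theta_zero b T) (Theta_add b T χ)
    (fun v hv => hc.polar_inj h0 (by rw [hc.rank]; exact hι) v hv)
  rw [hG, hG''] at hsq
  have hnrm : nrm (⊤ : Submodule K (ι → V)) = ((-(Q : ℂ)) ^ M) ^ 2 := by
    rw [nrm, finrank_top, Module.finrank_pi_fintype]
    simp only [sum_const, hc.rank, smul_eq_mul, card_univ, ← hM]
    rw [hQ]
    push_cast
    rw [← pow_mul, neg_pow, mul_comm M 2, pow_mul (-1 : ℂ), neg_one_sq, one_pow, one_mul,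
      ← pow_mul]
    congr 1
    ring
  set g : ℤ := (nn Θ 0 : ℤ) - (nn Θ 1 : ℤ) with hg
  have hgsq : g ^ 2 = ((-(Q : ℤ)) ^ M) ^ 2 := by
    have : (g : ℂ) ^ 2 = ((-(Q : ℂ)) ^ M) ^ 2 := by
      rw [← hnrm, ← hsq, hg]
      push_cast
      ring
    exact_mod_cast this
  -- congruences
  have hd1 : ((Q : ℤ) + 1) ∣ (nn Θ 1 : ℤ) := by
    have h1 := hc.dvd_nonzero b T 1
    have h2 : Fintype.card {v : ι → V // v ≠ 0 ∧ Theta b T χ v = 1} = nn Θ 1 := by
      rw [Fintype.card_subtype, nn]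
      congr 1
      ext v
      simp only [mem_filter, mem_univ, true_and]
      constructor
      · exact fun h => h.2
      · intro h
        refine ⟨?_, h⟩
        rintro rfl
        rw [hΘ, Theta_zero] at h
        exact zero_ne_one h
    rw [h2] at h1
    exact_mod_cast h1
  have hd0 : ((Q : ℤ) + 1) ∣ (nn Θ 0 : ℤ) - 1 := by
    have h1 := hc.dvd_nonzero b T 0
    have h2 : Fintype.card {v : ι → V // v ≠ 0 ∧ Theta b T χ v = 0} + 1 = nn Θ 0 := by
      rw [Fintype.card_subtype, nn]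
      have h3 : (univ.filter fun v : ι → V => Θ v = 0) =
          insert 0 (univ.filter fun v : ι → V => v ≠ 0 ∧ Theta b T χ v = 0) := by
        ext v
        simp only [mem_filter, mem_univ, true_and, mem_insert]
        constructor
        · intro h
          by_cases hv : v = 0
          · left; exact hv
          · right; exact ⟨hv, h⟩
        · rintro (rfl | h)
          · exact Theta_zero b T
          · exact h.2
      rw [h3, card_insert_of_notMem]
      simp
    rw [← h2]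
    push_cast
    rw [add_sub_cancel_right]
    exact_mod_cast h1
  have hdg : ((Q : ℤ) + 1) ∣ g - 1 := by
    have := dvd_sub hd0 hd1
    have e : (nn Θ 0 : ℤ) - 1 - (nn Θ 1 : ℤ) = g - 1 := by rw [hg]; ring
    rwa [e] at this
  have hdx : ((Q : ℤ) + 1) ∣ (-(Q : ℤ)) ^ M - 1 := by
    have := sub_dvd_pow_sub_pow (-(Q : ℤ)) 1 M
    rw [one_pow] at this
    have e : -(Q : ℤ) - 1 = -((Q : ℤ) + 1) := by ring
    rw [e, neg_dvd] at this
    exact this
  have hgx : g = (-(Q : ℤ)) ^ M := by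
    rcases sq_eq_sq_iff_eq_or_eq_neg.mp hgsq with h | h
    · exact h
    · exfalso
      have h2 := dvd_add hdg hdx
      have e : g - 1 + ((-(Q : ℤ)) ^ M - 1) = -2 := by rw [h]; ring
      rw [e] at h2
      rw [dvd_neg] at h2
      have := Int.le_of_dvd (by norm_num) h2
      omega
  rw [hG]
  have hgC : ((nn Θ 0 : ℂ) - (nn Θ 1 : ℂ)) = (g : ℂ) := by rw [hg]; push_cast; ring
  rw [hgC, hgx]
  push_cast
  rw [hQ]
  push_cast
  ring

theorem Herm.HH_of (hc : Herm c χ δ n) {ψ : AddChar K ℂ} (hψ : ψ ≠ 1) :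
    HH ψ χ (2 * n) (-((Fintype.card K : ℂ) ^ n)⁻¹) := by
  intro Y _ _ _ T h0 hY
  have h1 := hc.gauss hψ (b := finBasis K Y) h0 (by rw [Fintype.card_fin]; exact hY)
  have h2 : Gam ψ (finBasis K Y) T χ ⊤ =
      (-((Fintype.card K : ℂ) ^ n)) ^ Fintype.card (Fin (finrank K Y)) := by
    rw [← h1]
    unfold Gam tsm
    exact sum_univ_congr _ _ _ _ fun v => if_pos (fun i => Submodule.mem_top)
  rw [gm, h2, Fintype.card_fin, ← mul_pow]
  congr 1
  rw [nrm, finrank_top, hc.rank]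
  have hq : (Fintype.card K : ℂ) ^ n ≠ 0 := pow_ne_zero _ (card_ne (K := K))
  rw [two_mul, pow_add]
  field_simp

theorem gm_flip {ψ : AddChar K ℂ} [FiniteDimensional K Y] (T : Y →ₗ[K] Y →ₗ[K] K)
    (χ : V →ₗ[K] V →ₗ[K] K) (U : Submodule K V) : gm ψ T χ.flip U = gm ψ T.flip χ U := by
  unfold gm Gam
  congr 1
  apply tsm_congr
  intro v
  have : Theta (finBasis K Y) T χ.flip v = Theta (finBasis K Y) T.flip χ v := by
    unfold Theta
    rw [sum_comm]
    rfl
  rw [this]

theorem Herm.HH_flip (hc : Herm c χ δ n) {ψ : AddChar K ℂ} (hψ : ψ ≠ 1) :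
    HH ψ χ.flip (2 * n) (-((Fintype.card K : ℂ) ^ n)⁻¹) := by
  intro Y _ _ _ T h0 hY
  rw [gm_flip]
  exact hc.HH_of hψ Y T.flip (right_nondeg h0) hY

/-- The number of triangular tuples. -/
theorem Herm.card_tri_flip (hc : Herm c χ δ n) :
    Nat.card {v : Fin (2 * n) → V // Tri χ.flip ⊤ v} =
      (Fintype.card K - 1) ^ (2 * n) * (Fintype.card K ^ n + 1) ^ (2 * n - 1) := by
  obtain ⟨ψ, hψ⟩ : ∃ ψ : AddChar K ℂ, ψ ≠ 1 := by
    obtain ⟨ψ, hψ⟩ := AddChar.exists_apply_ne_zero (α := K) (a := 1) |>.mpr one_ne_zero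
    exact ⟨ψ, fun h => hψ (by rw [h]; simp)⟩
  have h := card_tri hψ (χ := χ.flip) (fun z hz => hc.lnd z hz) hc.pos hc.rank (hc.HH_flip hψ)
  have hK : 1 ≤ Fintype.card K := Fintype.card_pos
  have h2 : ((Nat.card {v : Fin (2 * n) → V // Tri χ.flip ⊤ v} : ℕ) : ℂ) =
      (((Fintype.card K - 1) ^ (2 * n) * (Fintype.card K ^ n + 1) ^ (2 * n - 1) : ℕ) : ℂ) := by
    rw [h]
    push_cast [Nat.cast_sub hK]
    ring
  exact_mod_cast h2

end

end Pool.Agent.H376.Singer
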