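import Mathlib
import Pool.Agent.H376.Singer.Herm2

/-!
Products of reflections and triangular tuples.
-/

namespace Pool.Agent.H376.Singer

set_option linter.all false

open Module Finset Polynomial
open scoped Classical

universe u v

variable {K : Type u} [Field K] {V : Type v} [AddCommGroup V] [Module K V]

/-- the map `x ↦ x - (β(x, v)/τ) v` -/
def rfl' (β : V →ₗ[K] V →ₗ[K] K) (v : V) (τ : K) : V →ₗ[K] V :=
  LinearMap.id - (τ⁻¹ • β.flip v).smulRight v

theorem rfl'_apply (β : V →ₗ[K] V →ₗ[K] K) (v : V) (τ : K) (x : V) :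
    rfl' β v τ x = x - (τ⁻¹ * β x v) • v := by
  simp [rfl']

/-- the triangular system -/
def Sys (β : V →ₗ[K] V →ₗ[K] K) {j : ℕ} (v : Fin j → V) (τ : Fin j → K) (x : V)
    (a : Fin j → K) : Prop :=
  ∀ i, τ i * a i + ∑ k, (if i < k then a k * β (v k) (v i) else 0) = β x (v i)

theorem sys_cons (β : V →ₗ[K] V →ₗ[K] K) {j : ℕ} (w : V) (s : K) (v : Fin j → V) (τ : Fin j → K)
    (x : V) (a0 : K) (a : Fin j → K) :
    Sys β (Fin.cons w v : Fin (j + 1) → V) (Fin.cons s τ : Fin (j + 1) → K) x
      (Fin.cons a0 a : Fin (j + 1) → K) ↔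
      (s * a0 + ∑ k, a k * β (v k) w = β x w) ∧ Sys β v τ x a := by
  unfold Sys
  rw [Fin.forall_fin_succ]
  simp only [Fin.cons_zero, Fin.cons_succ, Fin.sum_univ_succ, Fin.succ_lt_succ_iff,
    lt_irrefl, if_false, zero_add, Fin.succ_pos, if_true, Fin.not_lt_zero]

theorem prod_of_sys (β : V →ₗ[K] V →ₗ[K] K) : ∀ {j : ℕ} (v : Fin j → V) (τ : Fin j → K)
    (hτ : ∀ i, τ i ≠ 0) (x : V) (a : Fin j → K), Sys β v τ x a →
      (List.ofFn fun i => rfl' β (v i) (τ i)).prod x = x - ∑ i, a i • v i := by
  intro j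
  induction j with
  | zero => intro v τ _ x a _; simp
  | succ j ih =>
    intro v τ hτ x a h
    have ev : v = Fin.cons (v 0) (Fin.tail v) := (Fin.cons_self_tail v).symm
    have eτ : τ = Fin.cons (τ 0) (Fin.tail τ) := (Fin.cons_self_tail τ).symm
    have ea : a = Fin.cons (a 0) (Fin.tail a) := (Fin.cons_self_tail a).symm
    rw [ev, eτ, ea, sys_cons] at h
    rw [List.ofFn_succ, List.prod_cons, Module.End.mul_apply,
      ih (fun i => v i.succ) (fun i => τ i.succ) (fun i => hτ _) x (Fin.tail a) h.2, rfl'_apply,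
      Fin.sum_univ_succ]
    have h1 : β (x - ∑ i, Fin.tail a i • v i.succ) (v 0) = τ 0 * a 0 := by
      rw [map_sub, LinearMap.sub_apply, ← h.1, map_sum, LinearMap.sum_apply]
      simp only [map_smul, LinearMap.smul_apply, smul_eq_mul, Fin.tail]
      ring
    rw [h1, ← mul_assoc, inv_mul_cancel₀ (hτ 0), one_mul]
    simp only [Fin.tail]
    abel

theorem exists_sys (β : V →ₗ[K] V →ₗ[K] K) : ∀ {j : ℕ} (v : Fin j → V) (τ : Fin j → K)
    (hτ : ∀ i, τ i ≠ 0) (x : V), ∃ a : Fin j → K, Sys β v τ x a := by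
  intro j
  induction j with
  | zero => intro v τ _ x; exact ⟨Fin.elim0, fun i => i.elim0⟩
  | succ j ih =>
    intro v τ hτ x
    obtain ⟨a, ha⟩ := ih (Fin.tail v) (Fin.tail τ) (fun i => hτ _) x
    refine ⟨Fin.cons ((τ 0)⁻¹ * (β x (v 0) - ∑ k, a k * β (Fin.tail v k) (v 0))) a, ?_⟩
    rw [← Fin.cons_self_tail v, ← Fin.cons_self_tail τ, sys_cons]
    refine ⟨?_, ha⟩
    simp only [Fin.cons_self_tail, Fin.cons_zero]
    rw [← mul_assoc, mul_inv_cancel₀ (hτ 0), one_mul]
    ring

/-- the setup: an isometry `c` of an `ε`-symmetric nondegenerate form -/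
structure Iso (β : V →ₗ[K] V →ₗ[K] K) (ε : K) (c : V →ₗ[K] V) : Prop where
  sym : ∀ x y, β y x = ε * β x y
  ee : ε * ε = 1
  pres : ∀ x y, β (c x) (c y) = β x y
  nd : ∀ x, (∀ y, β x y = 0) → x = 0

/-- the map `1 - c` -/
def omc (c : V →ₗ[K] V) : V →ₗ[K] V := LinearMap.id - c

theorem omc_apply (c : V →ₗ[K] V) (x : V) : omc c x = x - c x := rfl

section

variable {β : V →ₗ[K] V →ₗ[K] K} {ε : K} {c : V →ₗ[K] V}

theorem Iso.nd' (h : Iso β ε c) (x : V) (hx : ∀ y, β y x = 0) : x = 0 := by
  apply h.nd
  intro y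
  have h1 := h.sym y x
  rw [hx] at h1
  rw [h1, mul_zero]

/-- the form `χ` -/
def chi (β : V →ₗ[K] V →ₗ[K] K) (R : V →ₗ[K] V) : V →ₗ[K] V →ₗ[K] K := β ∘ₗ R

theorem chi_apply (β : V →ₗ[K] V →ₗ[K] K) (R : V →ₗ[K] V) (u w : V) :
    chi β R u w = β (R u) w := rfl

variable {R : V →ₗ[K] V} (hR : ∀ x, omc c (R x) = x) (hR' : ∀ x, R (omc c x) = x)

include hR in
theorem Iso.chi_add (h : Iso β ε c) (u w : V) : chi β R u w + ε * chi β R w u = β u w := by
  rw [chi_apply, chi_apply]
  have hu := hR u
  have hw := hR w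
  set a := R u
  set b := R w
  rw [← hu, ← hw, omc_apply, omc_apply]
  simp only [map_sub, LinearMap.sub_apply]
  rw [h.pres, h.sym a b, h.sym (c a) b]
  linear_combination (β a b - β (c a) b) * h.ee

include hR hR' in
theorem Iso.chi_adj (h : Iso β ε c) (u w : V) : chi β R (c u) w = (-ε) * chi β R w u := by
  have h1 := h.chi_add hR u w
  have h2 : R (c u) = R u - u := by
    have h3 : c u = u - omc c u := by rw [omc_apply]; abel
    rw [h3, map_sub, hR']
  rw [chi_apply, h2, map_sub, LinearMap.sub_apply, ← chi_apply β R u w, ← h1]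
  ring

include hR hR' in
theorem Iso.chi_nd (h : Iso β ε c) (u : V) (hu : ∀ x, chi β R x u = 0) : u = 0 := by
  apply h.nd'
  intro y
  have := hu (omc c y)
  rwa [chi_apply, hR'] at this

include hR hR' in
/-- products of reflections equal to `c` -/
theorem Iso.prod_eq_iff (h : Iso β ε c) {N : ℕ} (hN : finrank K V = N) (hN0 : 0 < N)
    (v : Fin N → V) (τ : Fin N → K) (hτ : ∀ i, τ i ≠ 0) :
    (List.ofFn fun i => rfl' β (v i) (τ i)).prod = c ↔
      (∀ i, chi β R (v i) (v i) = τ i) ∧ ∀ i k, i < k → chi β R (v i) (v k) = 0 := by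
  haveI : FiniteDimensional K V := Module.finite_of_finrank_pos (by omega)
  constructor
  · intro hp
    have hx : ∀ x, ∃ a : Fin N → K, Sys β v τ x a ∧ omc c x = ∑ i, a i • v i := by
      intro x
      obtain ⟨a, ha⟩ := exists_sys β v τ hτ x
      refine ⟨a, ha, ?_⟩
      have h1 := prod_of_sys β v τ hτ x a ha
      rw [hp] at h1
      rw [omc_apply, h1]
      abel
    have hspan : (⊤ : Submodule K V) ≤ Submodule.span K (Set.range v) := by
      intro u _
      obtain ⟨a, _, ha⟩ := hx (R u)
      rw [hR] at ha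
      rw [ha]
      exact Submodule.sum_mem _ fun i _ => Submodule.smul_mem _ _
        (Submodule.subset_span ⟨i, rfl⟩)
    have hli : LinearIndependent K v :=
      linearIndependent_of_top_le_span_of_card_eq_finrank hspan (by rw [Fintype.card_fin, hN])
    have key : ∀ k i, τ i * (if i = k then 1 else 0) + (if i < k then β (v k) (v i) else 0) =
        chi β R (v k) (v i) := by
      intro k i
      obtain ⟨a, ha, hs⟩ := hx (R (v k))
      rw [hR] at hs
      have h2 : ∀ l, a l = if l = k then 1 else 0 := by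
        intro l
        have h3 : ∑ i, (a i - if i = k then 1 else 0) • v i = 0 := by
          simp only [sub_smul, sum_sub_distrib, ite_smul, one_smul, zero_smul, sum_ite_eq',
            mem_univ, if_true]
          rw [← hs, sub_self]
        exact sub_eq_zero.mp ((Fintype.linearIndependent_iff.mp hli) _ h3 l)
      have h4 := ha i
      simp only [h2] at h4
      rw [chi_apply, ← h4]
      congr 1
      rw [sum_eq_single k]
      · simp
      · intro l _ hl; simp [hl]
      · intro hh; exact absurd (mem_univ k) hh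
    refine ⟨?_, ?_⟩
    · intro i
      rw [← key i i]; simp
    · intro i k hik
      rw [← key i k, if_neg (ne_of_gt hik), if_neg (not_lt_of_gt hik)]; simp
  · rintro ⟨h1, h2⟩
    -- linear independence
    set M : Matrix (Fin N) (Fin N) K := Matrix.of fun i k => chi β R (v k) (v i) with hM
    have htri : M.BlockTriangular id := by
      intro i k hik
      rw [hM, Matrix.of_apply]
      exact h2 k i hik
    have hdet : M.det ≠ 0 := by
      rw [Matrix.det_of_upperTriangular htri]
      apply prod_ne_zero_iff.mpr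
      intro i _
      rw [hM, Matrix.of_apply, h1]
      exact hτ i
    have hli : LinearIndependent K v := by
      rw [Fintype.linearIndependent_iff]
      intro a ha i
      have h3 : M.mulVec a = 0 := by
        funext i
        have h4 : chi β R (∑ k, a k • v k) (v i) = 0 := by rw [ha]; simp
        simp only [map_sum, map_smul, LinearMap.sum_apply, LinearMap.smul_apply,
          smul_eq_mul] at h4
        simp only [Matrix.mulVec, dotProduct, hM, Matrix.of_apply, Pi.zero_apply]
        rw [← h4]
        apply sum_congr rfl; intro k _; ring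
      exact congrFun (Matrix.eq_zero_of_mulVec_eq_zero hdet h3) i
    have hspan : Submodule.span K (Set.range v) = ⊤ :=
      hli.span_eq_top_of_card_eq_finrank' (by rw [Fintype.card_fin, hN])
    apply LinearMap.ext
    intro x
    have hmem : omc c x ∈ Submodule.span K (Set.range v) := by
      rw [hspan]; exact Submodule.mem_top
    obtain ⟨a, ha⟩ := (Submodule.mem_span_range_iff_exists_fun K).mp hmem
    rw [prod_of_sys β v τ hτ x a, ha, omc_apply]
    · abel
    · intro i
      have h5 : β x (v i) = chi β R (omc c x) (v i) := by rw [chi_apply, hR']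
      rw [h5, ← ha]
      simp only [map_sum, map_smul, LinearMap.sum_apply, LinearMap.smul_apply, smul_eq_mul]
      have h6 : ∀ k, a k * chi β R (v k) (v i) =
          (if k = i then τ i * a i else 0) + (if i < k then a k * β (v k) (v i) else 0) := by
        intro k
        rcases lt_trichotomy k i with hlt | heq | hgt
        · rw [h2 k i hlt, if_neg (ne_of_lt hlt), if_neg (not_lt_of_gt hlt)]; ring
        · subst heq
          rw [h1, if_pos rfl, if_neg (lt_irrefl _)]; ring
        · rw [if_neg (ne_of_gt hgt), if_pos hgt, ← h.chi_add hR (v k) (v i), h2 i k hgt]; ring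
      simp only [h6]
      rw [sum_add_distrib, sum_ite_eq' univ i]
      simp

end

end Pool.Agent.H376.Singer
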