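import Mathlib
import Pool.Agent.H376.Singer.Prod

/-!
Counting factorizations.
-/

namespace Pool.Agent.H376.Singer

set_option linter.all false

open Module Finset Polynomial
open scoped Classical

universe u v

variable {K : Type u} [Field K] [Fintype K] {V : Type v} [AddCommGroup V] [Module K V]

theorem coe_prod {j : ℕ} (t : Fin j → (V ≃ₗ[K] V)) :
    (((List.ofFn t).prod : V ≃ₗ[K] V) : V →ₗ[K] V) =
      (List.ofFn fun i => ((t i : V ≃ₗ[K] V) : V →ₗ[K] V)).prod := by
  have h := map_list_prod (LinearEquiv.automorphismGroup.toLinearMapMonoidHom (R := K) (M := V))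
    (List.ofFn t)
  rw [List.map_ofFn] at h
  exact h

theorem rfl'_scale (β : V →ₗ[K] V →ₗ[K] K) (v : V) (τ : K) {s : K} (hs : s ≠ 0) :
    rfl' β (s • v) (s ^ 2 * τ) = rfl' β v τ := by
  ext x
  rw [rfl'_apply, rfl'_apply, map_smul, smul_smul, smul_eq_mul]
  congr 2
  by_cases hτ : τ = 0
  · simp [hτ]
  · field_simp

/-- The abstract count. -/
theorem count_fact {β : V →ₗ[K] V →ₗ[K] K} {ε : K} {c : V ≃ₗ[K] V} (hiso : Iso β ε c)
    (hirr : Irr (c : V →ₗ[K] V)) {n : ℕ} (hn : 0 < n) (hV : finrank K V = 2 * n)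
    (hord : orderOf c = Fintype.card K ^ n + 1) (RR : Set (V ≃ₗ[K] V))
    (ha : ∀ t ∈ RR, ∃ v : V, v ≠ 0 ∧ ∃ τ : K, τ ≠ 0 ∧ (t : V →ₗ[K] V) = rfl' β v τ)
    (hb : ∀ R : V →ₗ[K] V, (∀ x, omc (c : V →ₗ[K] V) (R x) = x) → ∀ v : V, chi β R v v ≠ 0 →
      ∃ t ∈ RR, (t : V →ₗ[K] V) = rfl' β v (chi β R v v)) :
    Nat.card {t : Fin (2 * n) → (V ≃ₗ[K] V) // (∀ i, t i ∈ RR) ∧ (List.ofFn t).prod = c} =
      (Fintype.card K ^ n + 1) ^ (2 * n - 1) := by
  haveI : FiniteDimensional K V := Module.finite_of_finrank_pos (by omega)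
  haveI : Finite V := Module.finite_of_finite K
  haveI : Fintype V := Fintype.ofFinite V
  have hKc : 2 ≤ Fintype.card K := Fintype.one_lt_card
  have hQ2 : 2 ≤ Fintype.card K ^ n := le_trans hKc (Nat.le_self_pow (by omega) _)
  -- 1 - c is bijective
  have hinj : ∀ x, omc (c : V →ₗ[K] V) x = 0 → x = 0 := by
    have h1 : aeval (c : V →ₗ[K] V) (1 - X : K[X]) = omc (c : V →ₗ[K] V) := by
      rw [map_sub, map_one, aeval_X]; rfl
    rcases dichotomy hirr (1 - X : K[X]) with h2 | h2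
    · exfalso
      rw [h1] at h2
      have h3 : c = 1 := by
        ext x
        have := LinearMap.congr_fun h2 x
        rw [omc_apply] at this
        exact (sub_eq_zero.mp this).symm
      rw [h3, orderOf_one] at hord
      omega
    · rwa [h1] at h2
  obtain ⟨R, hR, hR'⟩ : ∃ R : V →ₗ[K] V, (∀ x, omc (c : V →ₗ[K] V) (R x) = x) ∧
      ∀ x, R (omc (c : V →ₗ[K] V) x) = x := by
    let e := LinearEquiv.ofInjectiveEndo (omc (c : V →ₗ[K] V))
      (by rw [← LinearMap.ker_eq_bot, LinearMap.ker_eq_bot']; exact hinj)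
    exact ⟨e.symm, fun x => e.apply_symm_apply x, fun x => e.symm_apply_apply x⟩
  set χ := chi β R with hχ
  have hH : Herm (c : V →ₗ[K] V) χ (-ε) n := by
    refine ⟨hirr, hn, hV, ?_, ?_, ?_, ?_⟩
    · intro k
      rw [← hord, orderOf_dvd_iff_pow_eq_one]
      have h1 : ((c ^ k : V ≃ₗ[K] V) : V →ₗ[K] V) = (c : V →ₗ[K] V) ^ k :=
        map_pow (LinearEquiv.automorphismGroup.toLinearMapMonoidHom (R := K) (M := V)) c k
      rw [← h1]
      constructor
      · intro h
        ext x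
        exact LinearMap.congr_fun h x
      · intro h
        rw [h]; rfl
    · rw [neg_mul_neg]; exact hiso.ee
    · intro u w
      exact hiso.chi_adj hR hR' u w
    · exact hiso.chi_nd hR hR'
  have hcount := hH.card_tri_flip
  -- choose vectors
  choose! vec hvec tau htau hrf using ha
  have hmain : ∀ (v : Fin (2 * n) → V) (τ : Fin (2 * n) → K) (hτ : ∀ i, τ i ≠ 0),
      (List.ofFn fun i => rfl' β (v i) (τ i)).prod = (c : V →ₗ[K] V) ↔
      (∀ i, χ (v i) (v i) = τ i) ∧ ∀ i k, i < k → χ (v i) (v k) = 0 :=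
    fun v τ hτ => hiso.prod_eq_iff hR hR' hV (by omega) v τ hτ
  have e : {t : Fin (2 * n) → (V ≃ₗ[K] V) // (∀ i, t i ∈ RR) ∧ (List.ofFn t).prod = c} ×
      (Fin (2 * n) → Kˣ) ≃ {v : Fin (2 * n) → V // Tri χ.flip ⊤ v} := by
    have hf : ∀ p : {t : Fin (2 * n) → (V ≃ₗ[K] V) // (∀ i, t i ∈ RR) ∧
        (List.ofFn t).prod = c} × (Fin (2 * n) → Kˣ),
        (∀ i, χ ((p.2 i : K) • vec (p.1.1 i)) ((p.2 i : K) • vec (p.1.1 i)) =
          (p.2 i : K) ^ 2 * tau (p.1.1 i)) ∧ ∀ i k, i < k →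
          χ ((p.2 i : K) • vec (p.1.1 i)) ((p.2 k : K) • vec (p.1.1 k)) = 0 := by
      rintro ⟨⟨t, ht, htp⟩, s⟩
      rw [← hmain (fun i => (s i : K) • vec (t i)) (fun i => (s i : K) ^ 2 * tau (t i))
        (fun i => mul_ne_zero (pow_ne_zero _ (s i).ne_zero) (htau _ (ht i)))]
      rw [← htp, coe_prod]
      congr 1
      congr 1
      funext i
      rw [rfl'_scale β _ _ (s i).ne_zero, ← hrf _ (ht i)]
    refine Equiv.ofBijective (fun p => ⟨fun i => (p.2 i : K) • vec (p.1.1 i), ?_⟩) ⟨?_, ?_⟩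
    · refine ⟨fun i => ⟨Submodule.mem_top, ?_⟩, ?_⟩
      · rw [LinearMap.flip_apply, (hf p).1 i]
        exact mul_ne_zero (pow_ne_zero _ (p.2 i).ne_zero) (htau _ (p.1.2.1 i))
      · intro i k hik
        exact (hf p).2 i k hik
    · rintro p p' hpp
      have hv : ∀ i, (p.2 i : K) • vec (p.1.1 i) = (p'.2 i : K) • vec (p'.1.1 i) := by
        intro i
        exact congrFun (congrArg Subtype.val hpp) i
      have ht : ∀ i, p.1.1 i = p'.1.1 i := by
        intro i
        have hs : ∀ p : {t : Fin (2 * n) → (V ≃ₗ[K] V) // (∀ i, t i ∈ RR) ∧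
            (List.ofFn t).prod = c} × (Fin (2 * n) → Kˣ),
            rfl' β (vec (p.1.1 i)) (tau (p.1.1 i)) = rfl' β ((p.2 i : K) • vec (p.1.1 i))
              (χ ((p.2 i : K) • vec (p.1.1 i)) ((p.2 i : K) • vec (p.1.1 i))) := by
          intro p
          rw [(hf p).1 i, rfl'_scale β _ _ (p.2 i).ne_zero]
        have h1 : ((p.1.1 i : V ≃ₗ[K] V) : V →ₗ[K] V) = (p'.1.1 i : V ≃ₗ[K] V) := by
          rw [hrf _ (p.1.2.1 i), hrf _ (p'.1.2.1 i), hs p, hs p', hv i]
        exact LinearEquiv.toLinearMap_injective h1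
      apply Prod.ext
      · apply Subtype.ext
        funext i
        exact ht i
      · funext i
        have h2 := hv i
        rw [ht i] at h2
        have h3 := smul_left_injective K (hvec _ (p'.1.2.1 i)) h2
        exact Units.ext h3
    · rintro ⟨v, hv⟩
      have hvv : ∀ i, χ (v i) (v i) ≠ 0 := fun i => (hv.1 i).2
      choose t ht htr using fun i => hb R hR (v i) (hvv i)
      have hs : ∀ i, ∃ s : Kˣ, (s : K) • vec (t i) = v i := by
        intro i
        have h1 : rfl' β (v i) (χ (v i) (v i)) = rfl' β (vec (t i)) (tau (t i)) := by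
          rw [← htr i, ← hrf _ (ht i)]
        have hvi : v i ≠ 0 := by
          intro h
          apply hvv i
          rw [h]; simp
        obtain ⟨x, hx⟩ : ∃ x, β x (v i) ≠ 0 := by
          by_contra hcon
          push Not at hcon
          exact hvi (hiso.nd' _ hcon)
        have h2 := LinearMap.congr_fun h1 x
        rw [rfl'_apply, rfl'_apply] at h2
        have h3 : ((χ (v i) (v i))⁻¹ * β x (v i)) • v i =
            ((tau (t i))⁻¹ * β x (vec (t i))) • vec (t i) := sub_right_injective h2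
        have h4 : (χ (v i) (v i))⁻¹ * β x (v i) ≠ 0 := mul_ne_zero (inv_ne_zero (hvv i)) hx
        have h5 : v i = (((χ (v i) (v i))⁻¹ * β x (v i))⁻¹ *
            ((tau (t i))⁻¹ * β x (vec (t i)))) • vec (t i) := by
          rw [mul_smul, ← h3, smul_smul, inv_mul_cancel₀ h4, one_smul]
        have h6 : (((χ (v i) (v i))⁻¹ * β x (v i))⁻¹ *
            ((tau (t i))⁻¹ * β x (vec (t i)))) ≠ 0 := by
          intro h
          rw [h, zero_smul] at h5
          exact hvi h5
        exact ⟨Units.mk0 _ h6, h5.symm⟩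
      choose s hs using hs
      refine ⟨(⟨t, ht, ?_⟩, s), ?_⟩
      · apply LinearEquiv.toLinearMap_injective
        rw [coe_prod]
        have h7 : (fun i => ((t i : V ≃ₗ[K] V) : V →ₗ[K] V)) =
            fun i => rfl' β (v i) (χ (v i) (v i)) := by
          funext i; exact htr i
        rw [h7, hmain v (fun i => χ (v i) (v i)) hvv]
        exact ⟨fun i => rfl, fun i k hik => hv.2 i k hik⟩
      · apply Subtype.ext
        funext i
        exact hs i
  have hcard := Nat.card_congr e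
  rw [Nat.card_prod, hcount, Nat.card_fun, Nat.card_fin, Nat.card_eq_fintype_card (α := Kˣ),
    Fintype.card_units] at hcard
  have hpos : 0 < (Fintype.card K - 1) ^ (2 * n) := Nat.pow_pos (by omega)
  rw [mul_comm] at hcard
  exact Nat.eq_of_mul_eq_mul_left hpos hcard

end Pool.Agent.H376.Singer
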