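import Mathlib
import Pool.Agent.H376.Singer.Fact

/-!
Reflections in symplectic and orthogonal groups.
-/

namespace Pool.Agent.H376.Singer

set_option linter.all false

open Module

universe u v

variable {K : Type u} [Field K] {V : Type v} [AddCommGroup V] [Module K V]

/-- an automorphism fixing a hyperplane pointwise -/
theorem hyper [FiniteDimensional K V] (t : V ≃ₗ[K] V) (H : Submodule K V)
    (hH : finrank K H + 1 = finrank K V) (ht : ∀ x ∈ H, t x = x) :
    ∃ (φ : V →ₗ[K] K) (w : V), φ w = 1 ∧ ∀ x, t x = x + φ x • (t w - w) := by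
  have hlt : H < ⊤ := by
    rw [lt_top_iff_ne_top]
    rintro rfl
    rw [finrank_top] at hH
    omega
  obtain ⟨f, hf0, hf⟩ := Submodule.exists_le_ker_of_lt_top H hlt
  have hker : H = LinearMap.ker f := by
    apply Submodule.eq_of_le_of_finrank_eq hf
    have := Module.Dual.finrank_ker_add_one_of_ne_zero hf0
    omega
  obtain ⟨w, hw⟩ : ∃ w, f w ≠ 0 := by
    by_contra hcon
    push Not at hcon
    exact hf0 (LinearMap.ext hcon)
  refine ⟨(f w)⁻¹ • f, w, by simp [hw], ?_⟩
  intro x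
  have h1 : x - ((f w)⁻¹ • f) x • w ∈ H := by
    rw [hker, LinearMap.mem_ker, map_sub, map_smul]
    simp only [LinearMap.smul_apply, smul_eq_mul]
    field_simp
    ring
  have h2 := ht _ h1
  rw [map_sub, map_smul] at h2
  rw [smul_sub]
  have h3 : t x = x - ((f w)⁻¹ • f) x • w + ((f w)⁻¹ • f) x • t w := by
    rw [← h2]; abel
  rw [h3]; abel

theorem mk_refl [FiniteDimensional K V] {β : V →ₗ[K] V →ₗ[K] K}
    (hnd : ∀ x, (∀ y, β y x = 0) → x = 0) {v : V} (hv : v ≠ 0) {τ : K} (hτ : τ ≠ 0)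
    (hinj : ∀ x, rfl' β v τ x = 0 → x = 0) :
    ∃ t : V ≃ₗ[K] V, (t : V →ₗ[K] V) = rfl' β v τ ∧ (∀ x, t x = x - (τ⁻¹ * β x v) • v) ∧ t ≠ 1 ∧
      ∃ H : Submodule K V, finrank K H + 1 = finrank K V ∧ ∀ x ∈ H, t x = x := by
  obtain ⟨x0, hx0⟩ : ∃ x, β x v ≠ 0 := by
    by_contra hcon
    push Not at hcon
    exact hv (hnd _ hcon)
  let t := LinearEquiv.ofInjectiveEndo (rfl' β v τ)
    (by rw [← LinearMap.ker_eq_bot, LinearMap.ker_eq_bot']; exact hinj)
  have ht : ∀ x, t x = x - (τ⁻¹ * β x v) • v := fun x => rfl'_apply β v τ x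
  refine ⟨t, ?_, ht, ?_, LinearMap.ker (β.flip v), ?_, ?_⟩
  · ext x
    rfl
  · intro h
    have h1 := ht x0
    rw [h] at h1
    have h2 : (τ⁻¹ * β x0 v) • v = 0 := by
      have h3 : x0 = x0 - (τ⁻¹ * β x0 v) • v := h1
      exact (sub_eq_self.mp h3.symm)
    rcases smul_eq_zero.mp h2 with h | h
    · exact mul_ne_zero (inv_ne_zero hτ) hx0 h
    · exact hv h
  · apply Module.Dual.finrank_ker_add_one_of_ne_zero
    intro h
    exact hx0 (LinearMap.congr_fun h x0)
  · intro x hx
    rw [LinearMap.mem_ker, LinearMap.flip_apply] at hx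
    rw [ht, hx]
    simp

/-- reflections of a symplectic group, one direction -/
theorem sp_ha [FiniteDimensional K V] {ω : V →ₗ[K] V →ₗ[K] K} (halt : ∀ x, ω x x = 0)
    (hnd : ∀ x, (∀ y, ω x y = 0) → x = 0) (t : V ≃ₗ[K] V)
    (hG : ∀ x y, ω (t x) (t y) = ω x y) (h1 : t ≠ 1) (H : Submodule K V)
    (hH : finrank K H + 1 = finrank K V) (ht : ∀ x ∈ H, t x = x) :
    ∃ v : V, v ≠ 0 ∧ ∃ τ : K, τ ≠ 0 ∧ (t : V →ₗ[K] V) = rfl' ω v τ := by
  have hskew : ∀ x y, ω y x = - ω x y := by
    intro x y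
    have := halt (x + y)
    rw [map_add, map_add, LinearMap.add_apply, LinearMap.add_apply, halt, halt] at this
    linear_combination this
  obtain ⟨φ, w, hw, htx⟩ := hyper t H hH ht
  set a := t w - w with ha
  have ha0 : a ≠ 0 := by
    intro h
    apply h1
    ext x
    rw [htx x, h]
    simp
  have hωa : ∀ x, ω x a = φ x * ω w a := by
    intro x
    have h2 := hG x w
    rw [htx x, htx w, hw, one_smul] at h2
    simp only [map_add, map_smul, LinearMap.add_apply, LinearMap.smul_apply, smul_eq_mul,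
      halt a] at h2
    have h3 := hskew a w
    linear_combination h2 - φ x * h3
  have hwa : ω w a ≠ 0 := by
    intro h
    apply ha0
    apply hnd
    intro y
    rw [hskew y a, hωa, h]; ring
  refine ⟨a, ha0, -(ω w a), neg_ne_zero.mpr hwa, ?_⟩
  ext x
  rw [rfl'_apply, hωa x]
  change t x = _
  rw [htx x]
  have h4 : (-(ω w a))⁻¹ * (φ x * ω w a) = - φ x := by
    field_simp
  rw [h4, neg_smul, sub_neg_eq_add]

/-- reflections of a symplectic group, other direction -/
theorem sp_hb [FiniteDimensional K V] {ω : V →ₗ[K] V →ₗ[K] K} (halt : ∀ x, ω x x = 0)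
    (hnd : ∀ x, (∀ y, ω x y = 0) → x = 0) {v : V} (hv : v ≠ 0) {τ : K} (hτ : τ ≠ 0) :
    ∃ t : V ≃ₗ[K] V, (t : V →ₗ[K] V) = rfl' ω v τ ∧ (∀ x y, ω (t x) (t y) = ω x y) ∧ t ≠ 1 ∧
      ∃ H : Submodule K V, finrank K H + 1 = finrank K V ∧ ∀ x ∈ H, t x = x := by
  have hskew : ∀ x y, ω y x = - ω x y := by
    intro x y
    have := halt (x + y)
    rw [map_add, map_add, LinearMap.add_apply, LinearMap.add_apply, halt, halt] at this
    linear_combination this
  have hpres : ∀ x y, ω (rfl' ω v τ x) (rfl' ω v τ y) = ω x y := by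
    intro x y
    rw [rfl'_apply, rfl'_apply]
    simp only [map_sub, map_smul, LinearMap.sub_apply, LinearMap.smul_apply, smul_eq_mul,
      halt v, hskew y v]
    ring
  obtain ⟨t, ht, htx, ht1, hH⟩ := mk_refl (β := ω) (fun x hx => hnd x fun y => by
    rw [hskew y x, hx y, neg_zero]) hv hτ (by
      intro x hx
      apply hnd
      intro y
      rw [← hpres x y, hx]; simp)
  refine ⟨t, ht, ?_, ht1, hH⟩
  intro x y
  have h1 : ∀ z, t z = rfl' ω v τ z := fun z => LinearMap.congr_fun ht z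
  rw [h1, h1, hpres]

theorem Q_sub (Q : QuadraticForm K V) (x y : V) :
    Q (x - y) = Q x + Q y - QuadraticMap.polarBilin Q x y := by
  have h := QuadraticMap.map_add Q x (-y)
  rw [← sub_eq_add_neg, QuadraticMap.map_neg, QuadraticMap.polar_neg_right] at h
  rw [h, QuadraticMap.polarBilin_apply_apply]
  ring

theorem Q_add (Q : QuadraticForm K V) (x y : V) :
    Q (x + y) = Q x + Q y + QuadraticMap.polarBilin Q x y := by
  rw [QuadraticMap.map_add Q, QuadraticMap.polarBilin_apply_apply]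

theorem Q_self (Q : QuadraticForm K V) (x : V) : QuadraticMap.polarBilin Q x x = 2 * Q x := by
  rw [QuadraticMap.polarBilin_apply_apply, QuadraticMap.polar_self]
  simp

theorem Q_symm (Q : QuadraticForm K V) (x y : V) :
    QuadraticMap.polarBilin Q x y = QuadraticMap.polarBilin Q y x := by
  rw [QuadraticMap.polarBilin_apply_apply, QuadraticMap.polarBilin_apply_apply,
    QuadraticMap.polar_comm]

/-- reflections of an orthogonal group, one direction -/
theorem o_ha [FiniteDimensional K V] {Q : QuadraticForm K V}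
    (hnd : ∀ x, (∀ y, QuadraticMap.polarBilin Q x y = 0) → x = 0) (t : V ≃ₗ[K] V)
    (hG : ∀ x, Q (t x) = Q x) (h1 : t ≠ 1) (H : Submodule K V)
    (hH : finrank K H + 1 = finrank K V) (ht : ∀ x ∈ H, t x = x) :
    ∃ v : V, v ≠ 0 ∧ ∃ τ : K, τ ≠ 0 ∧ (t : V →ₗ[K] V) = rfl' (QuadraticMap.polarBilin Q) v τ := by
  obtain ⟨φ, w, hw, htx⟩ := hyper t H hH ht
  set a := t w - w with ha
  set B := QuadraticMap.polarBilin Q with hB
  have ha0 : a ≠ 0 := by
    intro h
    apply h1
    ext x
    rw [htx x, h]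
    simp
  have hq : ∀ x, φ x * (φ x * Q a + B x a) = 0 := by
    intro x
    have h2 := hG x
    rw [htx x, Q_add, QuadraticMap.map_smul, map_smul, smul_eq_mul, smul_eq_mul, ← hB] at h2
    linear_combination h2
  have hBw : B w a = - Q a := by
    have h3 := hq w
    rw [hw] at h3
    linear_combination h3
  have hBa : ∀ x, B x a = - (Q a * φ x) := by
    intro x
    by_cases hx : φ x = 0
    · have h3 := hq (x + w)
      rw [map_add, hw, hx, map_add, LinearMap.add_apply, hBw] at h3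
      rw [hx]
      linear_combination h3
    · have h3 := (mul_eq_zero.mp (hq x)).resolve_left hx
      linear_combination h3
  have hQa : Q a ≠ 0 := by
    intro h
    apply ha0
    apply hnd
    intro y
    rw [Q_symm, ← hB, hBa, h]; ring
  refine ⟨a, ha0, Q a, hQa, ?_⟩
  ext x
  rw [rfl'_apply, hBa x]
  change t x = _
  rw [htx x]
  have h4 : (Q a)⁻¹ * -(Q a * φ x) = - φ x := by
    field_simp
  rw [h4, neg_smul, sub_neg_eq_add]

/-- reflections of an orthogonal group, other direction -/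
theorem o_hb [FiniteDimensional K V] {Q : QuadraticForm K V}
    (hnd : ∀ x, (∀ y, QuadraticMap.polarBilin Q x y = 0) → x = 0) {v : V} (hv : Q v ≠ 0) :
    ∃ t : V ≃ₗ[K] V, (t : V →ₗ[K] V) = rfl' (QuadraticMap.polarBilin Q) v (Q v) ∧
      (∀ x, Q (t x) = Q x) ∧ t ≠ 1 ∧
      ∃ H : Submodule K V, finrank K H + 1 = finrank K V ∧ ∀ x ∈ H, t x = x := by
  set B := QuadraticMap.polarBilin Q with hB
  have hv0 : v ≠ 0 := by
    rintro rfl
    simp at hv
  have hpresQ : ∀ x, Q (rfl' B v (Q v) x) = Q x := by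
    intro x
    rw [rfl'_apply, Q_sub, QuadraticMap.map_smul, map_smul, smul_eq_mul, smul_eq_mul, ← hB]
    field_simp
    ring
  have hpres : ∀ x y, B (rfl' B v (Q v) x) (rfl' B v (Q v) y) = B x y := by
    intro x y
    have h1 := hpresQ (x + y)
    rw [map_add, Q_add, Q_add, hpresQ, hpresQ, ← hB] at h1
    linear_combination h1
  obtain ⟨t, ht, htx, ht1, hH⟩ := mk_refl (β := B) (fun x hx => hnd x fun y => by
    rw [Q_symm]; exact hx y) hv0 hv (by
      intro x hx
      apply hnd
      intro y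
      rw [← hpres x y, hx]; simp)
  refine ⟨t, ht, ?_, ht1, hH⟩
  intro x
  have h1 : ∀ z, t z = rfl' B v (Q v) z := fun z => LinearMap.congr_fun ht z
  rw [h1, hpresQ]

/-- the value of `χ` on the diagonal in the orthogonal case -/
theorem chi_self {Q : QuadraticForm K V} {c R : V →ₗ[K] V} (hQ : ∀ x, Q (c x) = Q x)
    (hR : ∀ x, omc c (R x) = x) (u : V) : chi (QuadraticMap.polarBilin Q) R u u = Q u := by
  rw [chi_apply]
  have h1 := hR u
  set x := R u
  rw [← h1, omc_apply, Q_sub, hQ, map_sub, Q_self]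
  ring

end Pool.Agent.H376.Singer
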